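import Mathlib

/-!
Initial forms of an invariant polynomial along a branch: the finite computation.
-/

open Polynomial

namespace Pool.Agent.MP_249f74_an.H22

variable {C ι : Type} [Field C] [CharZero C]

omit [CharZero C] in
lemma lead (S : Finset ι) (p : ι → C[X]) (j : ι → ℕ) {m : ι} (hm : m ∈ S) (t : ℕ)
    (h : ∀ m' ∈ S, m' ≠ m → j m + t ≤ j m') :
    ∃ R, ∑ m' ∈ S, X ^ j m' * p m' = X ^ j m * (p m + X ^ t * R) := by
  classical
  have : X ^ (j m + t) ∣ ∑ m' ∈ S.erase m, X ^ j m' * p m' :=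
    Finset.dvd_sum fun m' hm' => (pow_dvd_pow _ (h m' (Finset.mem_of_mem_erase hm')
      (Finset.ne_of_mem_erase hm'))).mul_right _
  obtain ⟨R, hR⟩ := this
  exact ⟨R, by rw [← Finset.add_sum_erase _ _ hm, hR]; ring⟩

omit [CharZero C] in
lemma cmp {a b : ℕ} {p q : C[X]} (hp : p.eval 0 ≠ 0) (hq : q.eval 0 ≠ 0)
    (h : X ^ a * p = X ^ b * q) : a = b ∧ p = q := by
  have key : ∀ {a b : ℕ} {p q : C[X]}, p.eval 0 ≠ 0 → X ^ a * p = X ^ b * q → b ≤ a := by
    intro a b p q hp h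
    by_contra hn
    obtain ⟨k, rfl⟩ := Nat.exists_eq_add_of_lt (not_le.1 hn)
    rw [add_assoc, pow_add, mul_assoc] at h
    have := mul_left_cancel₀ (pow_ne_zero _ X_ne_zero) h
    exact hp (by rw [this]; simp)
  obtain rfl := le_antisymm (key hq h.symm) (key hp h)
  exact ⟨rfl, mul_left_cancel₀ (pow_ne_zero _ X_ne_zero) h⟩

/-- A root `1` of multiplicity `r` needs more than `r` terms. -/
lemma haj (S : Finset ι) (g : ι → C) (b : ι → ℕ) (r : ℕ) (ne : S.Nonempty)
    (g0 : ∀ m ∈ S, g m ≠ 0) (inj : ∀ m ∈ S, ∀ m' ∈ S, b m = b m' → m = m')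
    (van : ∀ j < r, ∑ m ∈ S, g m * ((b m).descFactorial j : C) = 0) : r < S.card := by
  classical
  have key : ∀ k : ℕ, ∀ p : C[X], p.natDegree = k → k < r →
      ∑ m ∈ S, g m * p.eval (b m : C) = 0 := by
    intro k
    induction k using Nat.strong_induction_on with
    | _ k ih =>
      intro p hp hk
      have h1 : ∑ m ∈ S, g m * (Polynomial.C p.leadingCoeff * descPochhammer C k).eval (b m : C) =
          0 := by
        simp only [eval_mul, eval_C, descPochhammer_eval_eq_descFactorial, mul_left_comm (g _)]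
        rw [← Finset.mul_sum, van k hk, mul_zero]
      by_cases h2 : p = Polynomial.C p.leadingCoeff * descPochhammer C k
      · rw [h2]; exact h1
      have p0 : p ≠ 0 := fun e => h2 (by simp [e])
      have h3 : (p - Polynomial.C p.leadingCoeff * descPochhammer C k).degree < p.degree := by
        refine degree_sub_lt_left ?_ p0 ?_
        · rw [degree_C_mul (leadingCoeff_ne_zero.2 p0), degree_eq_natDegree p0,
            degree_eq_natDegree (monic_descPochhammer C k).ne_zero, descPochhammer_natDegree, hp]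
        · rw [leadingCoeff_mul, leadingCoeff_C, (monic_descPochhammer C k).leadingCoeff, mul_one]
      have h4 := natDegree_lt_natDegree (sub_ne_zero.2 h2) h3
      have h5 := ih _ (hp ▸ h4) _ rfl (by omega)
      simp only [eval_sub, mul_sub, Finset.sum_sub_distrib] at h5
      rw [h1, sub_zero] at h5
      exact h5
  by_contra hn
  obtain ⟨m, hm⟩ := ne
  have hd : (∏ m' ∈ S.erase m, (X - Polynomial.C (b m' : C))).natDegree < r := by
    rw [natDegree_finsetProd_X_sub_C_eq_card, Finset.card_erase_of_mem hm]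
    have := Finset.card_pos.2 ⟨m, hm⟩
    omega
  have h := key _ _ rfl hd
  rw [Finset.sum_eq_single m (fun m' hm' hne => ?_) (fun h => absurd hm h)] at h
  · refine mul_ne_zero (g0 m hm) ?_ h
    rw [eval_prod]
    refine Finset.prod_ne_zero_iff.2 fun m' hm' => ?_
    simp only [eval_sub, eval_X, eval_C, sub_ne_zero, ne_eq, Nat.cast_inj]
    exact fun e => Finset.ne_of_mem_erase hm' (inj _ hm _ (Finset.mem_of_mem_erase hm') e).symm
  · rw [eval_prod, Finset.prod_eq_zero (Finset.mem_erase.2 ⟨hne, hm'⟩) (by simp), mul_zero]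

/-- Comparison of the two lowest terms. -/
lemma two (S : Finset ι) (g : ι → C) (j j' u v u' v' : ι → ℕ) {α1 α2 α3 α4 : C}
    (β1 β2 β3 β4 : C) (h1 : α1 ≠ 0) (h2 : α2 ≠ 0) (h3 : α3 ≠ 0) (h4 : α4 ≠ 0) {p q : ι}
    (hp : p ∈ S) (hq : q ∈ S) (gp : g p ≠ 0) (gq : g q ≠ 0) (t : ℕ)
    (jp : ∀ m ∈ S, m ≠ p → j p + (t + 1) ≤ j m) (jq : ∀ m ∈ S, m ≠ q → j' q + (t + 1) ≤ j' m)
    (id : ∀ z : C, ∑ m ∈ S, g m * z ^ j m * (α1 + β1 * z) ^ u m * (α2 + β2 * z) ^ v m =
      ∑ m ∈ S, g m * z ^ j' m * (α3 + β3 * z) ^ u' m * (α4 + β4 * z) ^ v' m) :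
    j p = j' q ∧ (1 ≤ t →
      u p * β1 / α1 + v p * β2 / α2 = u' q * β3 / α3 + v' q * β4 / α4) := by
  let f : C → C → C → C → C → ℕ → ℕ → C[X] := fun g α β α' β' k l =>
    Polynomial.C g * (Polynomial.C α + Polynomial.C β * X) ^ k *
      (Polynomial.C α' + Polynomial.C β' * X) ^ l
  have e0 : ∀ g α β α' β' k l (R : C[X]),
      (f g α β α' β' k l + X ^ (t + 1) * R).eval 0 = g * α ^ k * α' ^ l := by
    intros; simp [f]
  have e1 : 1 ≤ t → ∀ g α β α' β' k l (R : C[X]), α ≠ 0 → α' ≠ 0 →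
      (derivative (f g α β α' β' k l + X ^ (t + 1) * R)).eval 0 =
        g * α ^ k * α' ^ l * (k * β / α + l * β' / α') := by
    intro ht g α β α' β' k l R h h'
    have : t ≠ 0 := by omega
    rcases k with _ | k <;> rcases l with _ | l <;>
      simp [f, derivative_pow, this] <;> field_simp <;> ring
  obtain ⟨R, hR⟩ := lead S (fun m => f (g m) α1 β1 α2 β2 (u m) (v m)) j hp _ jp
  obtain ⟨R', hR'⟩ := lead S (fun m => f (g m) α3 β3 α4 β4 (u' m) (v' m)) j' hq _ jq
  have h : ∑ m ∈ S, X ^ j m * f (g m) α1 β1 α2 β2 (u m) (v m) =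
      ∑ m ∈ S, X ^ j' m * f (g m) α3 β3 α4 β4 (u' m) (v' m) := by
    refine Polynomial.funext fun z => ?_
    simp only [eval_finsetSum, f, eval_mul, eval_pow, eval_add, eval_C, eval_X]
    convert id z using 2 <;> ring
  rw [hR, hR'] at h
  have n1 : g p * α1 ^ u p * α2 ^ v p ≠ 0 := by simp [*]
  have n2 : g q * α3 ^ u' q * α4 ^ v' q ≠ 0 := by simp [*]
  obtain ⟨a1, a2⟩ := cmp (by rwa [e0]) (by rwa [e0]) h
  refine ⟨a1, fun ht => ?_⟩
  have b0 := congrArg (eval 0) a2
  have b1 := congrArg (fun p => eval 0 (derivative p)) a2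
  simp only [e0] at b0
  simp only [e1 ht _ _ _ _ _ _ _ _ h1 h2, e1 ht _ _ _ _ _ _ _ _ h3 h4, b0] at b1
  exact mul_left_cancel₀ n2 b1

/-- The data of an initial form. -/
structure Face (S : Finset ι) (g : ι → C) (a b c : ι → ℕ) (n r : ℕ) (γ ρ ν : ℚ) : Prop where
  ne : S.Nonempty
  g0 : ∀ m ∈ S, g m ≠ 0
  wt : ∀ m ∈ S, (a m : ℚ) + γ * b m = ν
  dg : ∀ m ∈ S, c m + a m + b m = n
  inj : ∀ m ∈ S, ∀ m' ∈ S, b m = b m' → m = m'
  van : ∀ j < r, ∑ m ∈ S, g m * ((b m).descFactorial j : C) = 0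
  ini : ∀ e : C, ∑ m ∈ S, g m * (1 + e) ^ a m * (1 + γ * e) ^ b m =
    ∑ m ∈ S, g m * (1 + ρ * e) ^ c m * (1 + (ρ - 1) * e) ^ a m * (1 + (ρ - γ) * e) ^ b m

namespace Face

variable {S : Finset ι} {g : ι → C} {a b c : ι → ℕ} {n r : ℕ} {γ ρ ν : ℚ}

lemma ends (h : Face S g a b c n r γ ρ ν) : ∃ p ∈ S, ∃ q ∈ S,
    (∀ m ∈ S, m ≠ p → b m < b p) ∧ (∀ m ∈ S, m ≠ q → b q < b m) ∧ b q + r ≤ b p ∧
      ((∃ z : ℤ, γ = z) ∨ b q + 2 * r ≤ b p) := by
  classical
  obtain ⟨p, hp, h1⟩ := S.exists_max_image b h.ne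
  obtain ⟨q, hq, h2⟩ := S.exists_min_image b h.ne
  have h3 := haj S g b r h.ne h.g0 h.inj h.van
  refine ⟨p, hp, q, hq, fun m hm hne => (h1 m hm).lt_of_ne fun e => hne (h.inj _ hm _ hp e),
    fun m hm hne => (h2 m hm).lt_of_ne fun e => hne (h.inj _ hq _ hm e).symm, ?_, ?_⟩
  · have := Finset.card_le_card_of_injOn (s := S) (t := Finset.Icc (b q) (b p)) b
      (fun m hm => by simpa using ⟨h2 m hm, h1 m hm⟩) fun m hm m' hm' e => h.inj _ hm _ hm' e
    rw [Nat.card_Icc] at this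
    omega
  · by_cases hz : ∃ m ∈ S, ∃ m' ∈ S, b m' = b m + 1
    · obtain ⟨m, hm, m', hm', e⟩ := hz
      refine Or.inl ⟨a m - a m', ?_⟩
      have e1 := h.wt m hm
      have e2 := h.wt m' hm'
      rw [e] at e2
      push_cast at e2 ⊢
      linarith
    · push Not at hz
      have := Finset.card_le_card_of_injOn (s := S) (t := Finset.range ((b p - b q) / 2 + 1))
        (fun m => (b m - b q) / 2)
        (fun m hm => by
          have := h1 m hm
          simp only [Finset.coe_range, Set.mem_Iio]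
          omega)
        fun m hm m' hm' e => h.inj _ hm _ hm' (by
          have := h2 m hm
          have := h2 m' hm'
          have := hz m hm m' hm'
          have := hz m' hm' m hm
          simp only at e
          omega)
      rw [Finset.card_range] at this
      have := h2 p hp
      exact Or.inr (by omega)

omit [CharZero C] in
lemma gapa (h : Face S g a b c n r γ ρ ν) (hγ : 1 < γ) {p m : ι} (hp : p ∈ S) (hm : m ∈ S)
    (hb : b m < b p) : a p + 2 ≤ a m := by
  have e1 := h.wt p hp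
  have e2 := h.wt m hm
  have : (b m : ℚ) + 1 ≤ b p := by exact_mod_cast hb
  have : (a p : ℚ) + 1 < a m := by nlinarith
  have : a p + 1 < a m := by exact_mod_cast this
  omega

omit [CharZero C] in
lemma gapc (h : Face S g a b c n r γ ρ ν) (t : ℕ) (hγ : t + 1 < γ) {q m : ι} (hq : q ∈ S)
    (hm : m ∈ S) (hb : b q < b m) : c q + (t + 1) ≤ c m := by
  have e1 := h.wt q hq
  have e2 := h.wt m hm
  have e3 : (c q : ℚ) + a q + b q = n := by exact_mod_cast h.dg q hq
  have e4 : (c m : ℚ) + a m + b m = n := by exact_mod_cast h.dg m hm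
  have : (b q : ℚ) + 1 ≤ b m := by exact_mod_cast hb
  have h0 : (0 : ℚ) ≤ t := Nat.cast_nonneg t
  have : (c q : ℚ) + t < c m := by nlinarith
  have : c q + t < c m := by exact_mod_cast this
  omega

theorem main (h : Face S g a b c n r γ ρ ν) (hγ : 1 < γ) (hr : 1 ≤ r) {σ : ℚ} (hσ : 0 ≤ σ)
    (bm : 3 * (ν - γ * r + σ) + r * (γ - 2) = 3 * (n / 2 - r) * ρ)
    (hρ : ρ = 0 ∨ ρ = 1 ∨ (ρ = γ ∧ γ ≤ 2) ∨ (ρ = 2 ∧ 2 < γ)) : γ = 2 ∧ σ = 0 := by
  obtain ⟨p, hp, q, hq, h1, h2, h3, h4⟩ := h.ends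
  have e1 := h.wt p hp
  have e2 := h.wt q hq
  have e3 : (c q : ℚ) + a q + b q = n := by exact_mod_cast h.dg q hq
  have e4 : (c p : ℚ) + a p + b p = n := by exact_mod_cast h.dg p hp
  have r1 : (1 : ℚ) ≤ r := by exact_mod_cast hr
  have h3' : (b q : ℚ) + r ≤ b p := by exact_mod_cast h3
  have p0 : (0 : ℚ) ≤ a p := Nat.cast_nonneg _
  have q0 : (0 : ℚ) ≤ b q := Nat.cast_nonneg _
  have h4' : γ < 2 → (b q : ℚ) + 2 * r ≤ b p := fun hlt => by
    rcases h4 with ⟨z, rfl⟩ | h4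
    · have a1 : 1 < z := by exact_mod_cast hγ
      have a2 : z < 2 := by exact_mod_cast hlt
      omega
    · exact_mod_cast h4
  have γ0 : (γ : C) ≠ 0 := by exact_mod_cast (by linarith : γ ≠ 0)
  have γ1 : 1 - (γ : C) ≠ 0 := by exact_mod_cast (by linarith : 1 - γ ≠ 0)
  have γ2 : (γ : C) - 1 ≠ 0 := by exact_mod_cast (by linarith : γ - 1 ≠ 0)
  rcases hρ with rfl | rfl | ⟨rfl, h5⟩ | ⟨rfl, h5⟩
  · have a1 : γ ≤ 2 := by nlinarith
    have a2 : γ = 2 := by
      by_contra hn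
      have := h4' (a1.lt_of_ne hn)
      nlinarith
    subst a2
    exact ⟨rfl, by nlinarith⟩
  · have key : ∀ t : ℕ, t ≤ 1 → t + 1 < γ → a p = c q ∧ (1 ≤ t →
        b p * (γ : C) / (1 - γ) + (0 : ℕ) * 0 / 1 = b q * (1 - γ) / γ + (0 : ℕ) * 0 / 1) :=
      fun t ht hγ' => two S g a c b (fun _ => 0) b (fun _ => 0) γ 0 (1 - γ) 0 γ1 one_ne_zero γ0
        one_ne_zero hp hq (h.g0 p hp) (h.g0 q hq) t
        (fun m hm hne => by have := h.gapa hγ hp hm (h1 m hm hne); omega)
        (fun m hm hne => h.gapc t hγ' hq hm (h2 m hm hne)) fun z => by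
          convert h.ini (z - 1) using 2 <;> push_cast <;> ring
    have a0 : (a p : ℚ) = c q := by exact_mod_cast (key 0 (by simp) (by simpa using hγ)).1
    have a1 : γ ≤ 2 := by
      by_contra hn
      have := (key 1 le_rfl (by push_cast; linarith)).2 le_rfl
      have : (b p : C) * γ ^ 2 = b q * (1 - γ) ^ 2 := by
        field_simp at this
        linear_combination this
      have : (b p : ℚ) * γ ^ 2 = b q * (1 - γ) ^ 2 := by exact_mod_cast this
      nlinarith
    have a2 : γ = 2 := by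
      by_contra hn
      have := h4' (a1.lt_of_ne hn)
      nlinarith
    subst a2
    exact ⟨rfl, by nlinarith⟩
  · have key := (two S g b c a (fun _ => 0) a (fun _ => 0) (α1 := 1 - 1 / ρ) (α3 := 1 / ρ)
        (1 / ρ) 0 ((ρ - 1) / ρ) 0 (by rw [one_sub_div γ0]; exact div_ne_zero γ2 γ0) one_ne_zero
        (by simpa using γ0) one_ne_zero hq hq (h.g0 q hq) (h.g0 q hq) 0
        (fun m hm hne => h2 m hm hne)
        (fun m hm hne => h.gapc 0 (by simpa using hγ) hq hm (h2 m hm hne)) fun z => by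
          have e : 1 + (ρ : C) * ((z - 1) / ρ) = z := by field_simp; ring
          convert h.ini ((z - 1) / ρ) using 2
          · rw [e, show 1 + (z - 1) / (ρ : C) = 1 - 1 / ρ + 1 / ρ * z by ring]; ring
          · rw [e, show 1 + ((ρ : C) - 1) * ((z - 1) / ρ) = 1 / ρ + (ρ - 1) / ρ * z by
              field_simp; ring]
            simp).1
    have a0 : (b q : ℚ) = c q := by exact_mod_cast key
    have a2 : ρ = 2 := by
      by_contra hn
      have := h5.lt_of_ne hn
      have a3 : (r : ℚ) ≤ a q := by nlinarith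
      nlinarith
    subst a2
    exact ⟨rfl, by nlinarith⟩
  · have gap : ∀ m ∈ S, m ≠ p → a p + (1 + 1) ≤ a m := fun m hm hne =>
      h.gapa hγ hp hm (h1 m hm hne)
    have key := (two S g a a b (fun _ => 0) c b (α3 := -1) γ 0 2 (2 - γ) γ1 one_ne_zero
        (by simp) γ2 hp hp (h.g0 p hp) (h.g0 p hp) 1 gap gap fun z => by
          convert h.ini (z - 1) using 2 <;> push_cast <;> ring).2 le_rfl
    have : (c p : C) * (γ - 1) = b p := by
      have γ3 : (1 : C) - γ = -(γ - 1) := by ring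
      rw [γ3] at key
      field_simp at key
      linear_combination (1 / 2 : C) * key
    have a0 : (c p : ℚ) * (γ - 1) = b p := by exact_mod_cast this
    have c0 : (0 : ℚ) ≤ c p := Nat.cast_nonneg _
    have a1 : 3 * γ * c p * (γ - 2) + 3 * σ = 2 * r * (γ - 2) := by
      linear_combination bm + 3 * e1 - 3 * e4 + 3 * (γ - 1) * a0
    have a2 : 3 * γ * c p ≤ 2 * r := by
      by_contra hn
      nlinarith
    nlinarith

end Face

end Pool.Agent.MP_249f74_an.H22
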