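import Pool.Agent.MP_249f74_an.H53.Spec

/-!
A form that is invariant under the reflections of the tangent lines of a curve:
the third order identity.
-/

namespace Pool.Agent.MP_249f74_an.H22

open H17 (Der)

variable {C K : Type} [Field C] [Field K] [Algebra C K]

/-- Evaluation of a ternary form. -/
noncomputable def ev {A : Type} [CommRing A] [Algebra C A] (F : MvPolynomial (Fin 3) C)
    (a b c : A) : A := MvPolynomial.aeval ![a, b, c] F

/-- Invariance under the reflection of the tangent line that fixes the point of contact. -/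
def Inv (d : Der C K) (F : MvPolynomial (Fin 3) C) (n0 n1 n2 I0 : K) : Prop :=
  ∀ s t : K, ev F (s * n0 + t * d n0) (s * n1 + t * d n1) (s * n2 + t * d n2) =
    ev F ((s + d I0 / I0 * t) * n0 - t * d n0) ((s + d I0 / I0 * t) * n1 - t * d n1)
      ((s + d I0 / I0 * t) * n2 - t * d n2)

section Ev

open MvPolynomial

variable {A B : Type} [CommRing A] [Algebra C A] [CommRing B] [Algebra C B]
  {F G : MvPolynomial (Fin 3) C}

@[simp] lemma ev_C (r : C) (a b c : A) : ev (MvPolynomial.C r) a b c = algebraMap C A r := by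
  simp [ev]

@[simp] lemma ev_add (a b c : A) : ev (F + G) a b c = ev F a b c + ev G a b c := map_add _ _ _

@[simp] lemma ev_sub (a b c : A) : ev (F - G) a b c = ev F a b c - ev G a b c := map_sub _ _ _

@[simp] lemma ev_mul (a b c : A) : ev (F * G) a b c = ev F a b c * ev G a b c := map_mul _ _ _

@[simp] lemma ev_pow (k : ℕ) (a b c : A) : ev (F ^ k) a b c = ev F a b c ^ k := map_pow _ _ _

@[simp] lemma ev_zero (a b c : A) : ev (0 : MvPolynomial (Fin 3) C) a b c = 0 := map_zero _

@[simp] lemma ev_X0 (a b c : A) : ev (X 0 : MvPolynomial (Fin 3) C) a b c = a := by simp [ev]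

@[simp] lemma ev_X1 (a b c : A) : ev (X 1 : MvPolynomial (Fin 3) C) a b c = b := by simp [ev]

@[simp] lemma ev_X2 (a b c : A) : ev (X 2 : MvPolynomial (Fin 3) C) a b c = c := by simp [ev]

lemma map_ev (φ : A →ₐ[C] B) (a b c : A) : φ (ev F a b c) = ev F (φ a) (φ b) (φ c) := by
  rw [ev, ev, ← AlgHom.comp_apply, comp_aeval]
  congr 2
  funext i
  fin_cases i <;> rfl

lemma ev_ev (l0 l1 l2 : MvPolynomial (Fin 3) C) (a b c : A) :
    ev (ev F l0 l1 l2) a b c = ev F (ev l0 a b c) (ev l1 a b c) (ev l2 a b c) :=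
  map_ev (aeval ![a, b, c]) l0 l1 l2

lemma ev_sum (a b c : A) : ev F a b c =
    ∑ m ∈ F.support, algebraMap C A (coeff m F) * (a ^ m 0 * b ^ m 1 * c ^ m 2) := by
  rw [ev, aeval_def, eval₂_eq']
  simp [Fin.prod_univ_three]

lemma deg3 {n : ℕ} (hF : F.IsHomogeneous n) {m : Fin 3 →₀ ℕ} (hm : m ∈ F.support) :
    m 0 + m 1 + m 2 = n := by
  have := hF (mem_support_iff.1 hm)
  rwa [Finsupp.weight_apply, Finsupp.sum_fintype _ _ (by simp), Fin.sum_univ_three, Pi.one_apply,
    Pi.one_apply, Pi.one_apply, smul_eq_mul, smul_eq_mul, smul_eq_mul, mul_one, mul_one,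
    mul_one] at this

lemma ev_smul {n : ℕ} (hF : F.IsHomogeneous n) (t a b c : A) :
    ev F (t * a) (t * b) (t * c) = t ^ n * ev F a b c := by
  rw [ev_sum, ev_sum, Finset.mul_sum]
  refine Finset.sum_congr rfl fun m hm => ?_
  rw [← deg3 hF hm]
  ring

lemma hom_ev {n : ℕ} (hF : F.IsHomogeneous n) {l0 l1 l2 : MvPolynomial (Fin 3) C}
    (h0 : l0.IsHomogeneous 1) (h1 : l1.IsHomogeneous 1) (h2 : l2.IsHomogeneous 1) :
    (ev F l0 l1 l2).IsHomogeneous n := by
  have := hF.aeval ![l0, l1, l2] (n := 1) (fun i => by fin_cases i <;> assumption)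
  rwa [one_mul] at this

/-- Chain rule. -/
lemma der_ev {δ : A → A} (ha : ∀ u v, δ (u + v) = δ u + δ v)
    (hm : ∀ u v, δ (u * v) = u * δ v + v * δ u) (hc : ∀ r, δ (algebraMap C A r) = 0)
    (F : MvPolynomial (Fin 3) C) (a b c : A) :
    δ (ev F a b c) = ev (pderiv 0 F) a b c * δ a + ev (pderiv 1 F) a b c * δ b +
      ev (pderiv 2 F) a b c * δ c := by
  induction F using MvPolynomial.induction_on with
  | C r => simp [hc]
  | add p q hp hq => simp only [ev_add, map_add, ha, hp, hq]; ring
  | mul_X p i hp =>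
    fin_cases i <;> simp [hm, hp, pderiv_X] <;> ring

/-- The iterated derivative in the last variable. -/
noncomputable def dd (j : ℕ) (F : MvPolynomial (Fin 3) C) : MvPolynomial (Fin 3) C :=
  (pderiv 2)^[j] F

lemma dd_succ (j : ℕ) : dd (j + 1) F = pderiv 2 (dd j F) := Function.iterate_succ_apply' _ _ _

lemma ev_dd (j : ℕ) (a b c : A) : ev (dd j F) a b c * c ^ j = ∑ m ∈ F.support,
    algebraMap C A (coeff m F) * (a ^ m 0 * b ^ m 1 * c ^ m 2) * ((m 2).descFactorial j : A) := by
  have key : ∀ (m : Fin 3 →₀ ℕ) (r : C), ev (dd j (monomial m r)) a b c =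
      algebraMap C A r * (a ^ m 0 * b ^ m 1 * c ^ (m 2 - j)) * ((m 2).descFactorial j : A) := by
    intro m r
    have : dd j (monomial m r) =
        monomial (m - Finsupp.single 2 j) (r * ((m 2).descFactorial j : C)) := by
      induction j with
      | zero => simp [dd]
      | succ j ih =>
        rw [dd_succ, ih, pderiv_monomial, Nat.descFactorial_succ, tsub_tsub, ← Finsupp.single_add]
        congr 1
        simp only [Finsupp.coe_tsub, Pi.sub_apply, Finsupp.single_eq_same, Nat.cast_mul]
        ring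
    rw [this, ev, aeval_monomial, Finsupp.prod_fintype _ _ (by simp), Fin.prod_univ_three]
    simp
    ring
  have hl : ∀ S : Finset (Fin 3 →₀ ℕ), dd j (∑ m ∈ S, monomial m (coeff m F)) =
      ∑ m ∈ S, dd j (monomial m (coeff m F)) := fun S => by
    have : ∀ G : MvPolynomial (Fin 3) C, dd j G = ((pderiv 2).toLinearMap ^ j) G := fun G => by
      rw [Module.End.pow_apply]; rfl
    simp only [this, map_sum]
  conv_lhs => rw [F.as_sum, hl, ev, map_sum, Finset.sum_mul]
  refine Finset.sum_congr rfl fun m _ => ?_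
  have := key m (coeff m F)
  rw [ev] at this
  rw [this]
  by_cases h : j ≤ m 2
  · obtain ⟨k, hk⟩ := Nat.exists_eq_add_of_le h
    rw [hk, Nat.add_sub_cancel_left]; ring
  · simp [Nat.descFactorial_of_lt (not_le.1 h)]

end Ev

open Polynomial
open MvPolynomial (pderiv)

/-- The form on the tangent line. -/
noncomputable def tl (D : Der C K) (F : MvPolynomial (Fin 3) C) (x y : K) : K[X] :=
  ev F 1 (Polynomial.C x + X) (Polynomial.C y + Polynomial.C (D y) * X)

lemma eval_tl (D : Der C K) (F : MvPolynomial (Fin 3) C) (x y t : K) :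
    (tl D F x y).eval t = ev F 1 (x + t) (y + D y * t) := by
  have := map_ev (F := F) ((Polynomial.aeval t : Polynomial K →ₐ[K] K).restrictScalars C) 1
    (Polynomial.C x + Polynomial.X) (Polynomial.C y + Polynomial.C (D y) * Polynomial.X)
  simpa [tl] using this

lemma tl_rec {D : Der C K} {x : K} (hx : D x = 1) (F : MvPolynomial (Fin 3) C) (y : K) (k : ℕ) :
    (tl D F x y).coeff (k + 1) * (k + 1) =
      D ((tl D F x y).coeff k) - D (D y) * (X * tl D (pderiv 2 F) x y).coeff k := by
  let e : K[X] → K[X] := fun p => p.sum fun i a => monomial i (D a)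
  have he : ∀ p i, (e p).coeff i = D (p.coeff i) := fun p i => by
    simp only [e, Polynomial.sum, finsetSum_coeff, Polynomial.coeff_monomial]
    rw [Finset.sum_ite_eq']
    split_ifs with h
    · rfl
    · rw [Polynomial.notMem_support_iff.1 h, map_zero]
  have ea : ∀ u v, e (u + v) = e u + e v := fun u v => Polynomial.ext fun i => by simp [he]
  have em : ∀ u v, e (u * v) = u * e v + v * e u := fun u v => Polynomial.ext fun i => by
    rw [mul_comm v]
    simp only [he, Polynomial.coeff_mul, Polynomial.coeff_add, map_sum, Derivation.leibniz,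
      smul_eq_mul, ← Finset.sum_add_distrib]
    exact Finset.sum_congr rfl fun _ _ => by ring
  have ec : ∀ a, e (Polynomial.C a) = Polynomial.C (D a) := fun a => Polynomial.ext fun i => by
    rw [he, Polynomial.coeff_C, Polynomial.coeff_C]; split_ifs <;> simp
  have ex : e X = 0 := Polynomial.ext fun i => by
    rw [he, Polynomial.coeff_X]; split_ifs <;> simp
  have e1 : e 1 = 0 := by simpa using ec 1
  have := der_ev (δ := fun p => e p - derivative p) (fun u v => by simp only [ea, map_add]; ring)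
    (fun u v => by simp only [em, derivative_mul]; ring)
    (fun r => by simp [Polynomial.algebraMap_apply, ec]) F 1
    (Polynomial.C x + X) (Polynomial.C y + Polynomial.C (D y) * X)
  simp only [ea, em, ec, ex, e1, hx, map_add, derivative_mul, derivative_C, derivative_X,
    derivative_one, map_one] at this
  have h2 : e (tl D F x y) - derivative (tl D F x y) =
      Polynomial.C (D (D y)) * (X * tl D (pderiv 2 F) x y) := by
    rw [tl, tl, this]; ring
  have h3 := congrArg (fun p => Polynomial.coeff p k) h2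
  simp only [Polynomial.coeff_sub, he, coeff_derivative, coeff_C_mul] at h3
  linear_combination -h3

lemma tl_zero (D : Der C K) (F : MvPolynomial (Fin 3) C) (x y : K) :
    (tl D F x y).coeff 0 = ev F 1 x y := by
  rw [coeff_zero_eq_eval_zero, eval_tl]; simp

variable [CharZero K]

lemma tl_low {D : Der C K} {x y : K} (hx : D x = 1) (F : MvPolynomial (Fin 3) C) {r : ℕ}
    (h0 : ∀ j < r, ev (dd j F) 1 x y = 0) {u : K} (hu : ev (dd r F) 1 x y = u) (u0 : u ≠ 0)
    (y0 : D (D y) ≠ 0) (i : ℕ) : ∀ j, j + i = r →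
      (∀ k < 2 * i, (tl D (dd j F) x y).coeff k = 0) ∧ (tl D (dd j F) x y).coeff (2 * i) ≠ 0 ∧
      D ((tl D (dd j F) x y).coeff (2 * i)) =
        (tl D (dd j F) x y).coeff (2 * i) * (D u / u + i * (D (D (D y)) / D (D y))) ∧
      (tl D (dd j F) x y).coeff (2 * i + 1) =
        (tl D (dd j F) x y).coeff (2 * i) * (D u / u + i * (D (D (D y)) / D (D y)) / 3) := by
  induction i with
  | zero =>
    rintro j rfl
    have := tl_rec hx (dd j F) y 0
    simp only [add_zero] at hu
    simp only [tl_zero, hu, mul_coeff_zero, coeff_X_zero, zero_mul, mul_zero, sub_zero,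
      Nat.cast_zero, zero_add, mul_one] at this
    simp only [mul_zero, tl_zero, hu, zero_add, this]
    refine ⟨by simp, u0, ?_, ?_⟩ <;> field_simp <;> simp
  | succ i ih =>
    intro j hj
    obtain ⟨a1, a2, a3, a4⟩ := ih (j + 1) (by omega)
    rw [dd_succ] at a1 a2 a3 a4
    have b1 : ∀ k ≤ 2 * i + 1, (tl D (dd j F) x y).coeff k = 0 := by
      intro k
      induction k with
      | zero => intro _; rw [tl_zero, h0 j (by omega)]
      | succ k ihk =>
        intro hk
        have := tl_rec hx (dd j F) y k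
        rw [ihk (by omega), map_zero] at this
        have h2 : (X * tl D (pderiv 2 (dd j F)) x y).coeff k = 0 := by
          rcases k with _ | k
          · simp
          · rw [coeff_X_mul, a1 k (by omega)]
        rw [h2, mul_zero, sub_zero] at this
        exact (mul_eq_zero.1 this).resolve_right (Nat.cast_add_one_ne_zero k)
    have b2 := tl_rec hx (dd j F) y (2 * i + 1)
    have b3 := tl_rec hx (dd j F) y (2 * i + 1 + 1)
    rw [b1 _ le_rfl, map_zero, coeff_X_mul] at b2
    rw [coeff_X_mul, a4] at b3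
    rw [show 2 * (i + 1) = 2 * i + 1 + 1 by ring]
    generalize (tl D (dd j F) x y).coeff (2 * i + 1 + 1) = α at *
    generalize (tl D (dd j F) x y).coeff (2 * i + 1 + 1 + 1) = β at *
    generalize (tl D (pderiv 2 (dd j F)) x y).coeff (2 * i) = α' at *
    have n1 : ((2 * i + 1 : ℕ) : K) + 1 ≠ 0 := Nat.cast_add_one_ne_zero _
    have n2 : ((2 * i + 1 + 1 : ℕ) : K) + 1 ≠ 0 := Nat.cast_add_one_ne_zero _
    have b4 := congrArg D b2
    simp only [Derivation.leibniz, map_add, map_sub, map_zero, Derivation.map_natCast,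
      Derivation.map_one_eq_zero, smul_eq_mul, a3] at b4
    have b5 : D α = α * (D u / u + (i + 1 : ℕ) * (D (D (D y)) / D (D y))) := by
      refine mul_right_cancel₀ n1 ?_
      have : D (D y) * (D (D (D y)) / D (D y)) = D (D (D y)) := by field_simp
      push_cast at *
      linear_combination b4 - (D u / u + (i + 1) * (D (D (D y)) / D (D y))) * b2 + α' * this
    refine ⟨fun k hk => b1 k (by omega), fun e => ?_, b5, ?_⟩
    · rw [e, zero_mul, zero_sub, eq_comm, neg_eq_zero] at b2
      exact mul_ne_zero y0 a2 b2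
    · refine mul_right_cancel₀ n2 ?_
      rw [b5] at b3
      push_cast at *
      linear_combination b3 - (D u / u + i * (D (D (D y)) / D (D y)) / 3) * b2

omit [CharZero K] in
lemma clear (R : K[X]) (w : K) : ∃ (L : ℕ) (R' : K[X]), ∀ t, 1 + w * t ≠ 0 →
    R'.eval t = (1 + w * t) ^ L * R.eval (-t / (1 + w * t)) := by
  refine ⟨R.natDegree, ∑ k ∈ Finset.range (R.natDegree + 1),
    Polynomial.C (R.coeff k) * (-X) ^ k * (1 + Polynomial.C w * X) ^ (R.natDegree - k),
    fun t ht => ?_⟩
  rw [eval_eq_sum_range (p := R), eval_finsetSum, Finset.mul_sum]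
  refine Finset.sum_congr rfl fun k hk => ?_
  obtain ⟨l, hl⟩ := Nat.exists_eq_add_of_le (Nat.lt_succ_iff.1 (Finset.mem_range.1 hk))
  rw [hl, Nat.add_sub_cancel_left]
  simp only [eval_mul, eval_C, eval_pow, eval_neg, eval_X, eval_add, eval_one, div_pow, pow_add]
  generalize 1 + w * t = z at *
  field_simp

/-- The two lowest terms of an invariant polynomial. -/
lemma odd_term (p : K[X]) (w : K) (n r : ℕ) (h0 : ∀ k < 2 * r, p.coeff k = 0)
    (h : ∀ t, 1 + w * t ≠ 0 → p.eval t = (1 + w * t) ^ n * p.eval (-t / (1 + w * t))) :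
    2 * p.coeff (2 * r + 1) = (n - 2 * r) * w * p.coeff (2 * r) := by
  obtain ⟨q, rfl⟩ := X_pow_dvd_iff.2 h0
  have e0 : (X ^ (2 * r) * q).coeff (2 * r) = q.coeff 0 := by
    simpa using coeff_X_pow_mul q (2 * r) 0
  rw [add_comm, coeff_X_pow_mul, e0]
  obtain ⟨R, hR⟩ : X ^ 2 ∣ q - (Polynomial.C (q.coeff 0) + Polynomial.C (q.coeff 1) * X) :=
    X_pow_dvd_iff.2 fun k hk => by interval_cases k <;> simp
  generalize q.coeff 0 = α at *
  generalize q.coeff 1 = β at *
  obtain rfl : q = Polynomial.C α + Polynomial.C β * X + X ^ 2 * R := by rw [← hR]; ring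
  obtain ⟨L, R', hR'⟩ := clear R w
  have key : (Polynomial.C α + Polynomial.C β * X + X ^ 2 * R) *
      (1 + Polynomial.C w * X) ^ (2 * r + L + 2) = (1 + Polynomial.C w * X) ^ n *
      (Polynomial.C α * (1 + Polynomial.C w * X) ^ (L + 2) -
        Polynomial.C β * X * (1 + Polynomial.C w * X) ^ (L + 1) + X ^ 2 * R') := by
    refine eq_of_infinite_eval_eq _ _ (Set.Infinite.mono (s := {0, -w⁻¹}ᶜ) (fun t ht => ?_)
      (Set.toFinite _).infinite_compl)
    simp only [Set.mem_compl_iff, Set.mem_insert_iff, Set.mem_singleton_iff, not_or] at ht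
    have t1 : 1 + w * t ≠ 0 := fun e => by
      have w0 : w ≠ 0 := fun e' => by simp [e'] at e
      exact ht.2 (by field_simp; linear_combination e)
    have h1 := h t t1
    simp only [Set.mem_ofPred_eq, eval_mul, eval_C, eval_pow, eval_sub, eval_X, eval_add, eval_one,
      hR' t t1] at h1 ⊢
    refine mul_left_cancel₀ (pow_ne_zero (2 * r) ht.1) ?_
    rw [← mul_assoc, h1, div_pow, Even.neg_pow (even_two_mul r)]
    field_simp
    ring
  have := congrArg (fun p => eval 0 (derivative p)) key
  simp [derivative_pow] at this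
  linear_combination this

omit [CharZero K] in
lemma Inv.tl {D : Der C K} {x y I0 : K} {F : MvPolynomial (Fin 3) C} {n : ℕ} (hx : D x = 1)
    (hF : F.IsHomogeneous n) (hI : Inv D F 1 x y I0) (t : K) (ht : 1 + D I0 / I0 * t ≠ 0) :
    (tl D F x y).eval t = (1 + D I0 / I0 * t) ^ n *
      (tl D F x y).eval (-t / (1 + D I0 / I0 * t)) := by
  have := hI 1 t
  rw [eval_tl, eval_tl, ← ev_smul hF]
  simp only [hx, Derivation.map_one_eq_zero, mul_zero, mul_one, one_mul, add_zero,
    sub_zero] at this
  rw [mul_comm (D y), this]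
  generalize 1 + D I0 / I0 * t = z at *
  congr 1 <;> field_simp <;> ring

/-- The third order identity. -/
theorem bm {D : Der C K} {x y I0 : K} {F : MvPolynomial (Fin 3) C} {n r : ℕ} (hx : D x = 1)
    (hF : F.IsHomogeneous n) (hI : Inv D F 1 x y I0) (h0 : ∀ j < r, ev (dd j F) 1 x y = 0)
    {u : K} (hu : ev (dd r F) 1 x y = u) (u0 : u ≠ 0) (y0 : D (D y) ≠ 0) :
    2 * (D u / u + r * (D (D (D y)) / D (D y)) / 3) = (n - 2 * r) * (D I0 / I0) := by
  obtain ⟨a1, a2, -, a4⟩ := tl_low hx F h0 hu u0 y0 r 0 (by simp)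
  have := odd_term (tl D F x y) (D I0 / I0) n r a1 (hI.tl hx hF)
  change (tl D F x y).coeff _ = (tl D F x y).coeff _ * _ at a4
  change (tl D F x y).coeff _ ≠ 0 at a2
  rw [a4] at this
  exact mul_right_cancel₀ a2 (by linear_combination this)

/-- The first order identity. -/
theorem first {D : Der C K} {x y I0 : K} {F : MvPolynomial (Fin 3) C} {n : ℕ} (hx : D x = 1)
    (hF : F.IsHomogeneous n) (hI : Inv D F 1 x y I0) :
    2 * D (ev F 1 x y) = n * (D I0 / I0) * ev F 1 x y := by
  have h1 := odd_term (tl D F x y) (D I0 / I0) n 0 (by simp) (hI.tl hx hF)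
  have h2 := tl_rec hx F y 0
  simp only [mul_zero, zero_add, tl_zero, mul_coeff_zero, coeff_X_zero, zero_mul, sub_zero,
    Nat.cast_zero, mul_one] at h1 h2
  rw [← h2, h1]

end Pool.Agent.MP_249f74_an.H22
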