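import Pool.Agent.MP_249f74_an.H22.Kap

/-!
The affine curvature is integral at every place.
-/

namespace Pool.Agent.MP_249f74_an.H22

open H17 (Der)
open H53 H53.Pl

variable {C K : Type} [Field C] [Field K] [Algebra C K]

/-- A linear form. -/
noncomputable def lin (a b c : C) : MvPolynomial (Fin 3) C :=
  MvPolynomial.C a * MvPolynomial.X 0 + MvPolynomial.C b * MvPolynomial.X 1 +
    MvPolynomial.C c * MvPolynomial.X 2

lemma ev_lin {A : Type} [CommRing A] [Algebra C A] (a b c : C) (u v w : A) : ev (lin a b c) u v w =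
    algebraMap C A a * u + algebraMap C A b * v + algebraMap C A c * w := by simp [lin]

lemma hom_lin (a b c : C) : (lin a b c).IsHomogeneous 1 :=
  ((MvPolynomial.isHomogeneous_C_mul_X _ _).add (MvPolynomial.isHomogeneous_C_mul_X _ _)).add
    (MvPolynomial.isHomogeneous_C_mul_X _ _)

lemma eq_zero_of_ev [CharZero C] {F : MvPolynomial (Fin 3) C} (h : ∀ u v w : C, ev F u v w = 0) :
    F = 0 := MvPolynomial.funext fun u => by
  have := h (u 0) (u 1) (u 2)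
  rw [ev, show ![u 0, u 1, u 2] = u from funext fun i => by fin_cases i <;> rfl] at this
  simpa using this

variable {a0 b0 c0 a1 b1 c1 a2 b2 c2 : C} {F : MvPolynomial (Fin 3) C} {n : ℕ}

lemma lin_ne [CharZero C] (F0 : F ≠ 0)
    (he : Matrix.det !![a0, b0, c0; a1, b1, c1; a2, b2, c2] ≠ 0) :
    ev F (lin a0 b0 c0) (lin a1 b1 c1) (lin a2 b2 c2) ≠ 0 := fun h =>
  F0 (eq_zero_of_ev fun u v w => by
    obtain ⟨z, hz⟩ := Matrix.mulVec_surjective_iff_isUnit.2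
      ((Matrix.isUnit_iff_isUnit_det _).2 he.isUnit) ![u, v, w]
    have := congrArg (fun G => ev G (z 0) (z 1) (z 2)) h
    have h0 := congrFun hz 0
    have h1 := congrFun hz 1
    have h2 := congrFun hz 2
    simp [Matrix.mulVec, dotProduct, Fin.sum_univ_three] at h0 h1 h2
    simpa [ev_ev, ev_lin, h0, h1, h2] using this)

variable {d D : Der C K} {l μ n0 n1 n2 I0 x y φ : K}

lemma Inv.lin (h : Inv d F (ev (lin a0 b0 c0) n0 n1 n2) (ev (lin a1 b1 c1) n0 n1 n2)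
    (ev (lin a2 b2 c2) n0 n1 n2) I0) :
    Inv d (ev F (lin a0 b0 c0) (lin a1 b1 c1) (lin a2 b2 c2)) n0 n1 n2 I0 := fun s t => by
  rw [ev_ev, ev_ev]
  convert h s t using 2 <;> simp [ev_lin] <;> ring

lemma Inv.scale (hd : ∀ g, d g = l * D g) (l0 : l ≠ 0) (μ0 : μ ≠ 0) (I00 : I0 ≠ 0)
    (h : Inv d F (μ * n0) (μ * n1) (μ * n2) (μ ^ 2 * I0)) : Inv D F n0 n1 n2 I0 := fun s t => by
  convert h ((s - t * D μ / μ) / μ) (t / (μ * l)) using 2 <;>
    simp [hd, Derivation.leibniz_pow] <;> field_simp <;> ring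

/-- A nonzero invariant form that vanishes on the curve. -/
structure Dat (d : Der C K) (F : MvPolynomial (Fin 3) C) (n : ℕ) (n0 n1 n2 I0 : K) : Prop where
  hom : F.IsHomogeneous n
  ne : F ≠ 0
  van : ev F n0 n1 n2 = 0
  nz : I0 ≠ 0
  inv : Inv d F n0 n1 n2 I0

lemma Dat.scale (hd : ∀ g, d g = l * D g) (l0 : l ≠ 0) (μ0 : μ ≠ 0)
    (h : Dat d F n (μ * n0) (μ * n1) (μ * n2) (μ ^ 2 * I0)) : Dat D F n n0 n1 n2 I0 :=
  ⟨h.hom, h.ne, by simpa [ev_smul h.hom, μ0] using h.van, right_ne_zero_of_mul h.nz,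
    h.inv.scale hd l0 μ0 (right_ne_zero_of_mul h.nz)⟩

variable [CharZero C]

lemma Dat.lin (he : Matrix.det !![a0, b0, c0; a1, b1, c1; a2, b2, c2] ≠ 0)
    (h : Dat d F n (ev (lin a0 b0 c0) n0 n1 n2) (ev (lin a1 b1 c1) n0 n1 n2)
      (ev (lin a2 b2 c2) n0 n1 n2) I0) :
    Dat d (ev F (lin a0 b0 c0) (lin a1 b1 c1) (lin a2 b2 c2)) n n0 n1 n2 I0 :=
  ⟨hom_ev h.hom (hom_lin ..) (hom_lin ..) (hom_lin ..), lin_ne h.ne he, by rw [ev_ev, h.van],
    h.nz, h.inv.lin⟩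

omit [CharZero C] in
lemma Dat.pos (h : Dat d F n n0 n1 n2 I0) : 0 < n := Nat.pos_of_ne_zero fun e => h.ne (by
  have h1 := MvPolynomial.totalDegree_eq_zero_iff_eq_C.1 ((h.hom.totalDegree h.ne).trans e)
  have h2 := h.van
  rw [h1] at h2 ⊢
  simpa using h2)

omit [CharZero C] in
lemma af_lin (a b c : C) (x y : K) : af a b c x y = ev (lin a b c) 1 x y := by simp [af, ev_lin]

lemma Dat.nrm {P : Pl d} (ox : 0 < P.o x)
    (he : Matrix.det !![a0, b0, c0; a1, b1, c1; a2, b2, c2] ≠ 0)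
    (h : Dat d F n (af a0 b0 c0 x y) (af a1 b1 c1 x y) (af a2 b2 c2 x y) I0) :
    Dat ((d x)⁻¹ • d) (ev F (H22.lin a0 b0 c0) (H22.lin a1 b1 c1) (H22.lin a2 b2 c2)) n
      1 x y I0 := by
  have x0 := d_ne ox.ne'
  simp only [af_lin] at h
  exact Dat.scale (d := d) (l := d x) (μ := 1) (fun g => by simp [x0]) x0 one_ne_zero
    (by simpa using h.lin he)

variable [CharZero K]

/-- The estimate in a chart adapted to the place. -/
theorem chart {P : Pl d} (ox : 0 < P.o x) (oy : P.o x < P.o y)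
    (h0 : n0 = af a0 b0 c0 x y) (h1 : n1 = af a1 b1 c1 x y) (h2 : n2 = af a2 b2 c2 x y)
    (hφ : φ ^ 3 * W3 d n0 n1 n2 = 1)
    (hc : (Dat d F n n0 n1 n2 I0 ∧ (P.o I0 = 0 ∨ P.o I0 = P.o x ∨
      (P.o I0 = P.o y ∧ P.o y ≤ 2 * P.o x) ∨ (P.o I0 = 2 * P.o x ∧ 2 * P.o x < P.o y))) ∨
      (a0 * b2 - a2 * b0 = 0 ∧ (2 * P.o x ≤ P.o y ∨ a0 * c2 - a2 * c0 = 0))) :
    P.G 0 (kap d n0 n2 φ) := by
  subst h0 h1 h2
  have x0 := d_ne ox.ne'
  have hd : ∀ g, d g = d x * ((d x)⁻¹ • d) g := fun g => by simp [x0]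
  have hx : ((d x)⁻¹ • d) x = 1 := by simp [x0]
  have e1 := W3_scale hd 1
  have e2 := kap_scale hd 1
  simp only [one_mul] at e1 e2
  rw [e1, W3_det hx, ← mul_assoc, ← mul_pow, mul_comm φ] at hφ
  have o' : ∀ g, (nrm P x ox).o g = P.o g / P.o x := fun _ => rfl
  have ox' : (nrm P x ox).o x = 1 := div_self ox.ne'
  have oy' : 1 < (nrm P x ox).o y := (one_lt_div ox).2 oy
  have := est hx ox' oy' hφ a0 b0 c0 a2 b2 c2 (hc.imp (fun ⟨h, hρ⟩ => by
    have h := h.nrm ox fun e => by simp [e] at hφ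
    refine loc hx ox' oy' h.hom h.ne h.van h.nz h.inv ?_
    simp only [o', div_eq_iff ox.ne', div_le_iff₀ ox, lt_div_iff₀ ox, div_mul_cancel₀ _ ox.ne',
      zero_mul, one_mul]
    exact hρ) fun h => ⟨h.1, h.2.imp_left fun h => (le_div_iff₀ ox).2 h⟩)
  rw [e2]
  exact this.imp_right fun h => by
    have := mul_nonneg h ox.le
    rwa [o', div_mul_cancel₀ _ ox.ne'] at this

omit [CharZero K] in
lemma two_fn {P : Pl d} {u v : K} (hu : P.L 0 u) (hv : P.L 0 v) (h : W3 d 1 u v ≠ 0) :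
    (0 < P.o u ∧ P.o u < P.o v) ∨
      ∃ c, 0 < P.o v ∧ P.o v ≤ P.o u ∧ P.o v < P.o (u - algebraMap C K c * v) := by
  have u0 : u ≠ 0 := fun e => h (by simp [W3, e])
  have v0 : v ≠ 0 := fun e => h (by simp [W3, e])
  rcases lt_or_ge (P.o u) (P.o v) with h1 | h1
  · exact Or.inl ⟨hu.lt u0, h1⟩
  obtain ⟨c, hc⟩ := G.exR (P := P) (a := u / v) (G.of_le (by rw [o_div u0 v0]; linarith))
  refine Or.inr ⟨c, hv.lt v0, h1, ?_⟩
  have := L.mul hc (G.self v)
  rw [zero_add, show (u / v - algebraMap C K c) * v = u - algebraMap C K c * v by field_simp] at this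
  exact this.lt fun e => h (by rw [sub_eq_zero.1 e]; simp [W3]; ring)

omit [CharZero C] [CharZero K] in
lemma ab_tr (F : MvPolynomial (Fin 3) C) (ε s : C) :
    ab (ev F (lin 1 0 0) (lin s 1 0) (lin (ε * s ^ 2) (2 * ε * s) 1)) ε =
      (ab F ε).comp (Polynomial.X + Polynomial.C s) := by
  rw [Polynomial.comp_eq_aeval, ab, ab, map_ev, ev_ev]
  congr 1 <;> simp [ev_lin, map_ofNat] <;> ring

/-- A place at a finite point. -/
theorem fin [IsAlgClosed K] {P : Pl d} {ε s r : C}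
    (h : Dat d F n 1 x y (y - algebraMap C K ε * x ^ 2)) (hφ : φ ^ 3 * W3 d 1 x y = 1)
    (hx : P.R x s) (hy : P.R y r) (hs : r = ε * s ^ 2 → ε * s ≠ 0 →
      ab F ε ≠ 0 ∧ (ab F ε).rootMultiplicity s ≤ n) : P.G 0 (kap d 1 y φ) := by
  obtain ⟨u, rfl⟩ : ∃ u, x = algebraMap C K s + u := ⟨x - algebraMap C K s, by ring⟩
  obtain ⟨v, rfl⟩ : ∃ v, y = algebraMap C K r + algebraMap C K (2 * ε * s) * u + v :=
    ⟨y - algebraMap C K r - algebraMap C K (2 * ε * s) * u, by ring⟩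
  have hu : P.L 0 u := by simpa [R] using hx
  have hv : P.L 0 v := by
    convert L.sub hy (hu.mul0 (G.cst (2 * ε * s))) using 1
    ring
  have W0 : W3 d 1 u v ≠ 0 := fun e => by
    have : W3 d 1 (algebraMap C K s + u)
        (algebraMap C K r + algebraMap C K (2 * ε * s) * u + v) = W3 d 1 u v := by
      simp only [W3, map_add, Derivation.leibniz, Derivation.map_algebraMap, smul_eq_mul]
      simp
      ring
    rw [this, e] at hφ
    simp at hφ
  rw [show algebraMap C K r + algebraMap C K (2 * ε * s) * u + v -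
    algebraMap C K ε * (algebraMap C K s + u) ^ 2 = algebraMap C K (r - ε * s ^ 2) +
      (v - algebraMap C K ε * u ^ 2) by simp [map_ofNat]; ring] at h
  have Lq : ∀ {t : ℚ}, t < 2 * P.o u → P.L t (-(algebraMap C K ε * u ^ 2)) := fun ht =>
    ((G.cst ε).mul (G.self (u ^ 2))).neg.L (by simpa using ht)
  have hr : r - ε * s ^ 2 ≠ 0 → 0 < P.o u →
      P.o (algebraMap C K (r - ε * s ^ 2) + (v - algebraMap C K ε * u ^ 2)) = 0 := fun h1 h2 =>
    (R.unit (c := r - ε * s ^ 2) (by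
      rw [R, add_sub_cancel_left, sub_eq_add_neg]
      exact hv.add (Lq (by linarith))) h1).2
  rcases two_fn hu hv W0 with ⟨h1, h2⟩ | ⟨c, h1, h2, h3⟩
  · have v0 : v ≠ 0 := ne_zero (by linarith : P.o v ≠ 0)
    refine chart (a0 := 1) (b0 := 0) (c0 := 0) (a1 := s) (b1 := 1) (c1 := 0) (a2 := r)
      (b2 := 2 * ε * s) (c2 := 1) h1 h2 (by simp [af]) (by simp [af]) (by simp [af]) hφ
      (F := F) (n := n) (I0 := algebraMap C K (r - ε * s ^ 2) + (v - algebraMap C K ε * u ^ 2)) ?_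
    by_cases t0 : r - ε * s ^ 2 = 0
    swap
    · exact Or.inl ⟨h, Or.inl (hr t0 h1)⟩
    rw [t0, map_zero, zero_add] at h ⊢
    rcases lt_or_ge (P.o v) (2 * P.o u) with h3 | h3
    · exact Or.inl ⟨h, Or.inr (Or.inr (Or.inl
        ⟨by simpa [sub_eq_add_neg] using (o_add v0 (Lq h3)).2, h3.le⟩))⟩
    by_cases e0 : ε * s = 0
    · exact Or.inr ⟨by linear_combination 2 * e0, Or.inl h3⟩
    have h4 : P.o (v - algebraMap C K ε * u ^ 2) = 2 * P.o u := by
      refine le_antisymm (not_lt.1 fun h4 => ?_) (((G.of_le h3).sub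
        (((G.cst ε).mul (G.self (u ^ 2))).mono (by simp))).le h.nz)
      obtain ⟨A0, hA⟩ := hs (sub_eq_zero.1 t0) e0
      have h5 := Dat.nrm (a0 := 1) (b0 := 0) (c0 := 0) (a1 := s) (b1 := 1) (c1 := 0)
        (a2 := ε * s ^ 2) (b2 := 2 * ε * s) (c2 := 1) (y := v) h1 (by simp [Matrix.det_fin_three])
        (by simpa [af, sub_eq_zero.1 t0] using h)
      have := osc (P := nrm P u h1) (by simp [d_ne h1.ne']) (div_self h1.ne') h5.hom
        (left_ne_zero_of_mul e0) (by rwa [ab_tr, Ne, Polynomial.comp_X_add_C_eq_zero_iff]) h.pos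
        h5.inv ((lt_div_iff₀ h1).2 h4)
      rw [ab_tr, ← Polynomial.rootMultiplicity_eq_rootMultiplicity] at this
      omega
    exact Or.inl ⟨h, Or.inr (Or.inr (h3.eq_or_lt.imp (fun e => ⟨h4.trans e, e.ge⟩)
      fun e => ⟨h4, e⟩))⟩
  · refine chart (a0 := 1) (b0 := 0) (c0 := 0) (a1 := s) (b1 := c) (c1 := 1) (a2 := r)
      (b2 := 2 * ε * s * c + 1) (c2 := 2 * ε * s) h1 h3 (by simp [af]) (by simp [af])
      (by simp [af]; ring) hφ (Or.inl ⟨h, ?_⟩)
    by_cases t0 : r - ε * s ^ 2 = 0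
    · rw [t0, map_zero, zero_add, sub_eq_add_neg]
      exact Or.inr (Or.inl (o_add (ne_zero h1.ne') (Lq (by linarith))).2)
    · exact Or.inl (hr t0 (by linarith))

/-- The curvature is integral at every place. -/
theorem integral [IsAlgClosed K] (P : Pl d) {ε : C}
    (h : Dat d F n 1 x y (y - algebraMap C K ε * x ^ 2)) (hφ : φ ^ 3 * W3 d 1 x y = 1)
    (hs : ∀ s, ε * s ≠ 0 → ab F ε ≠ 0 ∧ (ab F ε).rootMultiplicity s ≤ n) :
    P.G 0 (kap d 1 y φ) := by
  have d1 : ∀ g, d g = 1 * d g := fun g => (one_mul _).symm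
  by_cases h1 : P.o x < 0 ∧ P.o x < P.o y
  · have x0 : x ≠ 0 := ne_zero h1.1.ne
    have e1 := W3_scale d1 x x⁻¹ 1 (y / x)
    have e2 := kap_scale d1 x x⁻¹ (y / x) φ
    rw [mul_inv_cancel₀ x0, mul_div_cancel₀ _ x0] at e1 e2
    rw [mul_one] at e1 e2
    rw [e1, ← mul_assoc, ← mul_pow, mul_comm φ] at hφ
    rw [e2]
    rcases two_fn (P := P) (u := x⁻¹) (v := y / x) (L.of_lt (by simpa using h1.1))
      (by simpa using (L.of_lt h1.2).div x) (fun e => by
        rw [show W3 d x⁻¹ 1 (y / x) = -W3 d 1 x⁻¹ (y / x) by simp only [W3]; ring, e] at hφ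
        simp at hφ) with ⟨h2, h3⟩ | ⟨c, h2, -, h3⟩
    · exact chart (a0 := 0) (b0 := 1) (c0 := 0) (a1 := 1) (b1 := 0) (c1 := 0) (a2 := 0)
        (b2 := 0) (c2 := 1) h2 h3 (by simp [af]) (by simp [af]) (by simp [af]) hφ
        (F := F) (n := n) (I0 := 0) (Or.inr (by simp))
    · exact chart (a0 := 0) (b0 := c) (c0 := 1) (a1 := 1) (b1 := 0) (c1 := 0) (a2 := 0)
        (b2 := 1) (c2 := 0) h2 h3 (by simp [af]) (by simp [af]) (by simp [af]) hφ
        (F := F) (n := n) (I0 := 0) (Or.inr (by simp))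
  rw [not_and_or, not_lt, not_lt] at h1
  rcases le_or_gt 0 (P.o y) with h2 | h2
  · obtain ⟨s, hx⟩ := (G.of_le (P := P) (s := 0) (a := x) (h1.elim id h2.trans)).exR
    obtain ⟨r, hy⟩ := (G.of_le h2).exR
    exact fin h hφ hx hy fun _ => hs s
  have y0 : y ≠ 0 := ne_zero h2.ne
  obtain ⟨s, hx⟩ := G.exR (P := P) (a := x / y) (by
    simpa using (G.of_le (P := P) (a := x) (h1.elim h2.le.trans id)).div y)
  have e1 := W3_scale d1 y 1 (x / y) y⁻¹
  have e2 := kap_scale d1 y 1 y⁻¹ (-φ)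
  rw [mul_inv_cancel₀ y0, mul_one] at e1 e2
  rw [mul_div_cancel₀ _ y0] at e1
  rw [← kap_swap, e2]
  refine fin (F := ev F (lin 0 0 1) (lin 0 1 0) (lin 1 0 0)) (n := n) (ε := ε) (r := 0)
    (Dat.scale d1 one_ne_zero y0 (Dat.lin (by simp [Matrix.det_fin_three]) ?_)) ?_ hx
    (R_zero.2 (L.of_lt (by simpa using h2))) fun e1 e2 => absurd e1.symm ?_
  · rw [show y ^ 2 * (y⁻¹ - algebraMap C K ε * (x / y) ^ 2) = y - algebraMap C K ε * x ^ 2 by
      field_simp]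
    simpa [ev_lin, y0, mul_div_cancel₀] using h
  · rw [mul_pow, mul_right_comm, ← e1]
    simp only [W3] at hφ ⊢
    linear_combination hφ
  · rw [pow_two, ← mul_assoc]
    exact mul_ne_zero e2 (right_ne_zero_of_mul e2)

end Pool.Agent.MP_249f74_an.H22
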