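import Pool.Agent.MP_249f74_an.H22.Hyp
import Pool.Agent.MP_249f74_an.H53.V3b

/-!
Finite classes for two cones with a common vertex space of codimension three.
-/

namespace Pool.Agent.MP_249f74_an.H22

open H17 (Der)
open H88 (cl rk subset_cl)
open H17.Cm (sp hat grad rf tg)
open H74 (cv)
open H90 (dv dv_dot)
open H32 (Mir)
open H53 (tvv)
open MvPolynomial Matrix Set

variable {k C Ω ι : Type} [Field k] [Algebra k ℝ] [Field C] [Algebra k C] [Field Ω] [Algebra C Ω]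
  [IsAlgClosed C] [CharZero C] [CharZero Ω]

/-- The normal form of a plane curve of lines. -/
lemma nf3 {N p : Fin 3 → Ω} (N0 : N ≠ 0) (h0 : N ⬝ᵥ p = 0) (h1 : ∀ θ : Der C Ω, N ⬝ᵥ dv p θ = 0)
    (hp : ∀ c : Fin 3 → C, cv Ω c ⬝ᵥ p = 0 → c = 0) : ∃ (t w : Ω) (d : Der C Ω), N 0 ≠ 0 ∧
      N = N 0 • ![1, t, w] ∧ d t = 1 ∧ w ∈ cl C {t} ∧ d (d w) ≠ 0 ∧ p 1 + d w * p 2 = 0 := by
  have p2 : p 2 ≠ 0 := fun e => one_ne_zero (congrFun (hp (Pi.single 2 1) (by
    rw [H74.cv_single, single_dotProduct, e, mul_zero])) 2)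
  have np : ¬∀ θ : Der C Ω, ∃ s : Ω, dv N θ = s • N := fun h => by
    obtain ⟨μ, c, rfl⟩ := H53.par_const h
    rw [smul_dotProduct, smul_eq_zero] at h0
    exact N0 (h0.elim (fun e => by simp [e]) fun e => by rw [hp c e]; ext; simp)
  have h2 : ∀ θ : Der C Ω, dv N θ ⬝ᵥ p = 0 := fun θ => by
    have := dv_dot N p θ
    rwa [h0, h1, map_zero, add_zero, eq_comm] at this
  simp only [dotProduct, Fin.sum_univ_three, H90.dv_apply] at h0 h2
  have n0 : N 0 ≠ 0 := fun e => np fun θ => by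
    have n1 : N 1 ≠ 0 := fun e1 => N0 (funext fun i => by
      fin_cases i
      exacts [e, e1, by simpa [e, e1, p2] using h0])
    refine ⟨θ (N 1) / N 1, funext fun i => ?_⟩
    have h3 := h2 θ
    rw [e] at h0 h3
    fin_cases i
    · simp [e]
    · simp [n1]
    · simp only [H90.dv_apply, Pi.smul_apply, smul_eq_mul, Fin.reduceFinMk, map_zero] at h3 ⊢
      rw [div_mul_eq_mul_div, eq_div_iff n1]
      exact mul_right_cancel₀ p2 (by linear_combination N 1 * h3 - θ (N 1) * h0)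
  obtain ⟨t, ht⟩ : ∃ t, N 1 = N 0 * t := ⟨N 1 / N 0, by field_simp⟩
  obtain ⟨w, hw⟩ : ∃ w, N 2 = N 0 * w := ⟨N 2 / N 0, by field_simp⟩
  have e : N = N 0 • ![1, t, w] := funext fun i => by fin_cases i <;> simp [ht, hw]
  have h3 : ∀ θ : Der C Ω, θ t * p 1 + θ w * p 2 = 0 := fun θ => by
    have := h2 θ
    rw [ht, hw] at h0 this
    simp only [Derivation.leibniz, smul_eq_mul] at this
    refine mul_left_cancel₀ (mul_ne_zero n0 n0) ?_
    linear_combination N 0 * this - θ (N 0) * h0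
  have h4 : ∀ θ : Der C Ω, θ t = 0 → θ w = 0 := fun θ h => by simpa [h, p2] using h3 θ
  obtain ⟨θ, hθ⟩ : ∃ θ : Der C Ω, θ t ≠ 0 := by
    by_contra! hn
    refine np fun θ => ⟨θ (N 0) / N 0, funext fun i => ?_⟩
    fin_cases i <;> simp [ht, hw, hn, h4, n0] <;> field_simp
  obtain ⟨d, hd⟩ : ∃ d : Der C Ω, d t = 1 := ⟨(θ t)⁻¹ • θ, by simp [hθ]⟩
  have h5 : w ∈ cl C {t} := H96.mem_cl_of_kil fun θ h => h4 θ (h t rfl)
  have h6 : p 1 + d w * p 2 = 0 := by simpa [hd] using h3 d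
  refine ⟨t, w, d, n0, e, hd, h5, fun h => ?_, h6⟩
  obtain ⟨c, hc⟩ := cst_cl (d := d) (hd ▸ one_ne_zero) _
    (H17.stab_cl (fun s hs => by rw [hs, hd]; exact one_mem _) h5) h
  exact one_ne_zero (congrFun (hp ![0, 1, c] (by
    simpa [dotProduct, Fin.sum_univ_three, ← hc] using h6)) 1)

/-- The pencil of lines through the contact point. -/
def kk (d : Der C Ω) (t w a b : Ω) : Fin 3 → Ω := a • ![1, t, w] + b • ![0, 1, d w]

variable [Fintype ι] [DecidableEq ι] {m m' : Mir k C ι} {B : Matrix (Fin 3) (Option ι) C}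
  {S : Matrix (Option ι) (Fin 3) C} {q v : ι → Ω} {d : Der C Ω} {t w μ a b a' b' : Ω}
  {H : MvPolynomial (ι ⊕ ι) C}

/-- A generic point with its tangent hyperplane in normal form. -/
structure DP (m : Mir k C ι) (B : Matrix (Fin 3) (Option ι) C) (q : ι → Ω) (d : Der C Ω)
    (t w μ : Ω) : Prop where
  on : m.On q
  mu : μ ≠ 0
  tv : tvv m.f q = (μ • ![1, t, w]) ᵥ* B.map (algebraMap C Ω)
  dt : d t = 1
  hw : w ∈ cl C {t}
  dd : d (d w) ≠ 0
  inc : ∀ a b, (kk d t w a b ᵥ* B.map (algebraMap C Ω)) none +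
    q ⬝ᵥ sp (kk d t w a b ᵥ* B.map (algebraMap C Ω)) = 0
  tq : t ∈ cl C (range q)

lemma ex_dp (hS : B * S = 1) (hq : m.On q)
    (h : ∀ Y : Option ι → C, B *ᵥ Y = 0 → m.f ∣ tg m.f ⬝ᵥ fun o => MvPolynomial.C (Y o)) :
    ∃ (d : Der C Ω) (t w μ : Ω), DP m B q d t w μ := by
  obtain ⟨N, hN⟩ : ∃ N, N = tvv m.f q ᵥ* S.map (algebraMap C Ω) := ⟨_, rfl⟩
  have e : tvv m.f q = N ᵥ* B.map (algebraMap C Ω) := by
    rw [hN, vecMul_vecMul, ← Matrix.map_mul]
    ext o
    have := (hq _).2 (h (Pi.single o 1 - (S * B) *ᵥ Pi.single o 1) (by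
      rw [mulVec_sub, mulVec_mulVec, ← Matrix.mul_assoc, hS, Matrix.one_mul, sub_self]))
    simpa [dotProduct, mul_sub, Pi.single_apply, apply_ite (algebraMap C Ω), sub_eq_zero, vecMul]
      using this
  have h0 : N ⬝ᵥ B.map (algebraMap C Ω) *ᵥ hat q = 0 := by rw [dotProduct_mulVec, ← e, H53.tvv_hat]
  obtain ⟨t, w, d, a1, a2, a3, a4, a5, a6⟩ := nf3 (C := C) (N := N)
    (fun h => hq.grad_ne (by rw [← H53.sp_tvv, e, h, zero_vecMul]; rfl)) h0
    (fun θ => by rw [H74.dv_mulVec, dotProduct_mulVec, ← e, H53.tvv_dv hq]) fun c hc => by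
      rw [dotProduct_mulVec, H53.cv_vecMul] at hc
      rw [← vecMul_one c, ← hS, ← vecMul_vecMul, H53.no_aff hq m.deg hc, zero_vecMul]
  refine ⟨d, t, w, N 0, hq, a1, a2 ▸ e, a3, a4, a5, fun a b => ?_, ?_⟩
  · rw [a2, smul_dotProduct, smul_eq_zero, or_iff_right a1] at h0
    rw [← H17.Cm.hat_dot, dotProduct_comm, ← dotProduct_mulVec, kk, add_dotProduct,
      smul_dotProduct, smul_dotProduct, h0]
    simp [dotProduct, Fin.sum_univ_three, a6]
  · have hm : ∀ i, N i ∈ cl C (range q) := fun i => hN ▸ sum_mem fun o _ => mul_mem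
      (H32.aeval_mem_cl (fun i => subset_cl _ (mem_range_self i)) _) (algebraMap_mem _ _)
    have : t = N 1 / N 0 := by rw [eq_div_iff a1, mul_comm]; simpa using (congrFun a2 1).symm
    exact this ▸ div_mem (hm 1) (hm 0)

omit [IsAlgClosed C] [CharZero C] [CharZero Ω] [DecidableEq ι] in
lemma DP.zero (h : DP m B q d t w μ) (hS : B * S = 1)
    (h0 : sp (kk d t w a b ᵥ* B.map (algebraMap C Ω)) = 0) : a = 0 ∧ b = 0 := by
  have h1 := row_zero hS h0 (h.inc a b)
  obtain rfl : a = 0 := by simpa [kk] using congrFun h1 0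
  exact ⟨rfl, by simpa [kk] using congrFun h1 1⟩

omit [IsAlgClosed C] [CharZero C] [DecidableEq ι] in
lemma DP.mem (h : DP m B q d t w μ) (ha : a ∈ cl C {t}) (hb : b ∈ cl C {t}) (i : Fin 3) :
    kk d t w a b i ∈ cl C {t} := by
  have ht : t ∈ cl C ({t} : Set Ω) := subset_cl _ rfl
  have hd := H17.stab_cl (δ := d) (fun s hs => by rw [hs, h.dt]; exact one_mem _) h.hw
  fin_cases i
  exacts [add_mem (mul_mem ha (one_mem _)) (mul_mem hb (zero_mem _)),
    add_mem (mul_mem ha ht) (mul_mem hb (one_mem _)), add_mem (mul_mem ha h.hw) (mul_mem hb hd)]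

omit [IsAlgClosed C] [CharZero C] [DecidableEq ι] in
lemma DP.mem' (h : DP m B q d t w μ) (ha : a ∈ cl C {t}) (hb : b ∈ cl C {t}) (o : Option ι) :
    (kk d t w a b ᵥ* B.map (algebraMap C Ω)) o ∈ cl C {t} :=
  sum_mem (t := Finset.univ) fun i _ =>
    mul_mem (h.mem ha hb i) (IntermediateField.algebraMap_mem _ (B i o))

omit [IsAlgClosed C] in
lemma DP.van (h : DP m B q d t w μ) (hS : B * S = 1) (hl : H65.Lin H) (ha : a ∈ cl C {t})
    (hb : b ∈ cl C {t}) (ha' : a' ∈ cl C {t}) (hb' : b' ∈ cl C {t}) (h0 : a * b' ≠ a' * b)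
    (hr : ((Fintype.card ι + Fintype.card ι : ℕ) : ℕ∞) ≤ rk C (range q ∪ range v) + 1)
    (he : ∀ u, u ⬝ᵥ sp (kk d t w a b ᵥ* B.map (algebraMap C Ω)) = 0 → H65.ev q u H = 0) :
    Van H (kk d t w a b ᵥ* B.map (algebraMap C Ω)) := by
  refine van_of_pen hl (h.mem' ha hb) (h.mem' ha' hb') (fun e => ?_) (fun c e => ?_) (h.inc a b)
    (h.inc a' b') h.tq h.on.rk.le hr he
  · obtain ⟨rfl, rfl⟩ := h.zero hS e
    simp at h0
  · obtain ⟨e1, e2⟩ := h.zero hS (a := a' - c * a) (b := b' - c * b) (by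
      rw [show kk d t w (a' - c * a) (b' - c * b) = kk d t w a' b' - c • kk d t w a b by
        simp only [kk]; module, sub_vecMul, smul_vecMul]
      exact sub_eq_zero.2 e)
    exact h0 (by linear_combination a * e2 - b * e1)

omit [IsAlgClosed C] [CharZero C] [CharZero Ω] [DecidableEq ι] in
lemma DP.nc (h : DP m B q d t w μ) (s ρ : Ω) (c : Fin 3 → C) :
    kk d t w s 1 ≠ fun i => ρ * algebraMap C Ω (c i) := fun e => by
  have e0 := congrFun e 0
  have e1 := congrFun e 1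
  have e2 := congrFun e 2
  simp [kk] at e0 e1 e2
  subst e0
  have d1 := congrArg d e1
  have d2 := congrArg d e2
  simp [h.dt] at d1 d2
  have k1 : ρ ^ 2 * algebraMap C Ω (c 0) = d ρ := by linear_combination ρ * d1 - d ρ * e1
  have k2 : ρ * d (d w) = 0 := by linear_combination ρ * d2 - d ρ * e2 - d w * k1
  exact h.dd (by
    linear_combination d (d w) * e1 + (algebraMap C Ω (c 1) - algebraMap C Ω (c 0) * t) * k2)

omit [IsAlgClosed C] [CharZero C] [CharZero Ω] in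
lemma DP.gr (h : DP m B q d t w μ) :
    grad m.f q = μ • sp (kk d t w 1 0 ᵥ* B.map (algebraMap C Ω)) := by
  rw [← H53.sp_tvv, h.tv, smul_vecMul, kk, one_smul, zero_smul, add_zero]; rfl

omit [IsAlgClosed C] [CharZero C] [CharZero Ω] in
lemma DP.nn (h : DP m B q d t w μ) :
    bf (B * H17.Cm.J ι C * Bᵀ) (kk d t w 1 0) (kk d t w 1 0) ≠ 0 := fun e => h.on.nn (by
  rw [h.gr, smul_dotProduct, dotProduct_smul, ← H53.dot_abs]
  exact smul_eq_zero_of_right _ (smul_eq_zero_of_right _ e))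

omit [IsAlgClosed C] in
/-- The reflection of a hyperplane of the complex. -/
lemma DP.step (h : DP m B q d t w μ) (hS : B * S = 1) (hl : H65.Lin H) (hI : H18.Iv m.f H)
    (hr : ((Fintype.card ι + Fintype.card ι : ℕ) : ℕ∞) ≤ rk C (range q ∪ range v) + 1)
    {s : Ω} (hs : s ∈ cl C {t}) (hv : Van H (kk d t w s 1 ᵥ* B.map (algebraMap C Ω))) {x : Ω}
    (hx : x = 2 * bf (B * H17.Cm.J ι C * Bᵀ) (kk d t w 1 0) (kk d t w s 1) /
      bf (B * H17.Cm.J ι C * Bᵀ) (kk d t w 1 0) (kk d t w 1 0)) :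
    Van H (kk d t w (s - x) 1 ᵥ* B.map (algebraMap C Ω)) := by
  rw [bf, bf, H53.dot_abs, H53.dot_abs] at hx
  have o := one_mem (cl C ({t} : Set Ω))
  have z := zero_mem (cl C ({t} : Set Ω))
  refine h.van hS hl (sub_mem hs (hx ▸ div_mem (mul_mem (ofNat_mem _ 2) (H32.dot_mem_cl
    (fun _ => h.mem' o z _) fun _ => h.mem' hs o _)) (H32.dot_mem_cl (fun _ => h.mem' o z _)
      fun _ => h.mem' o z _))) o o z (by simp) hr fun u hu => ?_
  rw [← hI Ω q u h.on.zero h.on.nn]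
  refine hv _ _ (h.inc s 1) ?_
  rw [H17.Cm.dot_rf_comm, ← hu, h.gr, H17.Cm.smul_rf h.mu, rf, ← hx,
    show kk d t w (s - x) 1 = kk d t w s 1 - x • kk d t w 1 0 by simp only [kk]; module,
    sub_vecMul, smul_vecMul]
  rfl

theorem two_of [IsAlgClosed Ω] {l : ι ⊕ ι → Ω} (hl : H42.Gen C l) : H18.TWO k C ι := by
  rintro m m' H hne ⟨b, hb, hV⟩ hH
  obtain ⟨S, hS⟩ : ∃ S : Matrix (Option ι) (Fin 3) C, Matrix.of b * S = 1 :=
    mulVec_surjective_iff_exists_right_inverse.1 (LinearMap.range_eq_top.1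
      (Submodule.eq_top_of_finrank_eq (S := LinearMap.range (Matrix.of b).mulVecLin)
        ((LinearIndependent.rank_matrix (M := Matrix.of b) hb).trans (by simp))))
  generalize hB : Matrix.of b = B at hS
  have hV' : ∀ Y, B *ᵥ Y = 0 → _ := fun Y h => hV Y fun a => by rw [← hB] at h; exact congrFun h a
  have ex : ∀ m : Mir k C ι, ∃ q : ι → Ω, m.On q ∧ ((Fintype.card ι + Fintype.card ι : ℕ) : ℕ∞) ≤
      rk C (range q ∪ range (H32.dir l)) + 1 := fun m => by
    obtain ⟨t, ht⟩ := Finset.card_pos.1 (zero_lt_two.trans_le (m.deg.trans (H32.card_pts m hl).ge))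
    exact ⟨_, H32.gen_on hl (H32.mem_pts.1 ht).2, Fintype.card_sum (α := ι) (β := ι) ▸
      (H32.gen_iff_rk.1 hl).trans (H32.rk_edge_le l t)⟩
  obtain ⟨q, hq, rq⟩ := ex m
  obtain ⟨y, hy, ry⟩ := ex m'
  obtain ⟨d, t, w, μ, h⟩ := ex_dp hS hq fun Y h => (hV' Y h).1
  obtain ⟨d', t', w', μ', h'⟩ := ex_dp hS hy fun Y h => (hV' Y h).2
  obtain ⟨F, n, F0, hom, hF⟩ := fam (Ω := Ω) hS hH.ne
  have k0 : ∀ (d : Der C Ω) t w, kk d t w 1 0 = ![1, t, w] := fun d t w => by simp [kk]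
  have dN : ∀ s, (s • kk d t w 1 0 + fun i => d (kk d t w 1 0 i)) = kk d t w s 1 := fun s => by
    ext i; fin_cases i <;> simp [kk, h.dt]
  have o := one_mem (cl C ({t'} : Set Ω))
  have z := zero_mem (cl C ({t'} : Set Ω))
  have v0 : aeval (kk d' t' w' 1 0) F = 0 := (hF _).2 (fun ρ c e => by
    rw [k0] at e
    have e0 : 1 = ρ * algebraMap C Ω (c 0) := congrFun e 0
    have e1 : t' = ρ * algebraMap C Ω (c 1) := congrFun e 1
    have d0 := congrArg d' e0
    have d1 := h'.dt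
    rw [e1] at d1
    simp only [Derivation.leibniz, Derivation.map_algebraMap, Derivation.map_one_eq_zero,
      smul_eq_mul] at d0 d1
    exact one_ne_zero (α := Ω) (by
      linear_combination -d1 + algebraMap C Ω (c 1) * d' ρ * e0 - algebraMap C Ω (c 1) * ρ * d0))
    (h'.van hS hH.lin o z z o (by simp) ry fun u hu => hH.tn Ω y u hy.zero hy.grad_ne (by
      rw [h'.gr, smul_dotProduct, dotProduct_comm, hu, smul_zero]))
  obtain ⟨a, lam, a1, a2, a3, a4⟩ := pcc_root' (d := d) (t := t) (e := B * H17.Cm.J ι C * Bᵀ) (by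
      rw [IsSymm, transpose_mul, transpose_mul, transpose_transpose, H17.Cm.J_symm.eq,
        Matrix.mul_assoc]) (H53.rk2 hq h.tv) (h.mem (one_mem _) (zero_mem _))
    (linearIndependent_rows_iff_isUnit (A := Matrix.of ![kk d t w 1 0,
      fun i => d (kk d t w 1 0 i), fun i => d (d (kk d t w 1 0 i))]).2 ((isUnit_iff_isUnit_det _).2
      (Ne.isUnit (by simpa [det_fin_three, kk, h.dt] using h.dd)))) h.nn F0 hom
    (fun s M hs hM M0 M1 => by
      obtain rfl := hM.trans (dN s)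
      have := (hF _).2 (h.nc _) (h.step hS hH.lin hH.iv rq (hs (h.dt ▸ one_mem _)) ((hF _).1
        (fun e => M0 ((H53.dot_abs B ..).trans (by simp [e]))) M1) rfl)
      rwa [show ∀ x, kk d t w s 1 - x • kk d t w 1 0 = kk d t w (s - x) 1 from fun x => by
        simp only [kk]; module]) h'.nn v0
  rw [k0] at a3 a4
  refine ((H53.fin3 (lam := lam) (fun c hc => by
    rw [← vecMul_one c, ← hS, ← vecMul_vecMul, hc, zero_vecMul]) a1 a2 hq h.tv ?_ hy h'.tv
    ?_).resolve_right fun e => hne e.1.symm).2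
  · rw [mulVec_smul, smul_dotProduct, dotProduct_smul]
    exact smul_eq_zero_of_right _ (smul_eq_zero_of_right _ a3)
  · simp only [mulVec_smul, smul_dotProduct, dotProduct_smul, smul_eq_mul, bf] at a4 ⊢
    linear_combination μ' * μ' * a4

/-- There is a generic edge. -/
lemma ex_gen (C κ : Type) [Field C] : ∃ l : κ → AlgebraicClosure (FractionRing (MvPolynomial κ C)),
    H42.Gen C l := ⟨fun i => algebraMap (FractionRing (MvPolynomial κ C)) _
      (algebraMap (MvPolynomial κ C) _ (X i)), H32.gen_iff.2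
    (((MvPolynomial.algebraicIndependent_X κ C).map'
      (f := IsScalarTower.toAlgHom C (MvPolynomial κ C) (FractionRing (MvPolynomial κ C)))
      (IsFractionRing.injective _ _)).map' (f := IsScalarTower.toAlgHom C _ _)
      (RingHom.injective _))⟩

/-- Cones with a common vertex space of codimension three. -/
theorem cls_two : H18.TWO k C ι :=
  have : CharZero (AlgebraicClosure (FractionRing (MvPolynomial (ι ⊕ ι) C))) :=
    algebraRat.charZero _
  (ex_gen C (ι ⊕ ι)).elim fun _ h => two_of h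

end Pool.Agent.MP_249f74_an.H22
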