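import Pool.Agent.MP_249f74_an.H22.Root
import Pool.Agent.MP_249f74_an.H18.Spec
import Pool.Agent.MP_249f74_an.H17.CmBer
import Pool.Agent.MP_249f74_an.H74.Gen

/-!
Hyperplanes all of whose lines belong to a given complex.
-/

namespace Pool.Agent.MP_249f74_an.H22

open H88 (cl rk subset_cl)
open H17.Cm (sp)
open H74 (cv lf)
open MvPolynomial Matrix Set

variable {C Ω ι : Type} [Field C] [Field Ω] [Algebra C Ω] [Fintype ι] [DecidableEq ι]
  {H : MvPolynomial (ι ⊕ ι) C}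

section Ring

variable {R R' : Type} [CommRing R] [CommRing R'] [Algebra C R] [Algebra C R']

/-- The projection to a hyperplane along a coordinate axis. -/
def pr (ν : ι → R) (c : R) (j : ι) (r : R) (x : ι → R) : ι → R :=
  x - (r * (c + x ⬝ᵥ ν)) • Pi.single j 1

/-- The value on a projected edge. -/
noncomputable def gam (H : MvPolynomial (ι ⊕ ι) C) (h : Option ι → R) (j : ι) (r : R)
    (x u : ι → R) : R := H65.ev (pr (sp h) (h none) j r x) (pr (sp h) 0 j r u) H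

lemma map_gam (φ : R →ₐ[C] R') (h : Option ι → R) (j : ι) (r : R) (x u : ι → R) :
    φ (gam H h j r x u) = gam H (φ ∘ h) j (φ r) (φ ∘ x) (φ ∘ u) := by
  rw [gam, gam, H65.ev, H65.ev, comp_aeval_apply]
  congr 2
  ext (i | i) <;> simp [pr, sp, dotProduct, Pi.single_apply, apply_ite φ]

end Ring

/-- All lines in the hyperplane belong to the complex. -/
def Van (H : MvPolynomial (ι ⊕ ι) C) (h : Option ι → Ω) : Prop :=
  ∀ x u : ι → Ω, h none + x ⬝ᵥ sp h = 0 → u ⬝ᵥ sp h = 0 → H65.ev x u H = 0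

variable {h g : Option ι → Ω} {j : ι} {ν x u q v : ι → Ω} {c t : Ω}

lemma pr_dot (h0 : ν j ≠ 0) (c : Ω) (x : ι → Ω) : c + pr ν c j (ν j)⁻¹ x ⬝ᵥ ν = 0 := by
  simp only [pr, sub_dotProduct, smul_dotProduct, single_dotProduct, smul_eq_mul]
  field_simp
  ring

lemma pr_eq (h0 : ν j ≠ 0) (h : c + x ⬝ᵥ ν = 0) (a : Ω) :
    pr ν c j (ν j)⁻¹ (x - a • Pi.single j 1) = x := by
  simp only [pr, sub_dotProduct, smul_dotProduct, single_dotProduct, smul_eq_mul]
  rw [sub_sub, ← add_smul, show a + (ν j)⁻¹ * (c + (x ⬝ᵥ ν - a * (1 * ν j))) = 0 by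
    field_simp; linear_combination h, zero_smul, sub_zero]

lemma Van.gam (hv : Van H h) (h0 : h (some j) ≠ 0) (x u : ι → Ω) :
    gam H h j (h (some j))⁻¹ x u = 0 :=
  hv _ _ (pr_dot (ν := sp h) h0 ..) ((zero_add _).symm.trans (pr_dot (ν := sp h) h0 ..))

lemma gam_eq (h0 : h (some j) ≠ 0) (hx : h none + x ⬝ᵥ sp h = 0) (hu : u ⬝ᵥ sp h = 0) (a b : Ω) :
    gam H h j (h (some j))⁻¹ (x - a • Pi.single j 1) (u - b • Pi.single j 1) = H65.ev x u H := by
  have e1 := pr_eq (ν := sp h) h0 hx a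
  have e2 := pr_eq (ν := sp h) (c := 0) h0 ((zero_add _).trans hu) b
  rw [gam]
  congr 2

lemma van_of_const [CharZero C] (h0 : h (some j) ≠ 0)
    (hv : ∀ x u : ι → C, gam H h j (h (some j))⁻¹ (cv Ω x) (cv Ω u) = 0) : Van H h := by
  have key : ∀ z : ι ⊕ ι → Ω, eval z (gam H (MvPolynomial.C ∘ h) j (MvPolynomial.C (h (some j))⁻¹)
      (fun i => X (.inl i)) fun i => X (.inr i)) =
      gam H h j (h (some j))⁻¹ (fun i => z (.inl i)) fun i => z (.inr i) := fun z => by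
    have := map_gam (H := H) ((aeval z : MvPolynomial (ι ⊕ ι) Ω →ₐ[Ω] Ω).restrictScalars C)
      (MvPolynomial.C ∘ h) j (MvPolynomial.C (h (some j))⁻¹) (fun i => X (.inl i))
      fun i => X (.inr i)
    simpa [Function.comp_def] using this
  have P0 := MvPolynomial.funext_set (q := 0) (fun _ => range (algebraMap C Ω))
    (fun _ => infinite_range_of_injective (algebraMap C Ω).injective) fun z hz => by
      choose a ha using fun i => hz i trivial
      rw [key z, map_zero, ← hv (fun i => a (.inl i)) fun i => a (.inr i)]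
      congr 1 <;> ext i <;> simp [ha]
  intro x u hx hu
  have := key (Sum.elim x u)
  rw [P0, map_zero] at this
  rw [← gam_eq h0 hx hu 0 0, zero_smul, sub_zero, sub_zero]
  exact this.symm

/-- A generic line of the hyperplane decides. -/
lemma van_of_rk (hh : ∀ o, h o ∈ cl C {t}) (h0 : h (some j) ≠ 0) (hx : h none + x ⬝ᵥ sp h = 0)
    (hu : u ⬝ᵥ sp h = 0) (he : H65.ev x u H = 0)
    (hr : ((Fintype.card ι + Fintype.card ι : ℕ) : ℕ∞) ≤ rk C (insert t (range x ∪ range u)) + 1) :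
    Van H h := by
  let J := {i // i ≠ j}
  let ex : ∀ {R : Type} [Zero R], (J → R) → ι → R := fun y i => if e : i = j then 0 else y ⟨i, e⟩
  have hex : ∀ x : ι → Ω, ex (fun i : J => x i) = x - x j • Pi.single j 1 := fun x => by
    ext i
    by_cases e : i = j <;> simp [ex, e]
  let rs : (ι → Ω) → (ι → Ω) → J ⊕ J → Ω := fun x u => Sum.elim (fun i => x i) fun i => u i
  let h' : Option ι → cl C ({t} : Set Ω) := fun o => ⟨h o, hh o⟩
  have key : ∀ x u, h none + x ⬝ᵥ sp h = 0 → u ⬝ᵥ sp h = 0 →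
      aeval (rs x u) (gam H (MvPolynomial.C ∘ h') j (MvPolynomial.C (h' (some j))⁻¹)
        (ex fun i => X (.inl i)) (ex fun i => X (.inr i))) = H65.ev x u H := fun x u hx hu => by
    refine (map_gam ((aeval (rs x u) : MvPolynomial (J ⊕ J) (cl C ({t} : Set Ω)) →ₐ[_]
      Ω).restrictScalars C) ..).trans ?_
    rw [← gam_eq h0 hx hu (x j) (u j), ← hex, ← hex]
    congr 1
    · ext o; simp [h']
    · simp [h']
    · ext i; by_cases e : i = j <;> simp [ex, e, rs]
    · ext i; by_cases e : i = j <;> simp [ex, e, rs]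
  let y : (J ⊕ J) ⊕ Unit → Ω := Sum.elim (rs x u) fun _ => t
  have ht : t ∈ cl C (range y) := subset_cl _ ⟨.inr (), rfl⟩
  have hh' := fun o => H17.cl_le (S := range y) (singleton_subset_iff.2 ht) (hh o)
  have mem : ∀ (c : Ω) (z : ι → Ω), c ∈ cl C (range y) → c + z ⬝ᵥ sp h = 0 →
      (∀ i : J, z i ∈ cl C (range y)) → ∀ i, z i ∈ cl C (range y) := fun c z hc h1 h2 i => by
    have h3 : ∀ i, ex (fun i : J => z i) i ∈ cl C (range y) := fun i => by
      simp only [ex]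
      split_ifs
      exacts [zero_mem _, h2 ⟨i, ‹_›⟩]
    rw [← pr_eq (ν := sp h) h0 h1 (z j), ← hex]
    refine sub_mem (h3 i) (mul_mem (mul_mem (inv_mem (hh' _)) (add_mem hc
      (H32.dot_mem_cl h3 fun _ => hh' _))) ?_)
    rw [Pi.single_apply]
    split_ifs
    exacts [one_mem _, zero_mem _]
  have hy : AlgebraicIndependent C y := by
    refine H32.gen_iff.1 (H32.gen_iff_rk.2 ?_)
    have h1 : rk C (insert t (range x ∪ range u)) ≤ rk C (range y) := H88.rk_le (by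
      rintro _ (rfl | ⟨i, rfl⟩ | ⟨i, rfl⟩)
      · exact ht
      · exact mem _ _ (hh' _) hx (fun i => subset_cl _ ⟨.inl (.inl i), rfl⟩) i
      · exact mem 0 _ (zero_mem _) ((zero_add _).trans hu)
          (fun i => subset_cl _ ⟨.inl (.inr i), rfl⟩) i)
    have h2 : Fintype.card ι = Fintype.card J + 1 := by
      have : 0 < Fintype.card ι := Fintype.card_pos_iff.2 ⟨j⟩
      simp [J]
      omega
    refine (ENat.add_le_add_iff_right ENat.one_ne_top).1 (le_trans ?_ (hr.trans (by gcongr)))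
    simp only [Fintype.card_sum, Fintype.card_unit, h2]
    norm_cast
    omega
  have h1 := (AlgebraicIndependent.sumElim_iff.1 hy).2.subalgebraAlgebraicClosure
  rw [range_const] at h1
  have h2 : AlgebraicIndependent (cl C ({t} : Set Ω)) (rs x u) := h1
  have h3 := algebraicIndependent_iff.1 h2 _ ((key x u hx hu).trans he)
  intro x' u' hx' hu'
  rw [← key x' u' hx' hu', h3, map_zero]

/-- The lines through a generic point of a generic subspace of codimension two decide. -/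
lemma van_of_pen [CharZero C] (hl : H65.Lin H) (hh : ∀ o, h o ∈ cl C {t})
    (hg : ∀ o, g o ∈ cl C {t}) (h0 : sp h ≠ 0) (hp : ∀ c : Ω, sp g ≠ c • sp h)
    (hq : h none + q ⬝ᵥ sp h = 0) (gq : g none + q ⬝ᵥ sp g = 0) (ht : t ∈ cl C (range q))
    (r1 : rk C (range q) + 1 ≤ Fintype.card ι)
    (r2 : ((Fintype.card ι + Fintype.card ι : ℕ) : ℕ∞) ≤ rk C (range q ∪ range v) + 1)
    (he : ∀ u, u ⬝ᵥ sp h = 0 → H65.ev q u H = 0) : Van H h := by
  obtain ⟨j, hj⟩ := Function.ne_iff.1 h0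
  obtain ⟨τ, hτ⟩ : ∃ τ, τ = v ⬝ᵥ sp h := ⟨_, rfl⟩
  obtain ⟨u, hu⟩ : ∃ u, u = pr (sp h) 0 j (sp h j)⁻¹ v := ⟨_, rfl⟩
  have h1 : u ⬝ᵥ sp h = 0 := by simpa [hu] using pr_dot hj 0 v
  have h2 : u ⬝ᵥ sp g ≠ 0 := fun e => by
    have k := fun {a} (ha : a ∈ cl C {t}) => H17.cl_le (singleton_subset_iff.2 ht) ha
    have := H32.rk_lin (S := range q) (N := sp g - ((sp h j)⁻¹ * sp g j) • sp h) (u := v) (c := 0)
      (fun i => sub_mem (k (hg _)) (mul_mem (mul_mem (inv_mem (k (hh _))) (k (hg _))) (k (hh _))))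
      (zero_mem _) (sub_ne_zero.2 (hp _)) (by
        rw [← e, hu]
        simp only [pr, sub_dotProduct, smul_dotProduct, single_dotProduct, smul_eq_mul,
          dotProduct_comm v]
        ring)
    have h3 := add_le_add_left (r2.trans this) 1
    rw [add_right_comm (rk C _)] at h3
    have h4 := h3.trans (add_le_add_left r1 _)
    norm_cast at h4
    omega
  refine van_of_rk (x := q - τ • u) (u := u) hh hj (by
    rw [sub_dotProduct, smul_dotProduct, h1, smul_zero, sub_zero, hq]) h1 ?_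
    (r2.trans (add_le_add_left (H88.rk_le ?_) 1))
  · rw [← hl.tr _ _ τ, ← he u h1]
    congr 2
    ext i
    simp
  · generalize hS : insert t (range (q - τ • u) ∪ range u) = S
    have k := fun {a} (ha : a ∈ cl C {t}) => H17.cl_le (S := S) (singleton_subset_iff.2
      (subset_cl _ (hS ▸ mem_insert ..))) ha
    have kx : ∀ i, (q - τ • u) i ∈ cl C S := fun i => subset_cl _ (hS ▸ .inr (.inl ⟨i, rfl⟩))
    have ku : ∀ i, u i ∈ cl C S := fun i => subset_cl _ (hS ▸ .inr (.inr ⟨i, rfl⟩))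
    have kt : τ ∈ cl C S := by
      have e : τ = -(g none + (q - τ • u) ⬝ᵥ sp g) / (u ⬝ᵥ sp g) := by
        rw [eq_div_iff h2, sub_dotProduct, smul_dotProduct, smul_eq_mul]
        linear_combination gq
      rw [e]
      exact div_mem (neg_mem (add_mem (k (hg _)) (H32.dot_mem_cl kx fun _ => k (hg _))))
        (H32.dot_mem_cl ku fun _ => k (hg _))
    rintro _ (⟨i, rfl⟩ | ⟨i, rfl⟩)
    · simpa using add_mem (kx i) (mul_mem kt (ku i))
    · have e : v i = u i + (sp h j)⁻¹ * τ * (Pi.single j 1 : ι → Ω) i := by simp [hu, hτ, pr]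
      rw [e]
      refine add_mem (ku i) (mul_mem (mul_mem (inv_mem (k (hh _))) kt) ?_)
      rw [Pi.single_apply]
      split_ifs
      exacts [one_mem _, zero_mem _]

/-- Clearing denominators. -/
lemma clr {σ κ : Type} {n : MvPolynomial σ C} {y : κ → MvPolynomial σ C}
    (hn : n.IsHomogeneous 1) (hy : ∀ i, (y i).IsHomogeneous 1) (G : MvPolynomial κ C) :
    ∃ (D : ℕ) (P : MvPolynomial σ C), P.IsHomogeneous D ∧ ∀ (A : Type) [Field A] [Algebra C A]
      (K : σ → A), aeval K n ≠ 0 →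
        aeval K P = aeval K n ^ D * aeval (fun i => aeval K (y i) / aeval K n) G := by
  induction G using MvPolynomial.induction_on with
  | C a => exact ⟨0, MvPolynomial.C a, isHomogeneous_C _ _, fun A _ _ K _ => by simp⟩
  | add p q hp hq =>
    obtain ⟨D, P, h1, h2⟩ := hp
    obtain ⟨E, Q, h3, h4⟩ := hq
    refine ⟨D + E, P * n ^ E + n ^ D * Q, .add (by simpa using h1.mul (hn.pow E))
      (by simpa using (hn.pow D).mul h3), fun A _ _ K h0 => ?_⟩
    simp only [map_add, map_mul, map_pow, h2 A K h0, h4 A K h0]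
    ring
  | mul_X p i hp =>
    obtain ⟨D, P, h1, h2⟩ := hp
    refine ⟨D + 1, P * y i, h1.mul (hy i), fun A _ _ K h0 => ?_⟩
    simp only [map_mul, h2 A K h0, aeval_X]
    field_simp
    ring

/-- The curve in the zero set of a family of forms. -/
lemma hull [IsAlgClosed C] [CharZero C] [CharZero Ω] {S : Set (MvPolynomial (Fin 3) C)}
    (hS : ∀ P ∈ S, ∃ D, P.IsHomogeneous D) {P0 : MvPolynomial (Fin 3) C} (h0 : P0 ∈ S)
    (h1 : P0 ≠ 0) : ∃ (F : MvPolynomial (Fin 3) C) (n : ℕ), F ≠ 0 ∧ F.IsHomogeneous n ∧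
      (∀ P ∈ S, F ∣ P) ∧ ∀ K : Fin 3 → Ω, (∀ (μ : Ω) (c : Fin 3 → C),
        K ≠ fun i => μ * algebraMap C Ω (c i)) → (∀ P ∈ S, aeval K P = 0) → aeval K F = 0 := by
  obtain ⟨Q, ⟨F, rfl, hF⟩, hm⟩ := wellFounded_dvdNotUnit.has_min
    {Q | ∃ F, P0 = F * Q ∧ ∀ P ∈ S, F ∣ P} ⟨P0, 1, (one_mul _).symm, fun _ _ => one_dvd _⟩
  obtain ⟨D, hD⟩ := hS _ h0
  obtain ⟨n, hn⟩ := hom_of_mul hD h1
  refine ⟨F, n, left_ne_zero_of_mul h1, hn, hF, fun K hK hP => by_contra fun F0 => ?_⟩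
  have hy := gen_cone hK
  have e : ∀ {P : MvPolynomial (Fin 3) C} {m : ℕ}, P.IsHomogeneous m → (aeval (fun i =>
      RatFunc.X * algebraMap Ω (RatFunc Ω) (K i)) P = 0 ↔ aeval K P = 0) := fun {P m} hP => by
    have := map_ev (F := P) (IsScalarTower.toAlgHom C Ω (RatFunc Ω)) (K 0) (K 1) (K 2)
    rw [← ev_vec, ev_smul hP, ← ev_vec P K]
    simp only [IsScalarTower.coe_toAlgHom'] at this
    rw [← this]
    simp [RatFunc.X_ne_zero]
  generalize (fun i => RatFunc.X * algebraMap Ω (RatFunc Ω) (K i)) = y at hy e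
  have k : ∀ P', F * P' ∈ S → aeval y P' = 0 := fun P' h => by
    obtain ⟨m, hm⟩ := hS _ h
    exact (mul_eq_zero.1 ((map_mul ..).symm.trans ((e hm).2 (hP _ h)))).resolve_left
      fun h => F0 ((e hn).1 h)
  obtain ⟨π, p1, ⟨Q, rfl⟩, p3⟩ := H32.exists_prime (right_ne_zero_of_mul h1) (k _ h0)
  refine hm Q ⟨F * π, (mul_assoc ..).symm, fun P h => ?_⟩ ⟨fun e => h1 (by simp [e]), π,
    p1.not_isUnit, mul_comm ..⟩
  obtain ⟨P', rfl⟩ := hF P h
  exact mul_dvd_mul_left F (H88.dvd_of_gen hy p1.irreducible p3 (k _ h))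

variable {B : Matrix (Fin 3) (Option ι) C} {S : Matrix (Option ι) (Fin 3) C}

omit [DecidableEq ι] in
lemma row_inj (hS : B * S = 1) {K : Fin 3 → Ω} :
    K ᵥ* B.map (algebraMap C Ω) ᵥ* S.map (algebraMap C Ω) = K := by
  rw [vecMul_vecMul, ← Matrix.map_mul, hS, Matrix.map_one _ (map_zero _) (map_one _), vecMul_one]

omit [DecidableEq ι] in
lemma row_zero (hS : B * S = 1) {K : Fin 3 → Ω} (h0 : sp (K ᵥ* B.map (algebraMap C Ω)) = 0)
    (h1 : (K ᵥ* B.map (algebraMap C Ω)) none + x ⬝ᵥ sp (K ᵥ* B.map (algebraMap C Ω)) = 0) :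
    K = 0 := by
  have : K ᵥ* B.map (algebraMap C Ω) = 0 := funext fun o => by
    cases o
    · simpa [h0] using h1
    · exact congrFun h0 _
  rw [← row_inj (K := K) hS, this, zero_vecMul]

/-- The hyperplanes of a net whose lines belong to the complex form a curve. -/
theorem fam [IsAlgClosed C] [CharZero C] [CharZero Ω] (hS : B * S = 1) (H0 : H ≠ 0) :
    ∃ (F : MvPolynomial (Fin 3) C) (n : ℕ), F ≠ 0 ∧ F.IsHomogeneous n ∧ ∀ K : Fin 3 → Ω,
      (sp (K ᵥ* B.map (algebraMap C Ω)) ≠ 0 → aeval K F = 0 →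
        Van H (K ᵥ* B.map (algebraMap C Ω))) ∧
      ((∀ (μ : Ω) (c : Fin 3 → C), K ≠ fun i => μ * algebraMap C Ω (c i)) →
        Van H (K ᵥ* B.map (algebraMap C Ω)) → aeval K F = 0) := by
  have ex : ∀ (j : ι) (x u : ι → C), ∃ P : MvPolynomial (Fin 3) C, (∃ D, P.IsHomogeneous D) ∧
      ∀ (A : Type) [Field A] [Algebra C A] (K : Fin 3 → A) (h : Option ι → A),
        h = K ᵥ* B.map (algebraMap C A) → (aeval K P = 0 ↔ h (some j) = 0 ∨
          gam H h j (h (some j))⁻¹ (cv A x) (cv A u) = 0) := fun j x u => by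
    let Y : ι ⊕ ι → Option ι → C := Sum.elim
      (fun i => x i • Pi.single (some j) 1 - (Pi.single j 1 : ι → C) i • H17.Cm.hat x)
      fun i => u i • Pi.single (some j) 1 - (Pi.single j 1 : ι → C) i • H17.Cm.vec u
    obtain ⟨D, P, h1, h2⟩ := clr (H74.lf_hom (B *ᵥ Pi.single (some j) 1))
      (fun i => H74.lf_hom (B *ᵥ Y i)) H
    refine ⟨lf (B *ᵥ Pi.single (some j) 1) * P, ⟨_, (H74.lf_hom _).mul h1⟩, fun A _ _ K h e => ?_⟩
    have k : ∀ Z, aeval K (lf (B *ᵥ Z)) = cv A Z ⬝ᵥ h := fun Z => by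
      rw [H74.aeval_lf, ← H74.cv_mulVec, dotProduct_comm, dotProduct_mulVec, e, dotProduct_comm]
    have k0 : aeval K (lf (B *ᵥ Pi.single (some j) 1)) = h (some j) := by
      rw [k, H74.cv_single, single_dotProduct, one_mul]
    rw [map_mul, mul_eq_zero, k0]
    refine or_congr_right' fun h0 => ?_
    rw [h2 A K (k0 ▸ h0), k0, mul_eq_zero_iff_left (pow_ne_zero _ h0), gam, H65.ev]
    refine Eq.congr_left ?_
    congr 2
    ext (i | i) <;> simp only [k, Y, Sum.elim_inl, Sum.elim_inr, H74.cv_sub, H74.cv_smul,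
      H74.cv_single, sub_dotProduct, smul_dotProduct, single_dotProduct]
    · rw [show cv A (H17.Cm.hat x) = H17.Cm.hat (cv A x) by ext (_ | _) <;> simp [H17.Cm.hat],
        H17.Cm.hat_dot]
      simp [pr, Pi.single_apply]
      split_ifs <;> field_simp <;> ring
    · rw [show cv A (H17.Cm.vec u) = H17.Cm.vec (cv A u) by ext (_ | _) <;> simp [H17.Cm.vec],
        H17.Cm.vec_dot]
      simp [pr, Pi.single_apply]
      split_ifs <;> field_simp <;> ring
  choose P h1 h2 using ex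
  have van : ∀ (A : Type) [Field A] [Algebra C A] (K : Fin 3 → A),
      sp (K ᵥ* B.map (algebraMap C A)) ≠ 0 → (∀ j x u, aeval K (P j x u) = 0) →
        Van H (K ᵥ* B.map (algebraMap C A)) := fun A _ _ K h0 h => by
    obtain ⟨j, hj⟩ := Function.ne_iff.1 h0
    exact van_of_const hj fun x u => ((h2 j x u A K _ rfl).1 (h j x u)).resolve_left hj
  obtain ⟨j, x, u, h3⟩ : ∃ j x u, P j x u ≠ 0 := by
    by_contra! hn
    refine H0 (MvPolynomial.funext fun z => ?_)
    obtain ⟨K, K0, hK⟩ := (exists_mulVec_eq_zero_iff (M := Matrix.of ![B *ᵥ H17.Cm.hat (H32.pos z),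
      B *ᵥ H17.Cm.vec (H32.dir z), 0])).2 (det_eq_zero_of_row_eq_zero 2 fun _ => rfl)
    have k1 : B *ᵥ H17.Cm.hat (H32.pos z) ⬝ᵥ K = 0 := congrFun hK 0
    have k2 : B *ᵥ H17.Cm.vec (H32.dir z) ⬝ᵥ K = 0 := congrFun hK 1
    rw [dotProduct_comm, dotProduct_mulVec, dotProduct_comm] at k1 k2
    rw [H17.Cm.hat_dot] at k1
    rw [H17.Cm.vec_dot] at k2
    have := van C K (fun e => K0 (row_zero hS e k1)) (fun j x u => by simp [hn]) _ _ k1 k2
    rw [← H18.ev_eq] at this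
    simpa [H42.ev] using this
  obtain ⟨F, n, a1, a2, a3, a4⟩ := hull (Ω := Ω) (S := {Q | ∃ j x u, P j x u = Q})
    (by rintro _ ⟨j, x, u, rfl⟩; exact h1 j x u) ⟨j, x, u, rfl⟩ h3
  refine ⟨F, n, a1, a2, fun K => ⟨fun h0 h => van Ω K h0 fun j x u => ?_, fun hK h => a4 K hK ?_⟩⟩
  · obtain ⟨Q, hQ⟩ := a3 _ ⟨j, x, u, rfl⟩
    rw [hQ, map_mul, h, zero_mul]
  · rintro _ ⟨j, x, u, rfl⟩
    exact (h2 j x u Ω K _ rfl).2 (or_iff_not_imp_left.2 fun h0 => h.gam h0 ..)

end Pool.Agent.MP_249f74_an.H22
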