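import Pool.Agent.MP_249f74_an.H22.Loc

/-!
The affine curvature of the curve dual to a curve.
-/

namespace Pool.Agent.MP_249f74_an.H22

open H17 (Der)
open H53 H53.Pl

variable {C K : Type} [Field C] [Field K] [Algebra C K]

/-- The Wronskian of two functions. -/
def W2 (d : Der C K) (f g : K) : K := f * d g - g * d f

/-- The Wronskian of three functions. -/
def W3 (d : Der C K) (f g h : K) : K :=
  f * (d g * d (d h) - d h * d (d g)) - g * (d f * d (d h) - d h * d (d f)) +
    h * (d f * d (d g) - d g * d (d f))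

/-- The affine curvature, when `φ ^ 3` is the inverse of the Wronskian of the curve. -/
def kap (d : Der C K) (f g φ : K) : K := φ ^ 3 * W3 d f g (W2 d f g * φ)

variable {d D : Der C K} {l f g h x y φ : K}

lemma W2_scale (hd : ∀ g, d g = l * D g) (μ f g : K) :
    W2 d (μ * f) (μ * g) = μ ^ 2 * l * W2 D f g := by
  simp only [W2, hd, Derivation.leibniz, smul_eq_mul]; ring

lemma W3_scale (hd : ∀ g, d g = l * D g) (μ f g h : K) :
    W3 d (μ * f) (μ * g) (μ * h) = (μ * l) ^ 3 * W3 D f g h := by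
  simp only [W3, hd, Derivation.leibniz, smul_eq_mul, map_add]; ring

lemma kap_scale (hd : ∀ g, d g = l * D g) (μ f g φ : K) :
    kap d (μ * f) (μ * g) φ = kap D f g (μ * l * φ) := by
  rw [kap, kap, W2_scale hd, show μ ^ 2 * l * W2 D f g * φ = μ * (W2 D f g * (μ * l * φ)) by ring,
    W3_scale hd]
  ring

lemma kap_swap (d : Der C K) (f g φ : K) : kap d g f (-φ) = kap d f g φ := by
  rw [kap, kap, show W2 d g f * -φ = W2 d f g * φ by simp only [W2]; ring]
  simp only [W3]; ring

/-- An affine function of two functions. -/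
def af (a b c : C) (x y : K) : K :=
  algebraMap C K a + algebraMap C K b * x + algebraMap C K c * y

lemma d_af (d : Der C K) (a b c : C) (x y : K) :
    d (af a b c x y) = algebraMap C K b * d x + algebraMap C K c * d y := by
  simp [af]

lemma W2_af (hx : D x = 1) (a b c a' b' c' : C) : W2 D (af a b c x y) (af a' b' c' x y) =
    algebraMap C K (a * b' - a' * b) + algebraMap C K (a * c' - a' * c) * D y +
      algebraMap C K (b * c' - b' * c) * W2 D x y := by
  simp only [W2, d_af, hx]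
  simp only [af, map_sub, map_mul]
  ring

lemma W3_af (a b c a' b' c' : C) (h : K) : W3 D (af a b c x y) (af a' b' c' x y) h =
    algebraMap C K (a * b' - a' * b) * W3 D 1 x h + algebraMap C K (a * c' - a' * c) * W3 D 1 y h +
      algebraMap C K (b * c' - b' * c) * W3 D x y h := by
  simp only [W3, d_af, map_add, Derivation.leibniz, Derivation.map_algebraMap,
    Derivation.map_one_eq_zero, map_zero, smul_eq_mul]
  simp only [af, map_sub, map_mul]
  ring

lemma W3_det (hx : D x = 1) (a0 b0 c0 a1 b1 c1 a2 b2 c2 : C) :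
    W3 D (af a0 b0 c0 x y) (af a1 b1 c1 x y) (af a2 b2 c2 x y) =
      algebraMap C K (Matrix.det !![a0, b0, c0; a1, b1, c1; a2, b2, c2]) * D (D y) := by
  simp only [W3, d_af, map_add, Derivation.leibniz, Derivation.map_algebraMap, hx,
    Derivation.map_one_eq_zero, smul_eq_mul]
  simp [af, Matrix.det_fin_three]
  ring

section Est

variable [CharZero C] {P : Pl D} {a b c : ℚ}

lemma G_W2 (hx : D x = 1) (ox : P.o x = 1) (hf : P.G a f) (hg : P.G b g) :
    P.G (a + b - 1) (W2 D f g) :=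
  ((hf.mul (G_D hx ox hg)).mono (by linarith)).sub ((hg.mul (G_D hx ox hf)).mono (by linarith))

lemma G_W3 (hx : D x = 1) (ox : P.o x = 1) (hf : P.G a f) (hg : P.G b g) (hh : P.G c h) :
    P.G (a + b + c - 3) (W3 D f g h) := by
  have f1 := G_D hx ox hf
  have g1 := G_D hx ox hg
  have h1 := G_D hx ox hh
  have f2 := G_D hx ox f1
  have g2 := G_D hx ox g1
  have h2 := G_D hx ox h1
  exact (((hf.mul (((g1.mul h2).mono (t := b + c - 3) (by linarith)).sub
    ((h1.mul g2).mono (by linarith)))).mono (by linarith)).sub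
    ((hg.mul (((f1.mul h2).mono (t := a + c - 3) (by linarith)).sub
    ((h1.mul f2).mono (by linarith)))).mono (by linarith))).add
    ((hh.mul (((f1.mul g2).mono (t := a + b - 3) (by linarith)).sub
    ((g1.mul f2).mono (by linarith)))).mono (by linarith))

/-- Integral together with two derivatives. -/
def S2 (P : Pl D) (f : K) : Prop := P.G 0 f ∧ P.G 0 (D f) ∧ P.G 0 (D (D f))

lemma S2.add (hf : S2 P f) (hg : S2 P g) : S2 P (f + g) := by
  simp only [S2, map_add]
  exact ⟨hf.1.add hg.1, hf.2.1.add hg.2.1, hf.2.2.add hg.2.2⟩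

lemma S2.sub (hf : S2 P f) (hg : S2 P g) : S2 P (f - g) := by
  simp only [S2, map_sub]
  exact ⟨hf.1.sub hg.1, hf.2.1.sub hg.2.1, hf.2.2.sub hg.2.2⟩

lemma S2.mul (hf : S2 P f) (hg : S2 P g) : S2 P (f * g) := by
  simp only [S2, Derivation.leibniz, map_add, smul_eq_mul]
  exact ⟨hf.1.mul0 hg.1, (hf.1.mul0 hg.2.1).add (hg.1.mul0 hf.2.1),
    ((hf.1.mul0 hg.2.2).add (hg.2.1.mul0 hf.2.1)).add
      ((hg.1.mul0 hf.2.2).add (hf.2.1.mul0 hg.2.1))⟩

lemma S2.cst (c : C) : S2 P (algebraMap C K c) := ⟨G.cst c, by simpa using G.zero,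
  by simpa using G.zero⟩

lemma S2.W3 (hf : S2 P f) (hg : S2 P g) (hh : S2 P h) : P.G 0 (W3 D f g h) :=
  ((hf.1.mul0 ((hg.2.1.mul0 hh.2.2).sub (hh.2.1.mul0 hg.2.2))).sub
    (hg.1.mul0 ((hf.2.1.mul0 hh.2.2).sub (hh.2.1.mul0 hf.2.2)))).add
    (hh.1.mul0 ((hf.2.1.mul0 hg.2.2).sub (hg.2.1.mul0 hf.2.2)))

/-- The curvature is integral. -/
theorem est [CharZero K] (hx : D x = 1) (ox : P.o x = 1) (oy : 1 < P.o y) {e : C}
    (hφ : φ ^ 3 * (algebraMap C K e * D (D y)) = 1) (a b c a' b' c' : C)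
    (hc : (P.o y = 2 ∧ P.G 0 (D (D (D y))) ∧ P.G 0 (D (D (D (D y))))) ∨
      (a * b' - a' * b = 0 ∧ (2 ≤ P.o y ∨ a * c' - a' * c = 0))) :
    P.G 0 (kap D (af a b c x y) (af a' b' c' x y) φ) := by
  obtain ⟨y0, oyy⟩ := o_DD hx ox oy
  have e0 : e ≠ 0 := fun h => by simp [h] at hφ
  have φ0 : φ ≠ 0 := fun h => by simp [h] at hφ
  have oφ : 3 * P.o φ = 2 - P.o y := by
    have := congrArg P.o hφ
    rw [P.mul (by simp [φ0]) (by simp [e0, y0]), o_pow, o_cmul e0, oyy, o_one] at this
    push_cast at this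
    linarith
  have Gx : P.G 1 x := G.of_le ox.ge
  have G1 : P.G 0 (1 : K) := G.of_le (by simp)
  have Gy := G.self (P := P) y
  have y1 := G_D hx ox Gy
  have φ3 : P.G (2 - P.o y) (φ ^ 3) := G.of_le (by simp [oφ])
  rcases hc with ⟨h2, h3, h4⟩ | ⟨hp, hq⟩
  · have y2 : P.G 0 (D (D y)) := G.of_le (by linarith)
    have Sx : S2 P x := ⟨Gx.mono (by norm_num), hx ▸ G1, by simpa [hx] using G.zero⟩
    have Sy : S2 P y := ⟨Gy.mono (by linarith), y1.mono (by linarith), y2⟩
    have Sy1 : S2 P (D y) := ⟨Sy.2.1, y2, h3⟩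
    have Sa : ∀ a b c, S2 P (af a b c x y) := fun a b c =>
      ((S2.cst a).add ((S2.cst b).mul Sx)).add ((S2.cst c).mul Sy)
    have Gφ : P.G 0 φ := G.of_le (by linarith)
    have G3 : P.G 0 (3 : K)⁻¹ := by simpa [map_ofNat] using G.cst (P := P) 3⁻¹
    have Gi : P.G 0 (D (D y))⁻¹ := G.of_le (by simp [oyy, h2])
    have d1 : D φ = -(φ * D (D (D y)) * (D (D y))⁻¹ * 3⁻¹) := by
      have := congrArg D hφ
      simp only [Derivation.leibniz, Derivation.leibniz_pow, Derivation.map_algebraMap,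
        Derivation.map_one_eq_zero, smul_eq_mul, nsmul_eq_mul] at this
      have e1 : algebraMap C K e ≠ 0 := by simpa using e0
      field_simp
      refine mul_left_cancel₀ (mul_ne_zero e1 (pow_ne_zero 2 φ0)) ?_
      push_cast at this
      linear_combination this
    have φ1 : P.G 0 (D φ) := d1 ▸ (((Gφ.mul0 h3).mul0 Gi).mul0 G3).neg
    have Sφ : S2 P φ := ⟨Gφ, φ1, by
      have d3 : D 3 = 0 := by exact_mod_cast D.map_natCast 3
      rw [d1]
      convert ((((Gφ.mul0 h3).mul0 h3).mul0 Gi).mul0 Gi |>.sub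
        (((Gφ.mul0 h4).add (h3.mul0 φ1)).mul0 Gi)).mul0 G3 using 1
      simp [Derivation.leibniz_inv, d3]
      ring⟩
    refine (φ3.mono (by linarith)).mul0 ((Sa ..).W3 (Sa ..) (S2.mul ?_ Sφ))
    rw [W2_af hx, W2, hx, mul_one]
    exact ((S2.cst _).add ((S2.cst _).mul Sy1)).add ((S2.cst _).mul ((Sx.mul Sy1).sub Sy))
  rw [kap, W2_af hx, W3_af, hp, map_zero, zero_add, zero_mul, zero_add]
  have w2 := G_W2 hx ox Gx Gy
  rcases hq with hq | hq
  · have w := (((G.cst (a * c' - a' * c)).mul y1).add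
      (((G.cst (b * c' - b' * c)).mul w2).mono (by linarith))).mul (G.self φ)
    exact (φ3.mul (((G.cst _).mul (G_W3 hx ox G1 Gy w)).add
      (((G.cst _).mul (G_W3 hx ox Gx Gy w)).mono (by linarith)))).mono (by linarith)
  · rw [hq, map_zero, zero_mul, zero_mul, zero_add, zero_add]
    have w := ((G.cst (b * c' - b' * c)).mul w2).mul (G.self φ)
    exact (φ3.mul ((G.cst _).mul (G_W3 hx ox Gx Gy w))).mono (by linarith)

end Est

variable [CharZero C]

lemma Fld.lin (hF : Fld d) {l : K} (hd : ∀ g, d g = l * D g) (hx : D x = 1)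
    (h : D (D g) = 0) : ∃ a b : C, g = algebraMap C K a * x + algebraMap C K b := by
  obtain ⟨a, ha⟩ := hF.cst (D g) (by rw [hd, h, mul_zero])
  obtain ⟨b, hb⟩ := hF.cst (g - algebraMap C K a * x) (by rw [hd]; simp [hx, ha])
  exact ⟨a, b, by linear_combination hb⟩

variable [CharZero K]

lemma Fld.quad (hF : Fld d) {l : K} (hd : ∀ g, d g = l * D g) (hx : D x = 1)
    (h : D (D (D g)) = 0) : ∃ a b c : C,
      g = algebraMap C K a * x ^ 2 + algebraMap C K b * x + algebraMap C K c := by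
  obtain ⟨a, ha⟩ := hF.cst (D (D g)) (by rw [hd, h, mul_zero])
  obtain ⟨b, c, hb⟩ := Fld.lin hF hd hx (g := g - algebraMap C K (a / 2) * x ^ 2) (by
    have d2 : D 2 = 0 := by exact_mod_cast D.map_natCast 2
    have h2 : algebraMap C K a = algebraMap C K (a / 2) * 2 := by simp [map_ofNat]
    rw [h2] at ha
    generalize a / 2 = e at *
    simp [hx, ha, Derivation.leibniz_pow, d2, mul_comm])
  exact ⟨a / 2, b, c, by linear_combination hb⟩

/-- Constant affine curvature: a conic. -/
theorem con_of_kap (hF : Fld d) (hφ : φ ^ 3 * W3 d 1 x y = 1) {k : C}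
    (hk : kap d 1 y φ = algebraMap C K k) : Con C x y := by
  have y0 : d y ≠ 0 := fun e => by simp [W3, e] at hφ
  set D := (d y)⁻¹ • d with hD
  have hd : ∀ g, d g = d y * D g := fun g => by simp [hD, y0]
  have hy : D y = 1 := by simp [hD, y0]
  have h1 := W3_scale hd 1 1 x y
  have h2 := kap_scale hd 1 1 y φ
  simp only [one_mul] at h1 h2
  rw [h1, ← mul_assoc, ← mul_pow, mul_comm φ] at hφ
  rw [h2] at hk
  generalize d y * φ = ψ at hφ hk
  simp only [kap, W3, W2, hy, Derivation.map_one_eq_zero, map_zero, mul_zero, sub_zero, one_mul,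
    mul_one, add_zero, zero_mul, zero_sub] at hφ hk
  have ψ0 : ψ ≠ 0 := fun e => by simp [e] at hφ
  have x2 : D (D x) = -(ψ ^ 3)⁻¹ := by field_simp; linear_combination -hφ
  have p2 : D (D ψ) = algebraMap C K k * (ψ ^ 3)⁻¹ := by field_simp; linear_combination hk
  obtain ⟨a, b, h3⟩ := Fld.lin hF hd hy (g := ψ + algebraMap C K k * x) (by simp [x2, p2])
  have d2 : D 2 = 0 := by exact_mod_cast D.map_natCast 2
  by_cases k0 : k = 0
  · rw [k0, map_zero, zero_mul, add_zero] at h3
    have p1 : D ψ = algebraMap C K a := by simp [h3, hy]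
    by_cases a0 : a = 0
    · obtain ⟨p, q, r, h4⟩ := Fld.quad hF hd hy (g := x) (by
        simp [x2, Derivation.leibniz_inv, Derivation.leibniz_pow, p1, a0])
      exact ⟨0, 0, p, -1, q, r, by simp, by simp [h4]; ring⟩
    · have a1 : algebraMap C K a ≠ 0 := by simpa using a0
      obtain ⟨p, q, h4⟩ := Fld.lin hF hd hy (g := algebraMap C K (2 * a ^ 2) * x + ψ⁻¹) (by
        simp [x2, Derivation.leibniz_inv, Derivation.leibniz_pow, p1, map_ofNat, d2]
        field_simp
        ring)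
      refine ⟨0, 2 * a ^ 2 * a, -p * a, 2 * a ^ 2 * b, -p * b - q * a, 1 - q * b, by simp [a0], ?_⟩
      have := mul_inv_cancel₀ ψ0
      simp only [map_mul, map_sub, map_neg, map_zero, map_one] at h4 ⊢
      linear_combination ψ * h4 - this - (algebraMap C K 2 * algebraMap C K (a ^ 2) * x -
        algebraMap C K p * y - algebraMap C K q) * h3
  · obtain ⟨p, q, r, h4⟩ := Fld.quad hF hd hy (g := ψ ^ 2) (by
      simp [p2, Derivation.leibniz_inv, Derivation.leibniz_pow, d2]
      field_simp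
      ring)
    refine ⟨k ^ 2, -2 * k * a, a ^ 2 - p, -2 * k * b, 2 * a * b - q, b ^ 2 - r, by simp [k0], ?_⟩
    simp only [map_mul, map_sub, map_neg, map_pow, map_ofNat]
    linear_combination h4 - (ψ - algebraMap C K k * x + algebraMap C K a * y +
      algebraMap C K b) * h3

omit [CharZero K] in
/-- Vanishing Wronskian: a line. -/
theorem con_of_W3 (hF : Fld d) (h : W3 d 1 x y = 0) : Con C x y := by
  by_cases x0 : d x = 0
  · obtain ⟨c, hc⟩ := hF.cst x x0
    exact (Con.line (a := 0) (b := c) (by simp [hc])).symm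
  set D := (d x)⁻¹ • d with hD
  have hd : ∀ g, d g = d x * D g := fun g => by simp [hD, x0]
  have hx : D x = 1 := by simp [hD, x0]
  have h1 := W3_scale hd 1 1 x y
  simp only [one_mul, h] at h1
  obtain ⟨a, b, h2⟩ := Fld.lin hF hd hx (g := y) (by simpa [W3, hx, x0] using h1)
  exact Con.line h2

end Pool.Agent.MP_249f74_an.H22
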