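import Pool.Agent.MP_249f74_an.H22.Wrap

/-!
The invariant forms of a conic: the zero set is a union of members of the confocal pencil.
-/

namespace Pool.Agent.MP_249f74_an.H22

open H17 (Der)
open H53
open MvPolynomial (X)

variable {C K : Type} [Field C] [Field K] [Algebra C K] {d : Der C K}
  {F Q I : MvPolynomial (Fin 3) C} {u v w s I0 : K} {L : IntermediateField C K} {ε : C}

lemma der_two (hQ : Q.IsHomogeneous 2) (d : Der C K) (u v w s t : K) :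
    ev Q (s * u + t * d u) (s * v + t * d v) (s * w + t * d w) =
      s ^ 2 * ev Q u v w + s * t * d (ev Q u v w) + t ^ 2 * ev Q (d u) (d v) (d w) := by
  rw [ev_two hQ, ev_two hQ u, ev_two hQ (d u)]
  simp only [map_add, Derivation.leibniz, Derivation.leibniz_pow, Derivation.map_algebraMap,
    smul_eq_mul, nsmul_eq_mul]
  push_cast
  ring

lemma inv_two (hQ : Q.IsHomogeneous 2)
    (h : d (ev Q u v w) = d I0 / I0 * ev Q u v w) : Inv d Q u v w I0 := fun s t => by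
  have := der_two hQ d u v w (s + d I0 / I0 * t) (-t)
  simp only [neg_mul, ← sub_eq_add_neg] at this
  rw [this, der_two hQ, h]
  ring

lemma ev_mem (hu : u ∈ L) (hv : v ∈ L) (hw : w ∈ L) : ev F u v w ∈ L :=
  (map_ev (F := F) L.val ⟨u, hu⟩ ⟨v, hv⟩ ⟨w, hw⟩) ▸ (ev F (⟨u, hu⟩ : L) ⟨v, hv⟩ ⟨w, hw⟩).2

/-- `F` is a binary form of degree `h` in `Q` and `I`. -/
def Lev (F Q I : MvPolynomial (Fin 3) C) (h : ℕ) : Prop :=
  ∃ p : Polynomial C, ∀ (A : Type) [Field A] [Algebra C A] (a b c : A), ev I a b c ≠ 0 →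
    ev F a b c = ev I a b c ^ h * Polynomial.aeval (ev Q a b c / ev I a b c) p

variable [CharZero C] [IsAlgClosed C]

lemma Lev.root {h : ℕ} (hL : Lev F Q I h) (F0 : F ≠ 0) (I0 : I ≠ 0) {A : Type} [Field A]
    [Algebra C A] {a b c : A} (hz : ev F a b c = 0) : ∃ α β : C, ¬ (α = 0 ∧ β = 0) ∧
      algebraMap C A α * ev Q a b c + algebraMap C A β * ev I a b c = 0 := by
  obtain ⟨p, hp⟩ := hL
  by_cases h0 : ev I a b c = 0
  · exact ⟨0, 1, by simp, by simp [h0]⟩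
  have p0 : p ≠ 0 := fun e => mul_ne_zero F0 I0 (eq_zero_of_ev fun x y z => by
    by_cases h1 : ev I x y z = 0
    · simp [h1]
    · simp [hp C x y z h1, e])
  have h1 : IsAlgebraic C (ev Q a b c / ev I a b c) :=
    ⟨p, p0, by simpa [hz, h0] using (hp A a b c h0).symm⟩
  obtain ⟨e, he⟩ := minpoly.mem_range_of_degree_eq_one C _
    (IsAlgClosed.degree_eq_one_of_irreducible C (minpoly.irreducible h1.isIntegral))
  exact ⟨1, -e, by simp, by rw [map_neg, he]; simp [h0]⟩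

variable [CharZero K]

omit [CharZero C] [IsAlgClosed C] in
lemma Inv.const' {h : ℕ} {x y : K} (hc : ∀ g ∈ L, d g = 0 → ∃ c, g = algebraMap C K c)
    (m1 : ev F 1 x y ∈ L) (m2 : I0 ∈ L) (hom : F.IsHomogeneous (2 * h)) (x0 : d x ≠ 0)
    (I00 : I0 ≠ 0) (hI : Inv d F 1 x y I0) : ∃ c, ev F 1 x y = algebraMap C K c * I0 ^ h := by
  have hd : ∀ g, d g = d x * ((d x)⁻¹ • d) g := fun g => by simp [x0]
  have h1 := first (x := x) (by simp [x0]) hom
    (Inv.scale (μ := 1) hd x0 one_ne_zero I00 (by simpa using hI))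
  obtain ⟨c, hc⟩ := hc (ev F 1 x y / I0 ^ h) (div_mem m1 (pow_mem m2 h)) (by
    rw [hd]
    generalize (d x)⁻¹ • d = D at h1
    have h2 : D (ev F 1 x y) = h * (D I0 / I0) * ev F 1 x y := by
      push_cast at h1
      linear_combination h1 / 2
    rcases h with _ | h <;> simp [Derivation.leibniz_div, Derivation.leibniz_pow, h2]
    field_simp
    simp [pow_succ'])
  exact ⟨c, by rw [← hc]; field_simp⟩

lemma lev0 (hc : ∀ g ∈ L, d g = 0 → ∃ c, g = algebraMap C K c) (hs : s ∈ L) (s0 : d s ≠ 0)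
    (ε0 : ε ≠ 0) (hI : I.IsHomogeneous 2) (I0 : ev I 1 s (algebraMap C K ε * s ^ 2) ≠ 0) (h : ℕ) :
    ∀ F : MvPolynomial (Fin 3) C, F.IsHomogeneous (2 * h) →
      Inv d F 1 s (algebraMap C K ε * s ^ 2) (ev I 1 s (algebraMap C K ε * s ^ 2)) →
      Lev F (Abs ε) I h := by
  induction h using Nat.strong_induction_on with | _ h ih =>
  intro F hom inv
  have hy := mul_mem (L.algebraMap_mem ε) (pow_mem hs 2)
  obtain ⟨c, hc⟩ := inv.const' hc (ev_mem (one_mem _) hs hy) (ev_mem (one_mem _) hs hy) hom s0 I0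
  by_cases G0 : F - MvPolynomial.C c * I ^ h = 0
  · exact ⟨Polynomial.C c, fun A _ _ a b c _ => by simp [sub_eq_zero.1 G0, mul_comm]⟩
  obtain ⟨m, G, hm, hG, e⟩ := abs_dvd (hom.sub ((hI.pow h).C_mul c)) G0 ε0
    (aeval_inj s0 (by simp [aeval_ab, hc]))
  obtain ⟨h, rfl⟩ : ∃ k, h = k + 1 := ⟨h - 1, by omega⟩
  obtain rfl : m = 2 * h := by omega
  have h1 := inv_two (d := d) hI (div_mul_cancel₀ _ I0).symm
  obtain ⟨p, hp⟩ := ih h (by omega) G hG (Inv.div (Q := Abs ε)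
    (inv_two (hom_Abs ε) (by simp [ev_Abs])) ⟨0, 1, by simp [ev_Abs, s0, ε0]⟩ (e ▸ fun s t => by
      simp only [ev_sub, ev_mul, ev_pow, ev_C, inv s t, h1 s t]))
  refine ⟨Polynomial.C c + Polynomial.X * p, fun A _ _ x y z h0 => ?_⟩
  rw [sub_eq_iff_eq_add.1 e]
  simp only [ev_add, ev_mul, ev_pow, ev_C, hp A x y z h0, map_add, map_mul, Polynomial.aeval_C,
    Polynomial.aeval_X]
  field_simp
  ring

omit [CharZero C] [IsAlgClosed C] [CharZero K] in
/-- A linear change of variables. -/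
noncomputable def pull (F : MvPolynomial (Fin 3) C) (M : Matrix (Fin 3) (Fin 3) C) :
    MvPolynomial (Fin 3) C :=
  ev F (lin (M 0 0) (M 0 1) (M 0 2)) (lin (M 1 0) (M 1 1) (M 1 2)) (lin (M 2 0) (M 2 1) (M 2 2))

omit [CharZero C] [CharZero K] in
lemma nf0 (a b c e f g : C) : ∃ (ε : C) (M : Matrix (Fin 3) (Fin 3) C), (∀ x y z : C,
    a * x ^ 2 + b * y ^ 2 + c * z ^ 2 + e * (x * y) + f * (x * z) + g * (y * z) =
    (M 0 0 * x + M 0 1 * y + M 0 2 * z) * (M 2 0 * x + M 2 1 * y + M 2 2 * z) -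
      ε * (M 1 0 * x + M 1 1 * y + M 1 2 * z) ^ 2) ∧ (ε ≠ 0 → M.det ≠ 0) := by
  have rt : ∀ a b c : C, a ≠ 0 → ∃ r, a * r ^ 2 + b * r + c = 0 := fun a b c h =>
    (IsAlgClosed.exists_root (Polynomial.C a * Polynomial.X ^ 2 + Polynomial.C b * Polynomial.X +
      Polynomial.C c) (by rw [Polynomial.degree_quadratic h]; simp)).imp fun r hr => by simpa using hr
  wlog a0 : a = 0 generalizing a b c e f g
  · obtain ⟨s, hs⟩ := rt a e b a0
    obtain ⟨ε, M, h1, h2⟩ := this 0 a c (2 * a * s + e) (f * s + g) f rfl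
    refine ⟨ε, M * !![0, 1, 0; 1, -s, 0; 0, 0, 1], fun x y z => ?_, fun h => ?_⟩
    · simp [Matrix.mul_apply, Fin.sum_univ_three]
      linear_combination h1 y (x - s * y) z + y ^ 2 * hs
    · rw [Matrix.det_mul]
      exact mul_ne_zero (h2 h) (by simp [Matrix.det_fin_three])
  subst a0
  by_cases f0 : f = 0
  swap
  · refine ⟨-(b - g * e / f + c * e ^ 2 / f ^ 2), !![1, g / f - c * e / f ^ 2, c / f; 0, 1, 0; 0, e, f],
      fun x y z => ?_, fun _ => by simpa [Matrix.det_fin_three] using f0⟩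
    simp
    field_simp
    ring
  subst f0
  by_cases e0 : e = 0
  swap
  · refine ⟨-c, !![1, b / e, g / e; 0, 0, 1; 0, e, 0], fun x y z => ?_,
      fun _ => by simpa [Matrix.det_fin_three] using e0⟩
    simp
    field_simp
    ring
  subst e0
  by_cases b0 : b = 0
  · exact ⟨0, !![0, g, c; 0, 0, 0; 0, 0, 1], fun x y z => by simp [b0]; ring, by simp⟩
  obtain ⟨r, hr⟩ := rt b g c b0
  refine ⟨0, !![0, 1, -r; 0, 0, 0; 0, b, g + b * r], fun x y z => ?_, by simp⟩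
  simp
  linear_combination z ^ 2 * hr

omit [CharZero K] in
/-- Normal form of a conic. -/
lemma nf (hQ : Q.IsHomogeneous 2) :
    ∃ (ε : C) (M : Matrix (Fin 3) (Fin 3) C), Q = pull (Abs ε) M ∧ (ε ≠ 0 → M.det ≠ 0) := by
  obtain ⟨ε, M, h1, h2⟩ := nf0 (C := C) (ev Q 1 0 0) (ev Q 0 1 0) (ev Q 0 0 1)
    (ev Q 1 1 0 - ev Q 1 0 0 - ev Q 0 1 0) (ev Q 1 0 1 - ev Q 1 0 0 - ev Q 0 0 1)
    (ev Q 0 1 1 - ev Q 0 1 0 - ev Q 0 0 1)
  refine ⟨ε, M, sub_eq_zero.1 (eq_zero_of_ev fun x y z => ?_), h2⟩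
  rw [ev_sub, pull, ev_ev, ev_two hQ]
  simp only [ev_Abs, ev_lin, Algebra.algebraMap_self_apply, h1, sub_self]

omit [CharZero C] [IsAlgClosed C] [CharZero K] in
lemma ev_lin_inv {M N : Matrix (Fin 3) (Fin 3) C} (h : N * M = 1) {A : Type} [CommRing A]
    [Algebra C A] (a b c : A) (i : Fin 3) :
    ev (lin (N i 0) (N i 1) (N i 2)) (ev (lin (M 0 0) (M 0 1) (M 0 2)) a b c)
      (ev (lin (M 1 0) (M 1 1) (M 1 2)) a b c) (ev (lin (M 2 0) (M 2 1) (M 2 2)) a b c) =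
      ![a, b, c] i := by
  have e := fun j => congrArg (algebraMap C A) (congrFun (congrFun h i) j)
  simp only [Matrix.mul_apply, Fin.sum_univ_three, map_add, map_mul] at e
  rw [show ![a, b, c] i = algebraMap C A ((1 : Matrix (Fin 3) (Fin 3) C) i 0) * a +
    algebraMap C A ((1 : Matrix (Fin 3) (Fin 3) C) i 1) * b +
    algebraMap C A ((1 : Matrix (Fin 3) (Fin 3) C) i 2) * c by fin_cases i <;> simp [Matrix.one_apply]]
  simp only [ev_lin]
  linear_combination a * e 0 + b * e 1 + c * e 2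

/-- The invariant forms of a conic. -/
theorem levels {h : ℕ} (hc : ∀ g ∈ L, d g = 0 → ∃ c, g = algebraMap C K c) (hu : u ∈ L)
    (hv : v ∈ L) (hw : w ∈ L) (hl : ∀ a b c : C,
      algebraMap C K a * u + algebraMap C K b * v + algebraMap C K c * w = 0 →
        a = 0 ∧ b = 0 ∧ c = 0) (Q0 : Q ≠ 0) (hQ : Q.IsHomogeneous 2) (hN : ev Q u v w = 0)
    (hI : I.IsHomogeneous 2) (I0 : ev I u v w ≠ 0) (hom : F.IsHomogeneous (2 * h))
    (inv : Inv d F u v w (ev I u v w)) : Lev F Q I h := by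
  obtain ⟨ε, M, rfl, hM⟩ := nf hQ
  rw [pull, ev_ev, ev_Abs] at hN
  have l0 : ∀ a b c : C, ev (lin a b c) u v w = 0 → lin a b c = 0 := fun a b c e => by
    obtain ⟨rfl, rfl, rfl⟩ := hl a b c (ev_lin a b c u v w ▸ e)
    simp [lin]
  have ε0 : ε ≠ 0 := fun e => Q0 (by
    rw [e, map_zero, zero_mul, sub_zero, mul_eq_zero] at hN
    rcases hN with e' | e' <;> simp [pull, ev_Abs, e, l0 _ _ _ e'])
  have h1 := M.nonsing_inv_mul (hM ε0).isUnit
  have e : ∀ (G : MvPolynomial (Fin 3) C) (A : Type) [Field A] [Algebra C A] (a b c : A),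
      ev (pull G M⁻¹) (ev (lin (M 0 0) (M 0 1) (M 0 2)) a b c)
        (ev (lin (M 1 0) (M 1 1) (M 1 2)) a b c) (ev (lin (M 2 0) (M 2 1) (M 2 2)) a b c) =
        ev G a b c := fun G A _ _ a b c => by
    rw [pull, ev_ev, ev_lin_inv h1, ev_lin_inv h1, ev_lin_inv h1]
    rfl
  have hp : ∀ {G : MvPolynomial (Fin 3) C} {n : ℕ}, G.IsHomogeneous n →
    (pull G M⁻¹).IsHomogeneous n := fun h => hom_ev h (hom_lin ..) (hom_lin ..) (hom_lin ..)
  have inv' : Inv d (pull F M⁻¹) _ _ _ (ev I u v w) := Inv.lin (by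
    rw [ev_lin_inv h1 u v w 0, ev_lin_inv h1 u v w 1, ev_lin_inv h1 u v w 2]; exact inv)
  rw [← e I] at inv' I0
  have m0 := ev_mem (F := lin (M 0 0) (M 0 1) (M 0 2)) hu hv hw
  have m1 := ev_mem (F := lin (M 1 0) (M 1 1) (M 1 2)) hu hv hw
  have μ0 : ev (lin (M 0 0) (M 0 1) (M 0 2)) u v w ≠ 0 := fun e => hM ε0 (by
    obtain ⟨a, b, c⟩ := hl _ _ _ ((ev_lin _ _ _ u v w).symm.trans e)
    simp [Matrix.det_fin_three, a, b, c])
  have s0 : d (ev (lin (M 1 0) (M 1 1) (M 1 2)) u v w / ev (lin (M 0 0) (M 0 1) (M 0 2)) u v w) ≠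
      0 := fun e => hM ε0 (by
    obtain ⟨k, hk⟩ := hc _ (div_mem m1 m0) e
    rw [div_eq_iff μ0, ev_lin, ev_lin] at hk
    obtain ⟨a, b, c⟩ := hl (M 1 0 - k * M 0 0) (M 1 1 - k * M 0 1) (M 1 2 - k * M 0 2) (by
      simp only [map_sub, map_mul]
      linear_combination hk)
    rw [Matrix.det_fin_three, sub_eq_zero.1 a, sub_eq_zero.1 b, sub_eq_zero.1 c]
    ring)
  have hs := div_mem m1 m0
  generalize ev (lin (M 0 0) (M 0 1) (M 0 2)) u v w = μ at *
  generalize ev (lin (M 1 0) (M 1 1) (M 1 2)) u v w = x at *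
  generalize ev (lin (M 2 0) (M 2 1) (M 2 2)) u v w = y at *
  obtain ⟨s, rfl⟩ : ∃ s, x = μ * s := ⟨x / μ, by field_simp⟩
  obtain rfl : y = μ * (algebraMap C K ε * s ^ 2) :=
    mul_left_cancel₀ μ0 (by linear_combination hN)
  rw [mul_div_cancel_left₀ _ μ0] at s0 hs
  have e2 := ev_smul (hp hI) μ 1 s (algebraMap C K ε * s ^ 2)
  rw [mul_one] at e2
  rw [e2] at inv' I0
  obtain ⟨p, hp⟩ := lev0 hc hs s0 ε0 (hp hI) (right_ne_zero_of_mul I0) h _ (hp hom)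
    (Inv.scale (d := d) (l := 1) (fun g => by simp) one_ne_zero μ0 (right_ne_zero_of_mul I0)
      (by simpa using inv'))
  refine ⟨p, fun A _ _ a b c h0 => ?_⟩
  rw [← e F, hp A _ _ _ (by rwa [e]), e, pull, ev_ev]

lemma cst_cl {t : K} (t0 : d t ≠ 0) : ∀ g ∈ H88.cl C {t}, d g = 0 → ∃ c, g = algebraMap C K c :=
  fun g hg e => by
    obtain ⟨hp, hF⟩ := fld_cl (d := (d t)⁻¹ • d) (t := t) (by simp [t0])
    obtain ⟨c, hc⟩ := hF.cst ⟨g, hg⟩ (Subtype.ext (by simp [e]))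
    exact ⟨c, congrArg Subtype.val hc⟩

/-- The tangent geodesics lie on a conic `Q`, and `F` is a form in `Q` and the absolute. -/
theorem scc_lev [IsAlgClosed K] {t : K} {κ : C} {h : ℕ} (t0 : d t ≠ 0) (hu : u ∈ H88.cl C {t})
    (hv : v ∈ H88.cl C {t}) (hw : w ∈ H88.cl C {t})
    (n0 : u ^ 2 + v ^ 2 + algebraMap C K κ * w ^ 2 ≠ 0) (hl : ∀ a b c : C,
      algebraMap C K a * u + algebraMap C K b * v + algebraMap C K c * w = 0 →
        a = 0 ∧ b = 0 ∧ c = 0)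
    (hom : F.IsHomogeneous (2 * h)) (hne : ∀ c, F ≠ MvPolynomial.C c * Sq κ ^ h)
    (hI : Inv d F u v w (u ^ 2 + v ^ 2 + algebraMap C K κ * w ^ 2)) :
    ∃ Q : MvPolynomial (Fin 3) C, Q ≠ 0 ∧ Q.IsHomogeneous 2 ∧ ev Q u v w = 0 ∧
      Lev F Q (Sq κ) h := by
  obtain ⟨Q, Q0, hQ, hN⟩ :=
    (scc (p := 0) (q := 0) (r := 0) t0 hu hv hw n0 (by simp) (by simp) hom hne hI).1
  rw [← ev_Sq] at n0 hI
  exact ⟨Q, Q0, hQ, hN, levels (cst_cl t0) hu hv hw hl Q0 hQ hN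
    (((MvPolynomial.isHomogeneous_X_pow _ _).add (MvPolynomial.isHomogeneous_X_pow _ _)).add
      (MvPolynomial.isHomogeneous_C_mul_X_pow _ _ _)) n0 hom hI⟩

end Pool.Agent.MP_249f74_an.H22
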