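import Pool.Agent.MP_249f74_an.H22.Alg
import Pool.Agent.MP_249f74_an.H22.BM
import Pool.Agent.MP_249f74_an.H53.Unq

/-!
Branches of a curve with an invariant form.
-/

open Polynomial

namespace Pool.Agent.MP_249f74_an.H22

open H17 (Der)
open H53 H53.Pl

variable {C K : Type} [Field C] [CharZero C] [Field K] [Algebra C K]

lemma d_ne {d : Der C K} {P : Pl d} {x : K} (hx : P.o x ≠ 0) : d x ≠ 0 := fun e => by
  have := (R_log hx (ne_zero hx)).unit (by simp [hx])
  simp [e] at this

/-- The same place, normalised by `x`. -/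
def nrm {d : Der C K} (P : Pl d) (x : K) (hx : 0 < P.o x) : Pl ((d x)⁻¹ • d) where
  o g := P.o g / P.o x
  mul ha hb := by rw [P.mul ha hb, add_div]
  add ha hb hab := by
    rw [min_div_div_right hx.le]
    exact div_le_div_of_nonneg_right (P.add ha hb hab) hx.le
  cst c := by rw [P.cst, zero_div]
  res h := (P.res ((div_eq_zero_iff.1 h).resolve_right hx.ne')).imp fun _ h =>
    h.imp id fun h => div_pos h hx
  log {u g} hu hg := by
    have h1 : P.o u ≠ 0 := fun e => hu (by rw [e, zero_div])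
    have h2 : u * ((d x)⁻¹ • d) g / (g * ((d x)⁻¹ • d) u) = u * d g / (g * d u) := by
      have := d_ne hx.ne'
      have := d_ne h1
      simp only [Derivation.smul_apply, smul_eq_mul]
      field_simp
    rw [h2, div_div_div_cancel_right₀ hx.ne']
    exact (P.log h1 hg).imp id fun h => div_pos h hx

lemma R_sum {d : Der C K} {P : Pl d} {ι : Type} {S : Finset ι} {f : ι → K} {c : ι → C}
    (h : ∀ i ∈ S, P.R (f i) (c i)) : P.R (∑ i ∈ S, f i) (∑ i ∈ S, c i) := by
  have := L.sum h
  rwa [Finset.sum_sub_distrib, ← map_sum] at this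

lemma R_nat {d : Der C K} {P : Pl d} (n : ℕ) : P.R (n : K) (n : C) :=
  map_natCast (algebraMap C K) n ▸ R.cst (n : C)

lemma R_one {d : Der C K} {P : Pl d} : P.R 1 1 := by simpa using R.cst (P := P) 1

lemma R_eq_zero {d : Der C K} {P : Pl d} {c : C} (h : P.R 0 c) : c = 0 :=
  h.unique (by simpa using R.cst (P := P) 0)

variable {D : Der C K} {P : Pl D} {x y g : K} {s : ℚ}

lemma R_D (hx : D x = 1) (ox : P.o x = 1) (hg : g ≠ 0) : P.R (x * D g / g) ((P.o g : ℚ) : C) := by
  simpa [hx, ox] using R_log (P := P) (u := x) (by simp [ox]) hg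

lemma G_D (hx : D x = 1) (ox : P.o x = 1) (hg : P.G s g) : P.G (s - 1) (D g) := by
  by_cases g0 : g = 0
  · simpa [g0] using G.zero
  have x0 : x ≠ 0 := ne_zero (by simp [ox] : P.o x ≠ 0)
  have := (hg.mul0 (R_D hx ox g0).G).div x
  rw [ox] at this
  convert this using 1
  field_simp

lemma o_D (hx : D x = 1) (ox : P.o x = 1) (hg : P.o g ≠ 0) :
    D g ≠ 0 ∧ P.o (D g) = P.o g - 1 := by
  have x0 : x ≠ 0 := ne_zero (by simp [ox] : P.o x ≠ 0)
  obtain ⟨h1, h2⟩ := (R_D hx ox (ne_zero hg)).unit (by exact_mod_cast hg)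
  have h3 : D g ≠ 0 := fun e => h1 (by simp [e])
  rw [o_div (mul_ne_zero x0 h3) (ne_zero hg), P.mul x0 h3, ox] at h2
  exact ⟨h3, by linarith⟩

lemma o_DD (hx : D x = 1) (ox : P.o x = 1) (oy : 1 < P.o y) :
    D (D y) ≠ 0 ∧ P.o (D (D y)) = P.o y - 2 := by
  have h1 := (o_D hx ox (by linarith : P.o y ≠ 0)).2
  have h2 := o_D hx ox (by linarith : P.o (D y) ≠ 0)
  exact ⟨h2.1, by linarith [h2.2]⟩

variable [CharZero K]

theorem loc {F : MvPolynomial (Fin 3) C} {n : ℕ} {I0 : K} (hx : D x = 1) (ox : P.o x = 1)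
    (oy : 1 < P.o y) (hF : F.IsHomogeneous n) (F0 : F ≠ 0) (hN : ev F 1 x y = 0) (I00 : I0 ≠ 0)
    (hI : Inv D F 1 x y I0) (hρ : P.o I0 = 0 ∨ P.o I0 = 1 ∨ (P.o I0 = P.o y ∧ P.o y ≤ 2) ∨
      (P.o I0 = 2 ∧ 2 < P.o y)) :
    P.o y = 2 ∧ P.G 0 (D (D (D y))) ∧ P.G 0 (D (D (D (D y)))) := by
  classical
  have x0 : x ≠ 0 := ne_zero (by simp [ox] : P.o x ≠ 0)
  have y0 : y ≠ 0 := ne_zero (by linarith : P.o y ≠ 0)
  obtain ⟨m0, hm0, hmin⟩ := F.support.exists_min_image (fun m => (m 1 : ℚ) + P.o y * m 2)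
    (MvPolynomial.support_nonempty.2 F0)
  set ν : ℚ := (m0 1 : ℚ) + P.o y * m0 2 with hν
  have om : ∀ m : Fin 3 →₀ ℕ, x ^ m 1 * y ^ m 2 ≠ 0 ∧
      P.o (x ^ m 1 * y ^ m 2) = m 1 + P.o y * m 2 := fun m =>
    ⟨by simp [x0, y0], by rw [P.mul (by simp [x0]) (by simp [y0]), o_pow, o_pow, ox]; ring⟩
  set μ := x ^ m0 1 * y ^ m0 2 with hμ
  have μ0 : μ ≠ 0 := (om m0).1
  let T : (Fin 3 →₀ ℕ) → K := fun m => algebraMap C K (F.coeff m) * (x ^ m 1 * y ^ m 2) / μ
  have oT : ∀ m ∈ F.support, T m ≠ 0 ∧ P.o (T m) = m 1 + P.o y * m 2 - ν := fun m hm => by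
    have c0 := MvPolynomial.mem_support_iff.1 hm
    have h1 : algebraMap C K (F.coeff m) * (x ^ m 1 * y ^ m 2) ≠ 0 :=
      mul_ne_zero (by simpa using c0) (om m).1
    exact ⟨div_ne_zero h1 μ0, by rw [o_div h1 μ0, o_cmul c0, (om m).2, (om m0).2]⟩
  have hg : ∀ m, ∃ c, m ∈ F.support → P.R (T m) c := fun m => by
    by_cases hm : m ∈ F.support
    · obtain ⟨c, hc⟩ := (G.of_le (P := P) (s := 0) (a := T m)
        (by rw [(oT m hm).2]; linarith [hmin m hm])).exR
      exact ⟨c, fun _ => hc⟩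
    · exact ⟨0, fun h => absurd h hm⟩
  choose g hg using hg
  let S := F.support.filter fun m => (m 1 : ℚ) + P.o y * m 2 = ν
  have key : ∀ (f : (Fin 3 →₀ ℕ) → K) (c : (Fin 3 →₀ ℕ) → C), (∀ m, P.R (f m) (c m)) →
      P.R (∑ m ∈ F.support, T m * f m) (∑ m ∈ S, g m * c m) := fun f c h => by
    rw [Finset.sum_filter_of_ne fun m hm h0 => ?_]
    · exact R_sum fun m hm => (hg m hm).mul (h m)
    · have := ((hg m hm).unit (left_ne_zero_of_mul h0)).2
      linarith [(oT m hm).2]
  have g0 : ∀ m ∈ S, g m ≠ 0 := fun m hm e => by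
    obtain ⟨h1, h2⟩ := Finset.mem_filter.1 hm
    have := (R_zero.1 (e ▸ hg m h1)).lt (oT m h1).1
    linarith [(oT m h1).2]
  have inj : ∀ m ∈ S, ∀ m' ∈ S, m 2 = m' 2 → m = m' := fun m hm m' hm' e => by
    obtain ⟨h1, h2⟩ := Finset.mem_filter.1 hm
    obtain ⟨h3, h4⟩ := Finset.mem_filter.1 hm'
    have h5 : m 1 = m' 1 := by
      rw [e] at h2
      exact_mod_cast (by linarith : (m 1 : ℚ) = m' 1)
    have := deg3 hF h1
    have := deg3 hF h3
    ext i
    fin_cases i
    · change m 0 = m' 0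
      omega
    exacts [h5, e]
  have Sne : S.Nonempty := ⟨m0, Finset.mem_filter.2 ⟨hm0, rfl⟩⟩
  have hd : ∀ (j : ℕ) (z : K), ev (dd j F) 1 x (y * z) * (y * z) ^ j / μ =
      ∑ m ∈ F.support, T m * (z ^ m 2 * ((m 2).descFactorial j : K)) := fun j z => by
    rw [ev_dd, Finset.sum_div]
    exact Finset.sum_congr rfl fun m _ => by simp only [T]; ring
  have hd1 : ∀ j : ℕ, P.R (ev (dd j F) 1 x y * y ^ j / μ)
      (∑ m ∈ S, g m * ((m 2).descFactorial j : C)) := fun j => by
    have := hd j 1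
    simp only [mul_one, one_pow, one_mul] at this
    exact this ▸ key _ _ fun m => R_nat _
  have van : ∀ j, ev (dd j F) 1 x y = 0 → ∑ m ∈ S, g m * ((m 2).descFactorial j : C) = 0 :=
    fun j h => R_eq_zero (P := P) (by simpa [h] using hd1 j)
  have hex : ∃ j, ev (dd j F) 1 x y ≠ 0 := by
    by_contra hn
    push Not at hn
    exact lt_irrefl _ (haj S g (fun m => m 2) S.card Sne g0 inj fun j _ => van j (hn j))
  obtain ⟨r, u0, h0⟩ : ∃ r, ev (dd r F) 1 x y ≠ 0 ∧ ∀ j < r, ev (dd j F) 1 x y = 0 :=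
    ⟨Nat.find hex, Nat.find_spec hex, fun j hj => not_not.1 (Nat.find_min hex hj)⟩
  have r1 : 1 ≤ r := Nat.pos_of_ne_zero fun e => u0 (by rw [e]; exact hN)
  have Ry := R_D hx ox y0
  have RI := R_D hx ox I00
  have face : Face S g (fun m => m 1) (fun m => m 2) (fun m => m 0) n r (P.o y) (P.o I0) ν := by
    refine ⟨Sne, g0, fun m hm => (Finset.mem_filter.1 hm).2,
      fun m hm => deg3 hF (Finset.mem_filter.1 hm).1, inj, fun j hj => van j (h0 j hj),
      fun e => ?_⟩
    have Re := R.cst (P := P) e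
    have h1 := key _ _ fun m => ((R_one.add Re).pow (m 1)).mul ((R_one.add (Ry.mul Re)).pow (m 2))
    have h2 := key _ _ fun m => (((R_one.add (RI.mul Re)).pow (m 0)).mul
      ((R_one.add ((RI.sub R_one).mul Re)).pow (m 1))).mul
        ((R_one.add ((RI.sub Ry).mul Re)).pow (m 2))
    simp only [← mul_assoc] at h1 h2
    refine h1.unique ?_
    convert h2 using 1
    have h3 := congrArg (· / μ) (hI 1 (x * algebraMap C K e))
    simp only [ev_sum, Finset.sum_div, hx, Derivation.map_one_eq_zero] at h3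
    convert h3 using 2 with m _ m _
    · rw [show 1 * y + x * algebraMap C K e * D y = y * (1 + x * D y / y * algebraMap C K e) by
        field_simp, show 1 * x + x * algebraMap C K e * 1 = x * (1 + algebraMap C K e) by ring]
      simp only [T, mul_pow]
      ring
    · rw [show (1 + D I0 / I0 * (x * algebraMap C K e)) * y - x * algebraMap C K e * D y =
          y * (1 + (x * D I0 / I0 - x * D y / y) * algebraMap C K e) by field_simp; ring,
        show (1 + D I0 / I0 * (x * algebraMap C K e)) * x - x * algebraMap C K e * 1 =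
          x * (1 + (x * D I0 / I0 - 1) * algebraMap C K e) by ring,
        show (1 + D I0 / I0 * (x * algebraMap C K e)) * 1 - x * algebraMap C K e * 0 =
          1 + x * D I0 / I0 * algebraMap C K e by ring]
      simp only [T, mul_pow]
      ring
  obtain ⟨yy0, oyy⟩ := o_DD hx ox oy
  set u := ev (dd r F) 1 x y with hu
  have u1 : u * y ^ r / μ ≠ 0 := by simp [u0, y0, μ0]
  have ou : P.o (u * y ^ r / μ) = P.o u - (ν - P.o y * r) := by
    rw [o_div (by simp [u0, y0]) μ0, P.mul u0 (by simp [y0]), o_pow, (om m0).2]; ring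
  have hb : 2 * (P.o u + r * (P.o y - 2) / 3) = (n - 2 * r) * P.o I0 := by
    have h1 := (R_nat 2).mul ((R_D hx ox u0).add
      (((R_nat r).mul (R_D hx ox yy0)).div (R_nat 3) (by simp)))
    have h2 := ((R_nat n).sub ((R_nat 2).mul (R_nat r))).mul RI
    have h3 := h1.unique (by
      convert h2 using 1
      push_cast
      linear_combination x * bm hx hF hI h0 hu.symm u0 yy0)
    rw [oyy] at h3
    exact_mod_cast h3
  obtain ⟨γ2, σ0⟩ := face.main oy r1 (σ := P.o u - (ν - P.o y * r))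
    (ou ▸ (hd1 r).G.le u1) (by linarith) hρ
  have cu : ∑ m ∈ S, g m * ((m 2).descFactorial r : C) ≠ 0 := fun e => by
    have := (R_zero.1 (e ▸ hd1 r)).lt u1
    linarith
  have step : ∀ (p : C[X]) (k : ℕ), 2 ≤ k → P.L k (y - aeval x p) →
      P.G (k + 1) (y - aeval x p) := by
    intro p k hk hL
    by_cases e0 : y - aeval x p = 0
    · exact Or.inl e0
    have k2 : (2 : ℚ) ≤ k := by exact_mod_cast hk
    have hlt := hL.lt e0
    obtain ⟨r, rfl⟩ : ∃ r', r = r' + 1 := ⟨r - 1, by omega⟩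
    set η := -(y - aeval x p) / y with hη
    have oη : P.o η = P.o (y - aeval x p) - 2 := by
      rw [hη, o_div (neg_ne_zero.2 e0) y0, o_neg, γ2]
    have η1 : 0 < P.o η := by linarith
    have η0 : η ≠ 0 := ne_zero η1.ne'
    have hp : y * (1 + η) = aeval x p := by rw [hη]; field_simp; ring
    have t2 : Unq.Tr P η (1 + η) 1 := by simpa [Unq.Tr, η0] using R.cst (P := P) 1
    have h1 := key _ _ fun m => R.mul (t2.pow η1 (m 2)) (R_nat ((m 2).descFactorial r))
    have h2 : ∑ m ∈ S, g m * ((m 2 : C) * 1 * ((m 2).descFactorial r : C)) =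
        ∑ m ∈ S, g m * ((m 2).descFactorial (r + 1) : C) := by
      rw [← add_zero (∑ m ∈ S, g m * ((m 2).descFactorial (r + 1) : C)), ← mul_zero (r : C),
        ← van r (h0 r (by omega)), Finset.mul_sum, ← Finset.sum_add_distrib]
      refine Finset.sum_congr rfl fun m _ => ?_
      by_cases h : r ≤ m 2
      · rw [Nat.descFactorial_succ]; push_cast [h]; ring
      · simp [Nat.descFactorial_succ, Nat.descFactorial_of_lt (not_le.1 h)]
    have h3 : ∑ m ∈ F.support, T m * (((1 + η) ^ m 2 - 1) / η * ((m 2).descFactorial r : K)) =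
        ev (dd r F) 1 x (aeval x p) * (aeval x p) ^ r / μ / η := by
      have h4 := hd r 1
      rw [mul_one, h0 r (by omega), zero_mul, zero_div] at h4
      rw [← hp, hd, ← sub_zero (∑ m ∈ F.support, T m * ((1 + η) ^ m 2 * _)), h4,
        ← Finset.sum_sub_distrib, Finset.sum_div]
      exact Finset.sum_congr rfl fun m _ => by ring
    rw [h2, h3] at h1
    obtain ⟨h4, h5⟩ := h1.unit cu
    have h6 : ev (dd r F) 1 x (aeval x p) * (aeval x p) ^ r = aeval x (ev (dd r F) 1 X p * p ^ r) :=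
      by simp [map_ev]
    rw [h6] at h4 h5
    have h7 : ev (dd r F) 1 X p * p ^ r ≠ 0 := fun e => h4 (by simp [e])
    obtain ⟨h8, h9⟩ := o_fin (P := P) (x := x) (c := 0) (by simp [ox]) h7
    rw [o_div (div_ne_zero h8 μ0) η0, o_div h8 μ0, h9, (om m0).2, γ2, oη] at h5
    simp only [map_zero, sub_zero, ox, mul_one] at h5
    refine G.of_le ?_
    have h10 : P.o (y - aeval x p) = ((rootMultiplicity 0 (ev (dd r F) 1 X p * p ^ r) : ℤ) -
        (m0 1 + 2 * m0 2) + 2 : ℤ) := by push_cast; linarith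
    generalize (rootMultiplicity 0 (ev (dd r F) 1 X p * p ^ r) : ℤ) - (m0 1 + 2 * m0 2) + 2 = z
      at h10
    rw [h10] at hlt ⊢
    have h11 : (k : ℤ) < z := by exact_mod_cast hlt
    exact_mod_cast Int.add_one_le_of_lt h11
  have next : ∀ (e : K) (k : ℕ), P.G k e → ∃ a : C, P.L k (e - algebraMap C K a * x ^ k) := by
    intro e k h
    obtain ⟨a, ha⟩ := G.exR (by simpa [ox] using h.div (x ^ k))
    refine ⟨a, ?_⟩
    have := L.mul ha (G.self (x ^ k))
    simp only [o_pow, ox, mul_one, zero_add] at this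
    convert this using 1
    field_simp
  obtain ⟨a2, h2⟩ := next y 2 (G.of_le (by simp [γ2]))
  have h3 := step (Polynomial.C a2 * X ^ 2) 2 le_rfl (by simpa using h2)
  obtain ⟨a3, h4⟩ := next _ 3 (by convert h3 using 1; norm_num)
  have h5 := step (Polynomial.C a2 * X ^ 2 + Polynomial.C a3 * X ^ 3) 3 (by norm_num)
    (by convert h4 using 1; simp; ring)
  have h6 := G_D hx ox (G_D hx ox (G_D hx ox h5))
  have h7 : D (D (D (y - aeval x (Polynomial.C a2 * X ^ 2 + Polynomial.C a3 * X ^ 3)))) =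
      D (D (D y)) - algebraMap C K (6 * a3) := by
    have d2 : D 2 = 0 := by exact_mod_cast D.map_natCast 2
    have d3 : D 3 = 0 := by exact_mod_cast D.map_natCast 3
    simp [hx, Derivation.leibniz_pow, map_ofNat, d2, d3]
    ring
  rw [h7] at h6
  refine ⟨γ2, by simpa using (h6.mono (by norm_num)).add (G.cst (6 * a3)), ?_⟩
  simpa using (G_D hx ox h6).mono (t := 0) (by norm_num)

/-- The form on the absolute conic. -/
noncomputable def ab (F : MvPolynomial (Fin 3) C) (ε : C) : C[X] :=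
  ev F 1 X (Polynomial.C ε * X ^ 2)

omit [CharZero C] [CharZero K] in
lemma aeval_ab (F : MvPolynomial (Fin 3) C) (ε : C) (z : K) :
    aeval z (ab F ε) = ev F 1 z (algebraMap C K ε * z ^ 2) := by simp [ab, map_ev]

/-- A branch that osculates the absolute conic. -/
theorem osc [IsAlgClosed K] {F : MvPolynomial (Fin 3) C} {n : ℕ} {ε : C} (hx : D x = 1)
    (ox : P.o x = 1) (hF : F.IsHomogeneous n) (ε0 : ε ≠ 0) (A0 : ab F ε ≠ 0) (n0 : 0 < n)
    (hI : Inv D F 1 x y (y - algebraMap C K ε * x ^ 2))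
    (hρ : 2 < P.o (y - algebraMap C K ε * x ^ 2)) : n < rootMultiplicity 0 (ab F ε) := by
  have x0 : x ≠ 0 := ne_zero (by simp [ox] : P.o x ≠ 0)
  have e0 : algebraMap C K ε ≠ 0 := by simpa using ε0
  have hD : D (y - algebraMap C K ε * x ^ 2) = D y - 2 * algebraMap C K ε * x := by
    simp [hx, Derivation.leibniz_pow]; ring
  set I0 := y - algebraMap C K ε * x ^ 2 with hI0
  have I00 : I0 ≠ 0 := ne_zero (by linarith : P.o I0 ≠ 0)
  obtain ⟨I1, oI1⟩ := o_D hx ox (by linarith : P.o I0 ≠ 0)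
  obtain ⟨t, ht⟩ := IsAlgClosed.exists_root (Polynomial.C (algebraMap C K ε) * X ^ 2 +
    Polynomial.C (-D I0) * X + Polynomial.C (-I0)) (by rw [degree_quadratic e0]; simp)
  have ht1 : algebraMap C K ε * t ^ 2 = I0 + D I0 * t := by
    simp only [IsRoot.def, eval_add, eval_mul, eval_C, eval_pow, eval_X] at ht
    linear_combination ht
  have t0 : t ≠ 0 := fun e => I00 (by simpa [e] using ht1.symm)
  have ot : 2 * P.o t = P.o I0 := by
    have h1 : P.o (algebraMap C K ε * t ^ 2) = 2 * P.o t := by rw [o_cmul ε0, o_pow]; simp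
    have h2 : P.o (D I0 * t) = P.o I0 - 1 + P.o t := by rw [P.mul I1 t0, oI1]
    rcases lt_trichotomy (P.o t) 1 with h | h | h
    · have := (o_add (mul_ne_zero I1 t0) (L.of_lt (a := I0) (by linarith))).2
      rw [add_comm, ← ht1] at this
      linarith
    · have := ((G.self I0).add (G.of_le (a := D I0 * t) (by linarith))).le
        (ht1 ▸ mul_ne_zero e0 (pow_ne_zero 2 t0))
      rw [← ht1] at this
      linarith
    · have := (o_add I00 (L.of_lt (a := D I0 * t) (by linarith))).2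
      rw [← ht1] at this
      linarith
  set η := t / x with hη
  have η1 : 0 < P.o η := by rw [hη, o_div t0 x0]; linarith
  set w := 1 + D I0 / I0 * t with hw
  have tw : Unq.Tr P η w ((P.o I0 : ℚ) : C) := by
    unfold Unq.Tr
    convert R_D hx ox I00 using 1
    rw [hw, hη]; field_simp; ring
  have w1 := tw.one η1
  have w0 := (w1.unit one_ne_zero).1
  have hw2 : w * I0 = algebraMap C K ε * t ^ 2 := by rw [hw, ht1]; field_simp
  have h1 : aeval (x + t) (ab F ε) = w ^ n * aeval (x - t / w) (ab F ε) := by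
    have := hI 1 t
    rw [aeval_ab, aeval_ab, ← ev_smul hF]
    simp only [hx, Derivation.map_one_eq_zero, mul_zero, mul_one, one_mul, add_zero,
      sub_zero, ← hw] at this
    convert this using 1
    · congr 1
      linear_combination ht1 + hI0 + t * hD
    · have hw3 : w * I0 = I0 + D I0 * t := hw2.trans ht1
      have e1 : w * (x - t / w) = w * x - t := by field_simp
      have e2 : w * (algebraMap C K ε * (x - t / w) ^ 2) = w * y - t * D y := by
        refine mul_left_cancel₀ w0 ?_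
        rw [show w * (w * (algebraMap C K ε * (x - t / w) ^ 2)) =
          algebraMap C K ε * (w * (x - t / w)) ^ 2 by ring, e1]
        linear_combination w ^ 2 * hI0 - w * t * hD - w * hw3 - hw2
      rw [e1, e2, mul_one]
  obtain ⟨U, hU, U0⟩ := exists_eq_pow_rootMultiplicity_mul_and_not_dvd _ A0 0
  rw [dvd_iff_isRoot] at U0
  generalize rootMultiplicity 0 (ab F ε) = a at *
  have Rx : P.R x 0 := R_zero.2 (L.of_lt (by simp [ox]))
  have Gt : P.G (P.o η + 1) t := G.of_le (by rw [hη, o_div t0 x0]; linarith)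
  have Gt' : P.G (P.o η + 1) (t / w) := by simpa [(w1.unit one_ne_zero).2] using Gt.div w
  have R1 : P.R (x + t) 0 := by simpa using Rx.add (R_zero.2 (Gt.L (by linarith)))
  have R2 : P.R (x - t / w) 0 := by simpa using Rx.sub (R_zero.2 (Gt'.L (by linarith)))
  obtain ⟨u0, u1⟩ := (R2.aeval U).unit U0
  have η0 : η ≠ 0 := ne_zero η1.ne'
  have t1 : Unq.Tr P η (1 + η) 1 := by simpa [Unq.Tr, η0] using R.cst (P := P) 1
  have t2 : Unq.Tr P η (1 - η / w) (-1) := by
    unfold Unq.Tr
    convert (w1.inv one_ne_zero).neg using 1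
    · field_simp; ring
    · simp
  have t3 : Unq.Tr P η (aeval (x + t) U / aeval (x - t / w) U) 0 := by
    have := ((Unq.aeval_sub R1.G R2.G (s := P.o η + 1) (by
      convert Gt.add Gt' using 1; ring) U).div (aeval (x - t / w) U)).div η
    refine R_zero.2 ?_
    convert this.L (t := 0) (by linarith) using 1
    rw [sub_div (aeval (x + t) U), div_self u0]
  have t4 := ((t1.pow η1 a).mul η1 ((t2.pow η1 a).inv η1)).mul η1 t3
  have x1 : 1 - η / w ≠ 0 := ((t2.one η1).unit one_ne_zero).1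
  have h2 : (1 + η) ^ a * ((1 - η / w) ^ a)⁻¹ * (aeval (x + t) U / aeval (x - t / w) U) =
      w ^ n := by
    rw [hU] at h1
    simp only [map_zero, sub_zero, map_mul, map_pow, aeval_X] at h1
    have e1 : x + t = x * (1 + η) := by rw [hη]; field_simp
    have e2 : x - t / w = x * (1 - η / w) := by rw [hη]; field_simp
    generalize aeval (x + t) U = p at *
    generalize aeval (x - t / w) U = q at *
    rw [e1, e2, mul_pow, mul_pow] at h1
    have x2 := pow_ne_zero a x1
    generalize (1 - η / w) ^ a = z at *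
    field_simp
    refine mul_left_cancel₀ (pow_ne_zero a x0) ?_
    linear_combination h1
  rw [h2] at t4
  have h3 := R.unique t4 (tw.pow η1 n)
  have h4 : (a : ℚ) * 2 = n * P.o I0 := by
    have : ((a : ℚ) * 2 : ℚ) = ((n * P.o I0 : ℚ) : C) := by push_cast; linear_combination h3
    exact_mod_cast this
  have n1 : (0 : ℚ) < n := by exact_mod_cast n0
  have : (n : ℚ) < a := by nlinarith
  exact_mod_cast this

end Pool.Agent.MP_249f74_an.H22
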