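import Pool.Agent.MP_249f74_an.H22.Chart

/-!
A curve whose billiard (on the sphere or on the plane) has a polynomial integral is a conic.
-/

namespace Pool.Agent.MP_249f74_an.H22

open H17 (Der)
open H53 H53.Pl
open MvPolynomial (X)
open scoped Polynomial

variable {C K : Type} [Field C] [Field K] [Algebra C K]

/-- The absolute. -/
noncomputable def Abs (ε : C) : MvPolynomial (Fin 3) C := X 0 * X 2 - MvPolynomial.C ε * X 1 ^ 2

lemma ev_Abs {A : Type} [CommRing A] [Algebra C A] (ε : C) (u v w : A) :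
    ev (Abs ε) u v w = u * w - algebraMap C A ε * v ^ 2 := by simp [Abs]

lemma hom_Abs (ε : C) : (Abs ε).IsHomogeneous 2 :=
  ((MvPolynomial.isHomogeneous_X _ 0).mul (MvPolynomial.isHomogeneous_X _ 2)).sub
    (MvPolynomial.isHomogeneous_C_mul_X_pow _ _ _)

variable {d : Der C K} {F : MvPolynomial (Fin 3) C} {n : ℕ} {ε : C} {x y n0 n1 n2 : K}

lemma inv_Abs (h : n0 * n2 - algebraMap C K ε * n1 ^ 2 ≠ 0) :
    Inv d (Abs ε) n0 n1 n2 (n0 * n2 - algebraMap C K ε * n1 ^ 2) := fun s t => by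
  simp only [ev_Abs]
  have h1 := mul_div_cancel₀ (d (n0 * n2 - algebraMap C K ε * n1 ^ 2)) h
  generalize d (n0 * n2 - algebraMap C K ε * n1 ^ 2) / _ = w at h1 ⊢
  simp [Derivation.leibniz_pow] at h1
  linear_combination (-2 * s * t - w * t ^ 2) * h1

lemma ab_deg (hF : F.IsHomogeneous n) (ε : C) : (ab F ε).natDegree ≤ 2 * n := by
  rw [ab, ev_sum]
  refine Polynomial.natDegree_sum_le_of_forall_le _ _ fun m hm => ?_
  have := deg3 hF hm
  rw [one_pow, one_mul, mul_pow, ← pow_mul, ← map_pow, Polynomial.algebraMap_eq]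
  refine (Polynomial.natDegree_C_mul_le _ _).trans (Polynomial.natDegree_mul_le.trans ?_)
  have := Polynomial.natDegree_C_mul_X_pow_le (ε ^ m 2) (2 * m 2)
  rw [Polynomial.natDegree_X_pow]
  omega

lemma big_root {A : Polynomial C} (hA : A.natDegree ≤ 2 * n) :
    ∃ s, ∀ t, t ≠ s → A.rootMultiplicity t ≤ n := by
  classical
  by_contra hn
  push Not at hn
  obtain ⟨s, -, hs⟩ := hn 0
  obtain ⟨t, ht, ht'⟩ := hn s
  have : Multiset.replicate (n + 1) s + Multiset.replicate (n + 1) t ≤ A.roots :=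
    Multiset.le_iff_count.2 fun a => by
      rw [Multiset.count_add, Multiset.count_replicate, Multiset.count_replicate,
        Polynomial.count_roots]
      split_ifs with h1 h2 h2 <;> subst_vars <;> first | omega | exact absurd rfl ht
  have h1 := Multiset.card_le_card this
  have h2 := A.card_roots'
  simp at h1
  omega

lemma con_tr {s a b : C} (h : Con C (x - algebraMap C K s)
    (y - algebraMap C K a * x + algebraMap C K b)) : Con C x y := by
  obtain ⟨p, q, r, e, f, g, h0, h⟩ := h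
  refine ⟨p - a * q + a ^ 2 * r, q - 2 * a * r, r, -2 * s * p + q * (b + a * s) - 2 * a * b * r +
    e - a * f, -s * q + 2 * b * r + f, p * s ^ 2 - q * s * b + r * b ^ 2 - e * s + f * b + g,
    fun ⟨h1, h2, h3, h4, h5, h6⟩ => h0 ?_, ?_⟩
  · subst h3
    obtain rfl : q = 0 := by simpa using h2
    obtain rfl : p = 0 := by simpa using h1
    obtain rfl : f = 0 := by simpa using h5
    obtain rfl : e = 0 := by simpa using h4
    simpa using h6
  · simp only [map_add, map_sub, map_mul, map_pow, map_neg, map_ofNat]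
    linear_combination h

lemma hom_div {Q G : MvPolynomial (Fin 3) C} {k : ℕ} (hF : F.IsHomogeneous n) (F0 : F ≠ 0)
    (hQ : Q.IsHomogeneous k) (h : F = Q * G) :
    ∃ (m : ℕ) (G : MvPolynomial (Fin 3) C), n = k + m ∧ G.IsHomogeneous m ∧ F = Q * G := by
  have h1 := congrArg (MvPolynomial.homogeneousComponent n) h
  rw [MvPolynomial.homogeneousComponent_of_mem hF, if_pos rfl, ← G.sum_homogeneousComponent,
    Finset.mul_sum, map_sum] at h1
  have h2 : ∀ i, MvPolynomial.homogeneousComponent n (Q * MvPolynomial.homogeneousComponent i G) =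
      if n = k + i then Q * MvPolynomial.homogeneousComponent i G else 0 := fun i =>
    MvPolynomial.homogeneousComponent_of_mem
      (hQ.mul (MvPolynomial.homogeneousComponent_isHomogeneous i G))
  obtain ⟨m, hm, h3⟩ := Finset.exists_ne_zero_of_sum_ne_zero (h1 ▸ F0)
  have h4 : n = k + m := by_contra fun e => h3 (by rw [h2, if_neg e])
  refine ⟨m, _, h4, MvPolynomial.homogeneousComponent_isHomogeneous m G, ?_⟩
  rw [h1, Finset.sum_eq_single m (fun i _ e => by rw [h2, if_neg (by omega)]) fun e => absurd hm e,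
    h2, if_pos h4]

variable [CharZero C]

lemma abs_dvd (hF : F.IsHomogeneous n) (F0 : F ≠ 0) (ε0 : ε ≠ 0) (h : ab F ε = 0) :
    ∃ (m : ℕ) (G : MvPolynomial (Fin 3) C), n = 2 + m ∧ G.IsHomogeneous m ∧ F = Abs ε * G := by
  have h1 : ev F (X 0 * X 0) (X 0 * X 1) (MvPolynomial.C ε * X 1 ^ 2 : MvPolynomial (Fin 3) C) =
      0 := by
    refine (mul_eq_zero.1 (eq_zero_of_ev fun u v w => ?_)).resolve_left (MvPolynomial.X_ne_zero 0)
    by_cases u0 : u = 0
    · simp [u0]
    have h2 := aeval_ab F ε (v / u)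
    have h3 := ev_smul hF (u * u) 1 (v / u) (algebraMap C C ε * (v / u) ^ 2)
    rw [← h2, h, map_zero, mul_zero, mul_one, show u * u * (v / u) = u * v by field_simp,
      show u * u * (algebraMap C C ε * (v / u) ^ 2) = algebraMap C C ε * v ^ 2 by field_simp] at h3
    simp only [ev_mul, ev_ev, ev_X0, ev_X1, ev_C, ev_pow, h3, mul_zero]
  have h2 : Abs ε ∣ X 0 ^ n * F := by
    have h3 := ev_smul hF (X 0 : MvPolynomial (Fin 3) C) (X 0) (X 1) (X 2)
    have h4 : ev F (X 0) (X 1) (X 2) = F := by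
      rw [ev, show ![X 0, X 1, X 2] = (X : Fin 3 → MvPolynomial (Fin 3) C) from
        funext fun i => by fin_cases i <;> rfl, MvPolynomial.aeval_X_left_apply]
    rw [h4] at h3
    rw [← h3, ← sub_zero (ev ..), ← h1, ← Ideal.mem_span_singleton, ← Ideal.Quotient.eq,
      ← Ideal.Quotient.mkₐ_eq_mk C, map_ev, map_ev]
    congr 1
    exact Ideal.Quotient.eq.2 (Ideal.mem_span_singleton_self _)
  obtain ⟨G, hG⟩ := h2
  obtain ⟨G, rfl⟩ : X 0 ^ n ∣ G := MvPolynomial.X_prime.pow_dvd_of_dvd_mul_left n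
    (fun ⟨q, hq⟩ => ε0 (by simpa [ev_Abs] using congrArg (fun p => ev p (0 : C) 1 0) hq)) ⟨F, hG.symm⟩
  rw [mul_left_comm] at hG
  exact hom_div hF F0 (hom_Abs ε) (mul_left_cancel₀ (pow_ne_zero n (MvPolynomial.X_ne_zero 0)) hG)

omit [CharZero C] in
/-- Division of an invariant form by an invariant form. -/
lemma Inv.div [CharZero K] {G Q : MvPolynomial (Fin 3) C} {I0 : K} (hQ : Inv d Q n0 n1 n2 I0)
    (Q0 : ∃ s t, ev Q (s * n0 + t * d n0) (s * n1 + t * d n1) (s * n2 + t * d n2) ≠ 0)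
    (h : Inv d (Q * G) n0 n1 n2 I0) : Inv d G n0 n1 n2 I0 := fun s t => by
  obtain ⟨s', t', Q0⟩ := Q0
  let a : K[X] := Polynomial.C s + Polynomial.C (s' - s) * Polynomial.X
  let b : K[X] := Polynomial.C t + Polynomial.C (t' - t) * Polynomial.X
  let l : K → K[X] := fun m => a * Polynomial.C m + b * Polynomial.C (d m)
  let r : K → K[X] := fun m =>
    (a + Polynomial.C (d I0 / I0) * b) * Polynomial.C m - b * Polynomial.C (d m)
  have e : ∀ (H : MvPolynomial (Fin 3) C) (z : K) (p q r : K[X]), (ev H p q r).eval z =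
      ev H (p.eval z) (q.eval z) (r.eval z) := fun H z p q r =>
    map_ev ((Polynomial.aeval z : K[X] →ₐ[K] K).restrictScalars C) p q r
  have h1 : ev Q (l n0) (l n1) (l n2) * ev G (l n0) (l n1) (l n2) =
      ev Q (l n0) (l n1) (l n2) * ev G (r n0) (r n1) (r n2) := Polynomial.funext fun z => by
    have h2 := h (a.eval z) (b.eval z)
    rw [ev_mul, ev_mul, ← hQ] at h2
    simpa [e, l, r] using h2
  have := congrArg (Polynomial.eval 0) (mul_left_cancel₀ (fun h => Q0 (by
    simpa [e, l, a, b] using congrArg (Polynomial.eval 1) h)) h1)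
  simpa [e, l, r, a, b] using this

variable [CharZero K] [IsAlgClosed C] [IsAlgClosed K]

theorem core (hF : Fld d) (h : Dat d F n 1 x y (y - algebraMap C K ε * x ^ 2))
    (hs : ∀ s, ε * s ≠ 0 → ab F ε ≠ 0 ∧ (ab F ε).rootMultiplicity s ≤ n) : Con C x y := by
  by_cases W0 : W3 d 1 x y = 0
  · exact con_of_W3 hF W0
  obtain ⟨φ, hφ⟩ := IsAlgClosed.exists_pow_nat_eq (W3 d 1 x y)⁻¹ (by norm_num : 0 < 3)
  have h1 : φ ^ 3 * W3 d 1 x y = 1 := by rw [hφ, inv_mul_cancel₀ W0]
  obtain ⟨k, hk⟩ := hF.const fun P => integral P h h1 hs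
  exact con_of_kap hF h1 hk

theorem con_of_dat (hF : Fld d) (h : Dat d F n 1 x y (y - algebraMap C K ε * x ^ 2)) :
    Con C x y := by
  by_cases ε0 : ε = 0
  · exact core hF h fun s e => absurd (by simp [ε0]) e
  induction n using Nat.strong_induction_on generalizing F with | _ n ih =>
  by_cases A0 : ab F ε = 0
  · obtain ⟨m, G, rfl, hG, rfl⟩ := abs_dvd h.hom h.ne ε0 A0
    have h1 := h.van
    rw [ev_mul, ev_Abs, one_mul] at h1
    refine ih m (by omega) ⟨hG, right_ne_zero_of_mul h.ne, (mul_eq_zero.1 h1).resolve_left h.nz,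
      h.nz, Inv.div ?_ ⟨1, 0, by simpa [ev_Abs] using h.nz⟩ h.inv⟩
    simpa using inv_Abs (d := d) (n0 := 1) (n1 := x) (n2 := y) (by simpa using h.nz)
  obtain ⟨s, hs⟩ := big_root (ab_deg h.hom ε)
  refine con_tr (s := s) (a := 2 * ε * s) (b := ε * s ^ 2) (core (ε := ε) hF (Dat.lin (a0 := 1)
    (b0 := 0) (c0 := 0) (a1 := s) (b1 := 1) (c1 := 0) (a2 := ε * s ^ 2) (b2 := 2 * ε * s) (c2 := 1)
    (by simp [Matrix.det_fin_three]) (by
      convert h using 1 <;> simp [ev_lin, map_ofNat] <;> ring)) fun t ht => ?_)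
  rw [ab_tr, Ne, Polynomial.comp_X_add_C_eq_zero_iff, Polynomial.rootMultiplicity_eq_rootMultiplicity,
    Polynomial.comp_assoc]
  have := hs (t + s) (by simpa using right_ne_zero_of_mul ht)
  rw [Polynomial.rootMultiplicity_eq_rootMultiplicity] at this
  exact ⟨A0, by simpa [add_assoc] using this⟩

omit [IsAlgClosed C] [IsAlgClosed K] in
/-- An invariant form is constant along the curve. -/
lemma Inv.const {h : ℕ} {I0 : K} (hF : Fld d) (hom : F.IsHomogeneous (2 * h)) (x0 : d x ≠ 0)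
    (I00 : I0 ≠ 0) (hI : Inv d F 1 x y I0) : ∃ c, ev F 1 x y = algebraMap C K c * I0 ^ h := by
  have hd : ∀ g, d g = d x * ((d x)⁻¹ • d) g := fun g => by simp [x0]
  have h1 := first (x := x) (by simp [x0]) hom (Inv.scale (μ := 1) hd x0 one_ne_zero I00 (by simpa using hI))
  obtain ⟨c, hc⟩ := hF.cst (ev F 1 x y / I0 ^ h) (by
    rw [hd]
    generalize (d x)⁻¹ • d = D at h1
    have h2 : D (ev F 1 x y) = h * (D I0 / I0) * ev F 1 x y := by
      push_cast at h1
      linear_combination h1 / 2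
    rcases h with _ | h <;> simp [Derivation.leibniz_div, Derivation.leibniz_pow, h2]
    field_simp
    simp [pow_succ'])
  exact ⟨c, by rw [← hc]; field_simp⟩

/-- The affine form of the theorem. -/
theorem pcc (hF : Fld d) {h : ℕ} (hom : F.IsHomogeneous (2 * h))
    (hne : ∀ c, F ≠ MvPolynomial.C c * Abs ε ^ h)
    (hI : Inv d F 1 x y (y - algebraMap C K ε * x ^ 2)) : Con C x y := by
  by_cases I00 : y - algebraMap C K ε * x ^ 2 = 0
  · exact ⟨-ε, 0, 0, 0, 1, 0, by simp, by simpa [sub_eq_neg_add] using I00⟩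
  by_cases x0 : d x = 0
  · exact con_of_W3 hF (by simp [W3, x0])
  obtain ⟨c, hc⟩ := hI.const hF hom x0 I00
  have h1 := inv_Abs (d := d) (ε := ε) (n0 := 1) (n1 := x) (n2 := y) (by simpa using I00)
  rw [one_mul] at h1
  refine con_of_dat (F := F - MvPolynomial.C c * Abs ε ^ h) hF
    ⟨hom.sub (((hom_Abs ε).pow h).C_mul c), sub_ne_zero.2 (hne c), by simp [hc, ev_Abs], I00,
      fun s t => ?_⟩
  simp only [ev_sub, ev_mul, ev_pow, ev_C, hI s t, h1 s t]

end Pool.Agent.MP_249f74_an.H22
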