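import Pool.Agent.MP_249f74_an.H22.Root

/-!
The theorem over an arbitrary field of constants.
-/

namespace Pool.Agent.MP_249f74_an.H22

open H17 (Der)
open H53
open H88 (cl subset_cl)
open IntermediateField

variable {k L Ω : Type} [Field k] [Field L] [Algebra k L] [Field Ω] {δ : Der k L}

/-- Linear disjointness from the constants. -/
lemma ld_fin (hc : ∀ g, δ g = 0 → ∃ c, g = algebraMap k L c) (ψ : L →+* Ω) (D : Derivation ℤ Ω Ω)
    (hD : ∀ a, D (ψ a) = ψ (δ a)) {ι : Type} (S : Finset ι) (c : ι → Ω) (c0 : ∀ i, D (c i) = 0) :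
    ∀ m : ι → L, (∀ a : ι → k, ∑ i ∈ S, algebraMap k L (a i) * m i = 0 → ∀ i ∈ S, a i = 0) →
      ∑ i ∈ S, c i * ψ (m i) = 0 → ∀ i ∈ S, c i = 0 := by
  classical
  induction S using Finset.induction_on with
  | empty => simp
  | insert j S hj ih =>
    intro m hm h
    have up : ∀ (a : ι → k) (b : k), ∑ i ∈ S, algebraMap k L (a i) * m i = algebraMap k L b * m j →
        b = 0 ∧ ∀ i ∈ S, a i = 0 := fun a b e => by
      have := hm (Function.update a j (-b)) (by
        rw [Finset.sum_insert hj, Finset.sum_congr rfl fun i hi => by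
          rw [Function.update_of_ne (ne_of_mem_of_not_mem hi hj)], e]
        simp)
      exact ⟨by simpa using this j (by simp), fun i hi => by
        simpa [ne_of_mem_of_not_mem hi hj] using this i (by simp [hi])⟩
    have m0 : m j ≠ 0 := fun e => one_ne_zero (up 0 1 (by simp [e])).1
    have p0 : ψ (m j) ≠ 0 := by simpa using m0
    rw [Finset.sum_insert hj] at h
    have h1 := ih (fun i => δ (m i / m j)) (fun a e => ?_) ?_
    · rw [Finset.sum_eq_zero fun i hi => by rw [h1 i hi, zero_mul], add_zero] at h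
      exact Finset.forall_mem_insert _ _ _ |>.2 ⟨(mul_eq_zero.1 h).resolve_right p0, h1⟩
    · obtain ⟨b, hb⟩ := hc (∑ i ∈ S, algebraMap k L (a i) * (m i / m j)) (by simpa using e)
      refine (up a b ?_).2
      rw [← hb, Finset.sum_mul]
      exact Finset.sum_congr rfl fun i _ => by field_simp
    · have h2 : ∑ i ∈ S, c i * ψ (m i / m j) = -c j := by
        refine mul_right_cancel₀ p0 ?_
        rw [Finset.sum_mul, neg_mul, neg_eq_of_add_eq_zero_right h]
        exact Finset.sum_congr rfl fun i _ => by rw [map_div₀]; field_simp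
      simpa [c0, hD, -map_div₀] using congrArg D h2

lemma Inv.ext [Infinite L] [Algebra k Ω] (ψ : L →ₐ[k] Ω) {d : Ω → Ω} (hd : ∀ a, d (ψ a) = ψ (δ a))
    {G : MvPolynomial (Fin 3) k} {u v w I0 : L} (h : Inv δ G u v w I0) (s t : Ω) :
    ev G (s * ψ u + t * d (ψ u)) (s * ψ v + t * d (ψ v)) (s * ψ w + t * d (ψ w)) =
      ev G ((s + d (ψ I0) / ψ I0 * t) * ψ u - t * d (ψ u))
        ((s + d (ψ I0) / ψ I0 * t) * ψ v - t * d (ψ v))
        ((s + d (ψ I0) / ψ I0 * t) * ψ w - t * d (ψ w)) := by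
  let l : L → MvPolynomial (Fin 2) L := fun m =>
    MvPolynomial.X 0 * MvPolynomial.C m + MvPolynomial.X 1 * MvPolynomial.C (δ m)
  let r : L → MvPolynomial (Fin 2) L := fun m =>
    (MvPolynomial.X 0 + MvPolynomial.C (δ I0 / I0) * MvPolynomial.X 1) * MvPolynomial.C m -
      MvPolynomial.X 1 * MvPolynomial.C (δ m)
  have h1 : ev G (l u) (l v) (l w) = ev G (r u) (r v) (r w) := MvPolynomial.funext fun x => by
    have e := map_ev (F := G) ((MvPolynomial.aeval x : _ →ₐ[L] L).restrictScalars k)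
    simp only [AlgHom.restrictScalars_apply, MvPolynomial.aeval_eq_eval] at e
    rw [e, e]
    simpa [l, r] using h (x 0) (x 1)
  have := congrArg (MvPolynomial.aevalTower ψ ![s, t]) h1
  rw [map_ev, map_ev] at this
  simpa [l, r, hd] using this

variable [CharZero k]

lemma con3_desc (hc : ∀ g, δ g = 0 → ∃ c, g = algebraMap k L c) (ψ : L →+* Ω)
    (D : Derivation ℤ Ω Ω) (hD : ∀ a, D (ψ a) = ψ (δ a)) {C : Type} [Field C] [CharZero C]
    [Algebra C Ω] (D0 : ∀ c, D (algebraMap C Ω c) = 0) {u v w : L}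
    (h1 : Con3 C (ψ u) (ψ v) (ψ w)) : Con3 k u v w := by
  obtain ⟨a, b, c, e, f, g, h0, h1⟩ := con3_iff.1 h1
  by_contra hn
  have := ld_fin hc ψ D hD Finset.univ (fun i => algebraMap C Ω (![a, b, c, e, f, g] i))
    (fun _ => D0 _) ![u ^ 2, v ^ 2, w ^ 2, u * v, u * w, v * w] (fun a e i _ => by
      by_contra h
      refine hn (con3_iff.2 ⟨a 0, a 1, a 2, a 3, a 4, a 5, fun ⟨_, _, _, _, _, _⟩ => h ?_,
        by simpa [Fin.sum_univ_six] using e⟩)
      fin_cases i <;> assumption) (by simpa [Fin.sum_univ_six] using h1)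
  simp only [Finset.mem_univ, map_eq_zero, forall_true_left] at this
  exact h0 ⟨this 0, this 1, this 2, this 3, this 4, this 5⟩

variable [CharZero L]

/-- The theorem over an arbitrary field `k` of constants; the absolute `B` is anisotropic on the
pencil. -/
theorem pcc_real (hc : ∀ g, δ g = 0 → ∃ c, g = algebraMap k L c) {t : L} (t0 : δ t ≠ 0)
    (alg : ∀ g : L, IsAlgebraic k⟮t⟯ g) {B G : MvPolynomial (Fin 3) k} {h : ℕ} {u v w : L}
    (hB : B.IsHomogeneous 2) (B1 : ∀ z, ev B (u + z * δ u) (v + z * δ v) (w + z * δ w) ≠ 0)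
    (B2 : ev B (δ u) (δ v) (δ w) ≠ 0) (hom : G.IsHomogeneous (2 * h))
    (hne : ∀ c, G ≠ MvPolynomial.C c * B ^ h) (inv : Inv δ G u v w (ev B u v w)) :
    Con3 k u v w ∧ Con3 k (v * δ w - w * δ v) (w * δ u - u * δ w) (u * δ v - v * δ u) := by
  refine (fun h => ⟨h, h.cross⟩) ?_
  let C := AlgebraicClosure k
  let Ω := AlgebraicClosure L
  let φ : C →ₐ[k] Ω := IsAlgClosed.lift
  let : Algebra C Ω := φ.toAlgebra
  have : IsScalarTower k C Ω := .of_algebraMap_eq fun x => (φ.commutes x).symm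
  let ψ := IsScalarTower.toAlgHom k L Ω
  obtain ⟨D, hD⟩ := H17.ext_int ψ.toRingHom (ψ.toRingHom.toAddMonoidHom.comp δ.toLinearMap.toAddMonoidHom)
    (fun a b => by simp) fun a e => by simp [(map_eq_zero ψ).1 e]
  replace hD : ∀ a, D (ψ a) = ψ (δ a) := hD
  have D0 : ∀ c : C, D (algebraMap C Ω c) = 0 := fun c =>
    H17.kill_cl (δ := H17.toDer (C := k) D fun c => by rw [← ψ.commutes, hD]; simp) (S := ∅)
      (by simp) (((Algebra.IsAlgebraic.isAlgebraic (R := k) c).algHom φ).extendScalars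
        (algebraMap k _).injective)
  have em : ∀ (P : MvPolynomial (Fin 3) k) (a b c : Ω),
      ev (MvPolynomial.map (algebraMap k C) P) a b c = ev P a b c := fun P a b c =>
    MvPolynomial.aeval_map_algebraMap C _ P
  have mem : ∀ g, ψ g ∈ cl C {ψ t} := fun g => by
    have h1 := H17.map_mem_cl ψ (H17.cl_adjoin (C := k) {t} ▸ H17.mem_cl_iff.2 (alg g))
    rw [Set.image_singleton] at h1
    exact IsAlgebraic.tower_top_of_subalgebra_le
      (B := (Algebra.adjoin C {ψ t}).restrictScalars k) (Algebra.adjoin_le Algebra.subset_adjoin) h1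
  have B0 : ev B u v w ≠ 0 := by simpa using B1 0
  have h1 : Con3 C (ψ u) (ψ v) (ψ w) := by
    refine scc_gen (d := H17.toDer D D0) (t := ψ t) (by simpa [hD] using t0) (mem u) (mem v) (mem w)
      (hB.map (algebraMap k C)) (fun a b c e => ?_) (by rw [em, ← map_ev]; simpa using B0)
      (hom.map (algebraMap k C)) (fun c e => ?_) fun a b => ?_
    · have e1 : ∀ x y z : L, ψ (ev B x y z) = ev (lin a b c) (ψ x) (ψ y) (ψ z) ^ 2 := fun x y z => by
        rw [map_ev, ← em, e, ev_pow]
      have e2 := der_two hB δ u v w 1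
      simp only [one_mul, one_pow] at e2
      refine B1 (-δ (ev B u v w) / (2 * ev B (δ u) (δ v) (δ w))) ?_
      have e3 : δ (ev B u v w) ^ 2 = 4 * ev B u v w * ev B (δ u) (δ v) (δ w) := ψ.injective (by
        have e4 := e1 (u + 1 * δ u) (v + 1 * δ v) (w + 1 * δ w)
        rw [e2] at e4
        simp only [map_add, map_mul, map_pow, map_one, e1, ev_lin] at e4
        change ψ _ = ψ _
        simp only [map_mul, map_pow, map_ofNat, e1, ev_lin]
        rw [show ψ (δ (ev B u v w)) = 2 * (algebraMap C Ω a * ψ u + algebraMap C Ω b * ψ v +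
          algebraMap C Ω c * ψ w) * (algebraMap C Ω a * ψ (δ u) + algebraMap C Ω b * ψ (δ v) +
          algebraMap C Ω c * ψ (δ w)) by linear_combination e4]
        ring)
      rw [e2]
      field_simp
      linear_combination -e3
    · have e1 : ψ (ev G u v w / ev B u v w ^ h) = algebraMap C Ω c := by
        have := (map_ne_zero ψ).2 B0
        rw [map_div₀, map_pow, map_ev ψ (F := G), ← em, e, ev_mul, ev_pow, ev_C, em, ← map_ev,
          mul_div_cancel_right₀ _ (pow_ne_zero _ this)]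
      obtain ⟨c', hc'⟩ := hc (ev G u v w / ev B u v w ^ h)
        ((map_eq_zero ψ).1 (by rw [← hD, e1, D0]))
      rw [hc', ψ.commutes, IsScalarTower.algebraMap_apply k C Ω] at e1
      exact hne c' (MvPolynomial.map_injective _ (algebraMap k C).injective
        (by simp [e, ← (algebraMap C Ω).injective e1]))
    · rw [em, em, em, ← map_ev ψ]
      exact inv.ext ψ hD a b
  exact con3_desc hc ψ.toRingHom D hD D0 h1

end Pool.Agent.MP_249f74_an.H22
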