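import Pool.Agent.MP_249f74_an.H22.Lev
import Pool.Agent.MP_249f74_an.H88.Deriv

/-!
An arbitrary absolute of rank at least two, and invariant zero sets.
-/

namespace Pool.Agent.MP_249f74_an.H22

open H17 (Der)
open H53
open H88 (cl subset_cl)
open MvPolynomial (X pderiv)
open Matrix

variable {C K : Type} [Field C] [Field K] [Algebra C K] {d : Der C K}
  {F G Q I : MvPolynomial (Fin 3) C} {u v w s t : K} {h n : ℕ}

lemma ev_X (F : MvPolynomial (Fin 3) C) : ev F (X 0) (X 1) (X 2) = F := by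
  rw [ev, show ![X 0, X 1, X 2] = (X : Fin 3 → MvPolynomial (Fin 3) C) from
    funext fun i => by fin_cases i <;> rfl, MvPolynomial.aeval_X_left_apply]

lemma ev_vec {A : Type} [CommRing A] [Algebra C A] (F : MvPolynomial (Fin 3) C) (y : Fin 3 → A) :
    ev F (y 0) (y 1) (y 2) = MvPolynomial.aeval y F := by
  rw [ev, show ![y 0, y 1, y 2] = y from funext fun i => by fin_cases i <;> rfl]

lemma ev_pull_inv {M N : Matrix (Fin 3) (Fin 3) C} (h : N * M = 1) (G : MvPolynomial (Fin 3) C)
    {A : Type} [CommRing A] [Algebra C A] (a b c : A) :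
    ev (pull G N) (ev (lin (M 0 0) (M 0 1) (M 0 2)) a b c) (ev (lin (M 1 0) (M 1 1) (M 1 2)) a b c)
      (ev (lin (M 2 0) (M 2 1) (M 2 2)) a b c) = ev G a b c := by
  rw [pull, ev_ev, ev_lin_inv h, ev_lin_inv h, ev_lin_inv h]
  rfl

/-- A factor of a form is a form. -/
lemma hom_of_mul (h : (F * G).IsHomogeneous n) (h0 : F * G ≠ 0) : ∃ m, F.IsHomogeneous m := by
  let r : MvPolynomial (Fin 3) C →ₐ[C] Polynomial (MvPolynomial (Fin 3) C) := MvPolynomial.aeval
    ![Polynomial.X * Polynomial.C (X 0), Polynomial.X * Polynomial.C (X 1),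
      Polynomial.X * Polynomial.C (X 2)]
  have r1 : ∀ {P : MvPolynomial (Fin 3) C} {k : ℕ}, P.IsHomogeneous k →
      r P = Polynomial.monomial k P := fun {P k} hP => by
    have := map_ev (F := P) (Polynomial.CAlgHom (R := C)) (X 0 : MvPolynomial (Fin 3) C) (X 1) (X 2)
    rw [ev_X] at this
    refine (ev_smul hP _ _ _ _).trans ?_
    rw [← Polynomial.C_mul_X_pow_eq_monomial, mul_comm]
    exact congrArg (· * _) this.symm
  have r2 : ∀ P k, (r P).coeff k = MvPolynomial.homogeneousComponent k P := fun P k => by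
    conv_lhs => rw [← P.sum_homogeneousComponent]
    simp only [map_sum, r1 (MvPolynomial.homogeneousComponent_isHomogeneous _ P),
      Polynomial.finsetSum_coeff, Polynomial.coeff_monomial, Finset.sum_ite_eq', Finset.mem_range]
    split_ifs with h
    · rfl
    · exact (MvPolynomial.homogeneousComponent_eq_zero _ _ (by omega)).symm
  have e := r1 h
  rw [map_mul] at e
  have n0 : r F * r G ≠ 0 := by rw [e]; simpa using h0
  have e1 := Polynomial.natDegree_mul (left_ne_zero_of_mul n0) (right_ne_zero_of_mul n0)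
  have e2 := Polynomial.natTrailingDegree_mul (left_ne_zero_of_mul n0) (right_ne_zero_of_mul n0)
  rw [e, Polynomial.natDegree_monomial_eq _ h0] at e1
  rw [e, Polynomial.natTrailingDegree_monomial h0] at e2
  have l1 := Polynomial.natTrailingDegree_le_natDegree (r F)
  have l2 := Polynomial.natTrailingDegree_le_natDegree (r G)
  refine ⟨(r F).natDegree, fun m hm => ?_⟩
  have : (r F).coeff m.degree ≠ 0 := fun z => hm (by
    have := congrArg (MvPolynomial.coeff m) z
    rwa [r2, MvPolynomial.coeff_homogeneousComponent, if_pos rfl] at this)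
  have h1 := Polynomial.le_natDegree_of_ne_zero this
  have h2 := Polynomial.natTrailingDegree_le_of_ne_zero this
  have h3 : Finsupp.weight 1 m = m.degree := by rw [Finsupp.degree_eq_weight_one]; rfl
  omega

lemma ind_row (h : W3 d u v w ≠ 0) {x y z : K} (h0 : x * u + y * v + z * w = 0)
    (h1 : x * d u + y * d v + z * d w = 0) (h2 : x * d (d u) + y * d (d v) + z * d (d w) = 0) :
    x = 0 ∧ y = 0 ∧ z = 0 := by
  refine ⟨?_, ?_, ?_⟩ <;> refine (mul_eq_zero.1 ?_).resolve_right h <;> rw [W3]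
  · linear_combination (d v * d (d w) - d w * d (d v)) * h0 - (v * d (d w) - w * d (d v)) * h1 +
      (v * d w - w * d v) * h2
  · linear_combination -(d u * d (d w) - d w * d (d u)) * h0 + (u * d (d w) - w * d (d u)) * h1 -
      (u * d w - w * d u) * h2
  · linear_combination (d u * d (d v) - d v * d (d u)) * h0 - (u * d (d v) - v * d (d u)) * h1 +
      (u * d v - v * d u) * h2

lemma ind_col (h : W3 d u v w ≠ 0) {x y z : K} (h0 : x * u + y * d u + z * d (d u) = 0)
    (h1 : x * v + y * d v + z * d (d v) = 0) (h2 : x * w + y * d w + z * d (d w) = 0) :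
    y = 0 ∧ z = 0 := by
  refine ⟨?_, ?_⟩ <;> refine (mul_eq_zero.1 ?_).resolve_right h <;> rw [W3]
  · linear_combination -(v * d (d w) - w * d (d v)) * h0 + (u * d (d w) - w * d (d u)) * h1 -
      (u * d (d v) - v * d (d u)) * h2
  · linear_combination (v * d w - w * d v) * h0 - (u * d w - w * d u) * h1 +
      (u * d v - v * d u) * h2

lemma no_line (h : W3 d u v w ≠ 0) (a b c : C)
    (e : algebraMap C K a * u + algebraMap C K b * v + algebraMap C K c * w = 0) :
    a = 0 ∧ b = 0 ∧ c = 0 := by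
  have e1 := congrArg d e
  simp only [map_add, Derivation.leibniz, Derivation.map_algebraMap, smul_eq_mul, map_zero,
    mul_zero, add_zero] at e1
  have e2 := congrArg d e1
  simp only [map_add, Derivation.leibniz, Derivation.map_algebraMap, smul_eq_mul, map_zero,
    mul_zero, add_zero] at e2
  simpa using ind_row h e e1 e2

variable [CharZero C] [IsAlgClosed C]

/-- Normal form of a conic of rank at least two. -/
lemma nf' (hI : I.IsHomogeneous 2) (rk : ∀ a b c : C, I ≠ lin a b c ^ 2) :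
    ∃ (ε : C) (M : Matrix (Fin 3) (Fin 3) C), I = pull (Abs ε) M ∧ M.det ≠ 0 := by
  obtain ⟨ε, M, rfl, hM⟩ := nf hI
  by_cases ε0 : ε = 0
  swap
  · exact ⟨ε, M, rfl, hM ε0⟩
  subst ε0
  by_contra hn
  push Not at hn
  have k := fun a b c : C => hn 0 !![M 0 0, M 0 1, M 0 2; a, b, c; M 2 0, M 2 1, M 2 2]
    (by simp [pull, ev_Abs])
  have k0 := k 1 0 0
  have k1 := k 0 1 0
  have k2 := k 0 0 1
  simp only [Matrix.det_fin_three, Matrix.of_apply, Matrix.cons_val] at k0 k1 k2
  have key : ∀ l : C, M 2 0 = l * M 0 0 → M 2 1 = l * M 0 1 → M 2 2 = l * M 0 2 → False :=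
    fun l h0 h1 h2 => by
      obtain ⟨r, rfl⟩ := IsAlgClosed.exists_pow_nat_eq l two_pos
      refine rk (r * M 0 0) (r * M 0 1) (r * M 0 2) ?_
      simp only [pull, ev_Abs, h0, h1, h2, lin, map_mul, map_pow, map_zero]
      ring
  by_cases a0 : M 0 0 = 0
  · by_cases a1 : M 0 1 = 0
    · by_cases a2 : M 0 2 = 0
      · exact rk 0 0 0 (by simp [pull, ev_Abs, lin, a0, a1, a2])
      · refine key (M 2 2 / M 0 2) ?_ ?_ ?_ <;> field_simp
        · linear_combination -k1
        · linear_combination k0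
    · refine key (M 2 1 / M 0 1) ?_ ?_ ?_ <;> field_simp
      · linear_combination k2
      · linear_combination -k0
  · refine key (M 2 0 / M 0 0) ?_ ?_ ?_ <;> field_simp
    · linear_combination -k2
    · linear_combination k1

variable [CharZero K]

omit [IsAlgClosed C] [CharZero K] in
lemma sing3 {y : Fin 3 → K} (hy : H88.Gen C y) (hG : Squarefree G)
    (h0 : MvPolynomial.aeval y G = 0) (h1 : ∀ i, MvPolynomial.aeval y (pderiv i G) = 0) :
    False := by
  obtain ⟨p, hp, p0, q, rfl⟩ : ∃ p, Irreducible p ∧ MvPolynomial.aeval y p = 0 ∧ p ∣ G := by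
    have := hG.ne_zero
    clear hG h1
    induction G using WfDvdMonoid.induction_on_irreducible with
    | zero => exact absurd rfl this
    | unit u hu => exact absurd h0 (hu.map _).ne_zero
    | mul f p f0 hp ih =>
      rcases mul_eq_zero.1 ((map_mul _ _ _).symm.trans h0) with h | h
      · exact ⟨p, hp, h, dvd_mul_right _ _⟩
      · obtain ⟨q, a1, a2, a3⟩ := ih h f0
        exact ⟨q, a1, a2, a3.mul_left _⟩
  obtain ⟨j, hj⟩ := H88.exists_pderiv_ne hy hp p0
  refine hp.not_isUnit (hG p (mul_dvd_mul_left p (H88.dvd_of_gen hy hp p0 ?_)))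
  simpa [p0, hj] using h1 j

omit [CharZero C] in
lemma gen_cone {y : Fin 3 → K} (hy : ∀ (μ : K) (c : Fin 3 → C), y ≠ fun i => μ * algebraMap C K (c i)) :
    H88.Gen C fun i => RatFunc.X * algebraMap K (RatFunc K) (y i) := by
  obtain ⟨i, hi⟩ : ∃ i, y i ≠ 0 := by
    by_contra hn
    push Not at hn
    exact hy 0 0 (funext fun i => by simp [hn])
  obtain ⟨j, hj⟩ : ∃ j, ∀ c, y j / y i ≠ algebraMap C K c := by
    by_contra hn
    push Not at hn
    choose c hc using hn
    exact hy (y i) c (funext fun j => by rw [← hc]; field_simp)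
  obtain ⟨D, hD⟩ := H88.exists_derivation (RatFunc.transcendental_X (K := K))
  have h1 : algebraMap K (RatFunc K) (y j / y i) ∉ cl C (∅ : Set (RatFunc K)) := fun h => by
    obtain ⟨c, hc⟩ := IntermediateField.mem_bot.1 (H17.mem_bot_of_cl h)
    exact hj c ((algebraMap K (RatFunc K)).injective
      (hc.symm.trans (IsScalarTower.algebraMap_apply C K _ c)))
  have h2 : RatFunc.X * algebraMap K (RatFunc K) (y i) ∉
      cl C (insert (algebraMap K (RatFunc K) (y j / y i)) ∅) := fun h => hi (by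
    have := H17.kill_cl (δ := D.restrictScalars C) (by
      rintro _ (rfl | h)
      exacts [D.map_algebraMap _, h.elim]) h
    rw [Derivation.restrictScalars_apply, Derivation.leibniz, D.map_algebraMap, hD] at this
    simpa using this)
  refine H88.gen_of_rk (e := 2) (by simp) ?_
  have h3 := H88.rk_insert h2
  rw [H88.rk_insert h1, H17.rk_empty] at h3
  refine le_trans (le_of_eq (Eq.trans (by norm_num) h3.symm)) (H88.rk_le ?_)
  rintro _ (rfl | rfl | h)
  · exact subset_cl _ ⟨i, rfl⟩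
  · have := div_mem (subset_cl (k := C) (Set.range fun i => RatFunc.X *
      algebraMap K (RatFunc K) (y i)) ⟨j, rfl⟩) (subset_cl (k := C) _ ⟨i, rfl⟩)
    rwa [mul_div_mul_left _ _ RatFunc.X_ne_zero, ← map_div₀] at this
  · exact h.elim

/-- A squarefree form has simple roots on the generic tangent line. -/
lemma simple (hW : W3 d u v w ≠ 0) (hG : Squarefree G) (hom : G.IsHomogeneous n)
    (h0 : ev G (s * u + d u) (s * v + d v) (s * w + d w) = 0)
    (h1 : ev (pderiv 0 G) (s * u + d u) (s * v + d v) (s * w + d w) * u +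
      ev (pderiv 1 G) (s * u + d u) (s * v + d v) (s * w + d w) * v +
      ev (pderiv 2 G) (s * u + d u) (s * v + d v) (s * w + d w) * w = 0) : False := by
  have h2 := der_ev (δ := d) d.map_add (fun a b => by simp) d.map_algebraMap G
    (s * u + d u) (s * v + d v) (s * w + d w)
  have h3 := congrArg (fun P => ev P (s * u + d u) (s * v + d v) (s * w + d w)) hom.sum_X_mul_pderiv
  simp only [Fin.sum_univ_three, ev_add, ev_mul, ev_X0, ev_X1, ev_X2, nsmul_eq_mul, h0,
    mul_zero] at h3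
  simp only [h0, map_zero, map_add, Derivation.leibniz, smul_eq_mul] at h2
  obtain ⟨g0, g1, g2⟩ := ind_row hW h1 (by linear_combination h3 - s * h1)
    (by linear_combination -h2 - s * h3 + (s ^ 2 - d s) * h1)
  have e : ∀ {P : MvPolynomial (Fin 3) C} {m : ℕ}, P.IsHomogeneous m →
      ev P (s * u + d u) (s * v + d v) (s * w + d w) = 0 → MvPolynomial.aeval (fun i => RatFunc.X *
        algebraMap K (RatFunc K) (![s * u + d u, s * v + d v, s * w + d w] i)) P = 0 :=
    fun {P m} hP h => by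
      rw [← ev_vec, ev_smul hP]
      exact mul_eq_zero_of_right _ ((map_ev (IsScalarTower.toAlgHom C K (RatFunc K)) _ _ _).symm.trans
        ((congrArg _ h).trans (map_zero _)))
  refine sing3 (gen_cone fun μ c hc => ?_) hG (e hom h0) fun i => e hom.pderiv ?_
  · have k : ∀ i m, s * m + d m = μ * algebraMap C K (c i) →
        (μ * d s - d μ * s) * m + (μ * s - d μ) * d m + μ * d (d m) = 0 := fun i m h => by
      have h' := congrArg d h
      simp only [map_add, Derivation.leibniz, Derivation.map_algebraMap, smul_eq_mul] at h'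
      linear_combination μ * h' - d μ * h
    obtain rfl := (ind_col hW (k 0 u (congrFun hc 0)) (k 1 v (congrFun hc 1))
      (k 2 w (congrFun hc 2))).2
    exact one_ne_zero (ind_col hW (x := s) (y := 1) (z := 0) (by simpa using congrFun hc 0)
      (by simpa using congrFun hc 1) (by simpa using congrFun hc 2)).1
  · fin_cases i
    exacts [g0, g1, g2]

variable [IsAlgClosed K]

theorem pcc_gen (hF : Fld d) (hI : I.IsHomogeneous 2) (rk : ∀ a b c : C, I ≠ lin a b c ^ 2)
    (hom : F.IsHomogeneous (2 * h)) (hne : ∀ c, F ≠ MvPolynomial.C c * I ^ h)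
    (inv : Inv d F u v w (ev I u v w)) : Con3 C u v w := by
  obtain ⟨ε, M, rfl, hM⟩ := nf' hI rk
  have h1 := M.nonsing_inv_mul hM.isUnit
  refine Con3.lin (M.eta_fin_three ▸ hM) (pcc_hom (F := pull F M⁻¹) (ε := ε) (h := h) hF
    (hom_ev hom (hom_lin ..) (hom_lin ..) (hom_lin ..)) (fun c e => hne c ?_) (Inv.lin ?_))
  · rw [← ev_X F, ← ev_pull_inv h1, e, ev_mul, ev_pow, ev_C, ← ev_ev, ev_X]
    rfl
  · rw [ev_lin_inv h1 u v w 0, ev_lin_inv h1 u v w 1, ev_lin_inv h1 u v w 2, ← ev_Abs, ← ev_ev]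
    exact inv

/-- The theorem for an arbitrary absolute `I` of rank at least two. -/
theorem scc_gen (t0 : d t ≠ 0) (hu : u ∈ cl C {t}) (hv : v ∈ cl C {t}) (hw : w ∈ cl C {t})
    (hI : I.IsHomogeneous 2) (rk : ∀ a b c : C, I ≠ lin a b c ^ 2) (I0 : ev I u v w ≠ 0)
    (hom : F.IsHomogeneous (2 * h)) (hne : ∀ c, F ≠ MvPolynomial.C c * I ^ h)
    (inv : Inv d F u v w (ev I u v w)) : Con3 C u v w := by
  have hd : ∀ g, d g = d t * ((d t)⁻¹ • d) g := fun g => by simp [t0]
  have inv := Inv.scale (μ := 1) hd t0 one_ne_zero I0 (by simpa using inv)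
  obtain ⟨hp, hF⟩ := fld_cl (d := (d t)⁻¹ • d) (t := t) (by simp [t0])
  have := H96.Norm.isAlgClosed_cl (C := C) ({t} : Set K)
  have : CharZero (cl C ({t} : Set K)) := algebraRat.charZero _
  lift u to cl C ({t} : Set K) using hu
  lift v to cl C ({t} : Set K) using hv
  lift w to cl C ({t} : Set K) using hw
  have e : ((ev I u v w : cl C ({t} : Set K)) : K) = ev I (u : K) v w := map_ev (cl C {t}).val ..
  rw [← e] at inv
  exact Con3.map (pcc_gen hF hI rk hom hne (Inv.res hp inv)) (cl C {t}).val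

/-- An invariant zero set: the curve is a conic, and every root lies on a confocal conic. -/
theorem scc_root' (t0 : d t ≠ 0) (hu : u ∈ cl C {t}) (hv : v ∈ cl C {t}) (hw : w ∈ cl C {t})
    (hW : W3 d u v w ≠ 0) (hI : I.IsHomogeneous 2) (rk : ∀ a b c : C, I ≠ lin a b c ^ 2)
    (I0 : ev I u v w ≠ 0) (F0 : F ≠ 0) (hom : F.IsHomogeneous n)
    (inv : ∀ s s', (d t ∈ cl C {t} → s ∈ cl C {t}) → s' = -s - d (ev I u v w) / ev I u v w →
      ev I (s * u + d u) (s * v + d v) (s * w + d w) ≠ 0 →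
      ev F (s * u + d u) (s * v + d v) (s * w + d w) = 0 →
      ev F (s' * u + d u) (s' * v + d v) (s' * w + d w) = 0)
    {x y z : K} (s0 : ev I x y z ≠ 0) (s1 : ev F x y z = 0) :
    ∃ Q : MvPolynomial (Fin 3) C, Q ≠ 0 ∧ Q.IsHomogeneous 2 ∧ ev Q u v w = 0 ∧
      ∀ (A : Type) [Field A] [Algebra C A] (a b c : A), ev I a b c ≠ 0 → ev F a b c = 0 →
        ∃ l : C, ev Q a b c = algebraMap C A l * ev I a b c := by
  have I1 : I ≠ 0 := fun e => I0 (by simp [e])
  obtain ⟨G, m, hG, ⟨G', h1⟩, G'', h2⟩ := exists_squarefree_dvd_pow_of_ne_zero (mul_ne_zero F0 I1)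
  obtain ⟨k, hk⟩ := hom_of_mul (h1 ▸ hom.mul hI) (h1 ▸ mul_ne_zero F0 I1)
  have z1 : ∀ (A : Type) [Field A] [Algebra C A] (a b c : A),
      ev G a b c = 0 ↔ ev F a b c * ev I a b c = 0 := fun A _ _ a b c =>
    ⟨fun h => by rw [← ev_mul, h1, ev_mul, h, zero_mul], fun h => eq_zero_of_pow_eq_zero (n := m)
      (by rw [← ev_pow, h2, ev_mul, ev_mul, h, zero_mul])⟩
  have iI := inv_two (d := d) hI (div_mul_cancel₀ _ I0).symm
  set ω := d (ev I u v w) / ev I u v w with hω
  have neg : ∀ {P : MvPolynomial (Fin 3) C} {j : ℕ}, P.IsHomogeneous j → ∀ s,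
      ev P ((s + ω * 1) * u - 1 * d u) ((s + ω * 1) * v - 1 * d v) ((s + ω * 1) * w - 1 * d w) =
      (-1) ^ j * ev P ((-s - ω) * u + d u) ((-s - ω) * v + d v) ((-s - ω) * w + d w) :=
    fun hP s => by rw [← ev_smul hP]; congr 1 <;> ring
  let l : K → Polynomial K := fun m => Polynomial.X * Polynomial.C m + Polynomial.C (d m)
  have e : ∀ (P : MvPolynomial (Fin 3) C) (z : K), (ev P (l u) (l v) (l w)).eval z =
      ev P (z * u + d u) (z * v + d v) (z * w + d w) := fun P z => by
    simpa [l, mul_comm z] using map_ev (F := P)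
      ((Polynomial.aeval z : Polynomial K →ₐ[K] K).restrictScalars C) (l u) (l v) (l w)
  have sm : ∀ z, (ev G (l u) (l v) (l w)).IsRoot z →
      (Polynomial.derivative (ev G (l u) (l v) (l w))).IsRoot z → False := fun z h0 h1 => by
    rw [der_ev (δ := fun p : Polynomial K => Polynomial.derivative p) (map_add _) (fun a b => by
      rw [Polynomial.derivative_mul]; ring) (fun r => by simp [Polynomial.algebraMap_apply])] at h1
    simp only [Polynomial.IsRoot, Polynomial.eval_add, Polynomial.eval_mul, e] at h0 h1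
    exact simple hW hG hk h0 (by simpa [l] using h1)
  have e1 := e G
  have cf : d t ∈ cl C {t} → ∀ i, (ev G (l u) (l v) (l w)).coeff i ∈ cl C {t} := fun h i => by
    have hp : ∀ f ∈ cl C ({t} : Set K), d f ∈ cl C {t} := fun f hf =>
      H17.stab_cl (fun s hs => hs ▸ h) hf
    let l' : ∀ m ∈ cl C ({t} : Set K), Polynomial (cl C ({t} : Set K)) := fun m hm =>
      Polynomial.X * Polynomial.C ⟨m, hm⟩ + Polynomial.C ⟨d m, hp m hm⟩
    have := map_ev (F := G) (Polynomial.mapAlgHom (cl C {t}).val) (l' u hu) (l' v hv) (l' w hw)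
    have k : ∀ m hm, Polynomial.mapAlgHom (cl C {t}).val (l' m hm) = l m := fun m hm => by
      simp [l, l']
    rw [k, k, k] at this
    rw [← this, Polynomial.coe_mapAlgHom, Polynomial.coeff_map]
    exact Subtype.property _
  generalize ev G (l u) (l v) (l w) = p at sm e1 cf
  have p0 : p ≠ 0 := fun h => sm 0 (by simp [h]) (by simp [h])
  have c2 : (-Polynomial.X - Polynomial.C ω).comp (-Polynomial.X - Polynomial.C ω) =
    Polynomial.X := by simp
  have q0 : p.comp (-Polynomial.X - Polynomial.C ω) ≠ 0 := fun h => p0 (by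
    rw [← p.comp_X, ← c2, ← Polynomial.comp_assoc, h, Polynomial.zero_comp])
  obtain ⟨r, hr⟩ : p ∣ p.comp (-Polynomial.X - Polynomial.C ω) := by
    classical
    refine (IsAlgClosed.splits p).dvd_of_roots_le_roots p0 ((Multiset.le_iff_subset
      (Multiset.nodup_iff_count_le_one.2 fun z => ?_)).2 fun z hz => ?_)
    · rw [Polynomial.count_roots]
      exact not_lt.1 fun h => ((Polynomial.one_lt_rootMultiplicity_iff_isRoot p0).1 h).elim (sm z)
    · rw [Polynomial.mem_roots p0, Polynomial.IsRoot] at hz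
      have hz' := fun h => H88.mem_cl_of_root p0 (cf h) hz
      rw [e1, z1] at hz
      rw [Polynomial.mem_roots q0, Polynomial.IsRoot, Polynomial.eval_comp, e1, z1]
      simp only [Polynomial.eval_sub, Polynomial.eval_neg, Polynomial.eval_X, Polynomial.eval_C]
      by_cases h : ev I (z * u + d u) (z * v + d v) (z * w + d w) = 0
      · have := iI z 1
        rw [neg hI] at this
        simp only [one_mul, h] at this
        exact mul_eq_zero_of_right _ (by simpa using this.symm)
      · exact mul_eq_zero_of_left (inv z _ hz' rfl h ((mul_eq_zero.1 hz).resolve_right h)) _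
  have r1 : r * r.comp (-Polynomial.X - Polynomial.C ω) = 1 := mul_left_cancel₀ p0 (by
    rw [← mul_assoc, ← hr, ← Polynomial.mul_comp, ← hr, Polynomial.comp_assoc, c2, p.comp_X, mul_one])
  obtain ⟨c, -, rfl⟩ := Polynomial.isUnit_iff.1 (IsUnit.of_mul_eq_one _ r1)
  have r2 : c * c = 1 := Polynomial.C_injective (by simpa using r1)
  have iG : Inv d (G ^ 2) u v w (ev I u v w) := fun a b => by
    by_cases b0 : b = 0
    · simp [b0]
    obtain ⟨a, rfl⟩ : ∃ z, a = b * z := ⟨a / b, by field_simp⟩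
    have h3 := congrArg (Polynomial.eval a) hr
    simp only [Polynomial.eval_comp, Polynomial.eval_mul, Polynomial.eval_sub, Polynomial.eval_neg,
      Polynomial.eval_X, Polynomial.eval_C, e1] at h3
    have h4 := ev_smul hk b (a * u + d u) (a * v + d v) (a * w + d w)
    have h5 := ev_smul hk (-b) ((-a - ω) * u + d u) ((-a - ω) * v + d v) ((-a - ω) * w + d w)
    have e2 : ∀ m, b * a * m + b * d m = b * (a * m + d m) := fun m => by ring
    have e3 : ∀ m, (b * a + ω * b) * m - b * d m = -b * ((-a - ω) * m + d m) := fun m => by ring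
    rw [ev_pow, ev_pow, ← hω, e2, e2, e2, e3, e3, e3]
    rw [h4, h5, h3, mul_pow, mul_pow, mul_pow, ← pow_mul, ← pow_mul, mul_comm k,
      Even.neg_pow (even_two_mul k), pow_two c, r2, mul_one]
  have hk2 : (G ^ 2).IsHomogeneous (2 * k) := mul_comm k 2 ▸ hk.pow 2
  obtain ⟨Q, Q0, hQ, hN⟩ := scc_gen t0 hu hv hw hI rk I0 hk2 (fun c e => hG.ne_zero (by
    have h3 := congrArg (fun P => ev P x y z) e
    simp only [ev_pow, ev_mul, ev_C, (z1 K _ _ _).2 (mul_eq_zero_of_left s1 _)] at h3
    obtain rfl : c = 0 := by simpa [s0] using h3.symm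
    simpa using e)) iG
  refine ⟨Q, Q0, hQ, hN, fun A _ _ a b c h0 h3 => ?_⟩
  obtain ⟨α, β, h4, h5⟩ := (levels (cst_cl t0) hu hv hw (no_line hW) Q0 hQ hN hI I0 hk2 iG).root
    (pow_ne_zero 2 hG.ne_zero) I1 (a := a) (b := b) (c := c)
    (by rw [ev_pow, (z1 A _ _ _).2 (mul_eq_zero_of_left h3 _), zero_pow two_ne_zero])
  have α0 : algebraMap C A α ≠ 0 := fun h => h4 ⟨by simpa using h, by simpa [h, h0] using h5⟩
  refine ⟨-β / α, ?_⟩
  rw [map_div₀, map_neg]
  field_simp
  linear_combination h5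

theorem scc_root (t0 : d t ≠ 0) (hu : u ∈ cl C {t}) (hv : v ∈ cl C {t}) (hw : w ∈ cl C {t})
    (hW : W3 d u v w ≠ 0) (hI : I.IsHomogeneous 2) (rk : ∀ a b c : C, I ≠ lin a b c ^ 2)
    (I0 : ev I u v w ≠ 0) (F0 : F ≠ 0) (hom : F.IsHomogeneous n)
    (inv : ∀ s s', s' = -s - d (ev I u v w) / ev I u v w →
      ev I (s * u + d u) (s * v + d v) (s * w + d w) ≠ 0 →
      ev F (s * u + d u) (s * v + d v) (s * w + d w) = 0 →
      ev F (s' * u + d u) (s' * v + d v) (s' * w + d w) = 0)
    (s0 : ev I (s * u + d u) (s * v + d v) (s * w + d w) ≠ 0)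
    (s1 : ev F (s * u + d u) (s * v + d v) (s * w + d w) = 0) :
    ∃ Q : MvPolynomial (Fin 3) C, Q ≠ 0 ∧ Q.IsHomogeneous 2 ∧ ev Q u v w = 0 ∧
      ∀ (A : Type) [Field A] [Algebra C A] (a b c : A), ev I a b c ≠ 0 → ev F a b c = 0 →
        ∃ l : C, ev Q a b c = algebraMap C A l * ev I a b c :=
  scc_root' t0 hu hv hw hW hI rk I0 F0 hom (fun s s' _ => inv s s') s0 s1

omit [CharZero C] [IsAlgClosed C] [CharZero K] [IsAlgClosed K] in
/-- The bilinear form of a constant matrix. -/
def bf (e : Matrix (Fin 3) (Fin 3) C) (x y : Fin 3 → K) : K := x ⬝ᵥ e.map (algebraMap C K) *ᵥ y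

omit [IsAlgClosed C] [IsAlgClosed K] in
lemma ex_mat (Q0 : Q ≠ 0) (hQ : Q.IsHomogeneous 2) : ∃ a : Matrix (Fin 3) (Fin 3) C, a.IsSymm ∧
    a ≠ 0 ∧ ∀ x : Fin 3 → K, bf a x x = ev Q (x 0) (x 1) (x 2) := by
  have h := fun (A : Type) [CommRing A] [Algebra C A] => ev_two (A := A) hQ
  generalize ev Q (1 : C) 1 0 - ev Q (1 : C) 0 0 - ev Q (0 : C) 1 0 = e at h
  generalize ev Q (1 : C) 0 1 - ev Q (1 : C) 0 0 - ev Q (0 : C) 0 1 = f at h
  generalize ev Q (0 : C) 1 1 - ev Q (0 : C) 1 0 - ev Q (0 : C) 0 1 = g at h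
  generalize ev Q (1 : C) 0 0 = a at h
  generalize ev Q (0 : C) 1 0 = b at h
  generalize ev Q (0 : C) 0 1 = c at h
  refine ⟨!![a, e / 2, f / 2; e / 2, b, g / 2; f / 2, g / 2, c], ?_, fun e0 => Q0
    (eq_zero_of_ev fun x y z => ?_), fun x => ?_⟩
  · ext i j
    fin_cases i <;> fin_cases j <;> rfl
  · have k := fun i j => congrFun (congrFun e0 i) j
    obtain rfl : a = 0 := k 0 0
    obtain rfl : b = 0 := k 1 1
    obtain rfl : c = 0 := k 2 2
    obtain rfl : e = 0 := by simpa using k 0 1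
    obtain rfl : f = 0 := by simpa using k 0 2
    obtain rfl : g = 0 := by simpa using k 1 2
    simp [h]
  · simp [h, bf, Matrix.mulVec, dotProduct, Fin.sum_univ_three, map_ofNat]
    ring

/-- The theorem on invariant zero sets, for vectors and matrices. -/
theorem pcc_root' {e : Matrix (Fin 3) (Fin 3) C} (he : e.IsSymm)
    (rk : ∀ l : Fin 3 → C, e ≠ vecMulVec l l) {N : Fin 3 → K} (hN : ∀ i, N i ∈ cl C {t})
    (hW : LinearIndependent K ![N, fun i => d (N i), fun i => d (d (N i))]) (N0 : bf e N N ≠ 0)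
    (F0 : F ≠ 0) (hom : F.IsHomogeneous n)
    (inv : ∀ (s : K) (M : Fin 3 → K), (d t ∈ cl C {t} → s ∈ cl C {t}) →
      M = s • N + (fun i => d (N i)) → bf e M M ≠ 0 →
      MvPolynomial.aeval M F = 0 → MvPolynomial.aeval (M - (2 * bf e N M / bf e N N) • N) F = 0)
    {M : Fin 3 → K} (M0 : bf e M M ≠ 0)
    (M1 : MvPolynomial.aeval M F = 0) : ∃ (a : Matrix (Fin 3) (Fin 3) C) (l : C), a.IsSymm ∧
      a ≠ 0 ∧ bf a N N = 0 ∧ bf a M M = algebraMap C K l * bf e M M := by
  have s1 : e 1 0 = e 0 1 := he.apply 0 1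
  have s2 : e 2 0 = e 0 2 := he.apply 0 2
  have s3 : e 2 1 = e 1 2 := he.apply 1 2
  let I : MvPolynomial (Fin 3) C := ∑ i, ∑ j, MvPolynomial.C (e i j) * (X i * X j)
  have hI : I.IsHomogeneous 2 := .sum _ _ _ fun i _ => .sum _ _ _ fun j _ =>
    ((MvPolynomial.isHomogeneous_X C i).mul (MvPolynomial.isHomogeneous_X C j)).C_mul _
  have eI : ∀ x : Fin 3 → K, ev I (x 0) (x 1) (x 2) = bf e x x := fun x => by
    simp [I, bf, Matrix.mulVec, dotProduct, Fin.sum_univ_three]
    ring
  have W0 : W3 d (N 0) (N 1) (N 2) ≠ 0 := by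
    have := ((Matrix.isUnit_iff_isUnit_det _).1 ((Matrix.linearIndependent_rows_iff_isUnit
      (A := Matrix.of ![N, fun i => d (N i), fun i => d (d (N i))])).1 hW)).ne_zero
    convert this using 1
    simp [W3, Matrix.det_fin_three]
    ring
  have key : ∀ (P : MvPolynomial (Fin 3) C) (s : K),
      ev P (s * N 0 + d (N 0)) (s * N 1 + d (N 1)) (s * N 2 + d (N 2)) =
        MvPolynomial.aeval (s • N + fun i => d (N i)) P := fun P s => by
    rw [← ev_vec]
    simp only [Pi.add_apply, Pi.smul_apply, smul_eq_mul]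
  have kI : ∀ s : K, ev I (s * N 0 + d (N 0)) (s * N 1 + d (N 1)) (s * N 2 + d (N 2)) =
      bf e (s • N + fun i => d (N i)) (s • N + fun i => d (N i)) := fun s => by
    rw [key, ← ev_vec, eI]
  rw [← ev_vec] at M1
  rw [← eI] at M0 ⊢
  have r1 : ∀ a b c : C, I ≠ lin a b c ^ 2 := fun a b c h => rk ![a, b, c] <| by
    have k := fun x y z : C => congrArg (fun P => ev P x y z) h
    have k0 := k 1 0 0
    have k1 := k 0 1 0
    have k2 := k 0 0 1
    have k3 := k 1 1 0
    have k4 := k 1 0 1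
    have k5 := k 0 1 1
    simp [I, Fin.sum_univ_three, ev_lin, s1, s2, s3] at k0 k1 k2 k3 k4 k5
    ext i j
    fin_cases i <;> fin_cases j <;> simp [vecMulVec_apply, s1, s2, s3]
    · linear_combination k0
    · linear_combination (k3 - k0 - k1) / 2
    · linear_combination (k4 - k0 - k2) / 2
    · linear_combination (k3 - k0 - k1) / 2
    · linear_combination k1
    · linear_combination (k5 - k1 - k2) / 2
    · linear_combination (k4 - k0 - k2) / 2
    · linear_combination (k5 - k1 - k2) / 2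
    · linear_combination k2
  have r2 : ∀ s s', (d t ∈ cl C {t} → s ∈ cl C {t}) →
      s' = -s - d (ev I (N 0) (N 1) (N 2)) / ev I (N 0) (N 1) (N 2) →
      ev I (s * N 0 + d (N 0)) (s * N 1 + d (N 1)) (s * N 2 + d (N 2)) ≠ 0 →
      ev F (s * N 0 + d (N 0)) (s * N 1 + d (N 1)) (s * N 2 + d (N 2)) = 0 →
      ev F (s' * N 0 + d (N 0)) (s' * N 1 + d (N 1)) (s' * N 2 + d (N 2)) = 0 := by
    intro s s' hc hs h0 h1
    rw [kI] at h0
    rw [key] at h1
    have h3 := inv s _ hc rfl h0 h1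
    have h4 : 2 * bf e N (s • N + fun i => d (N i)) / bf e N N = s - s' := by
      rw [hs, eI]
      field_simp
      simp [bf, Matrix.mulVec, dotProduct, Fin.sum_univ_three, s1, s2, s3]
      ring
    rw [h4, show (s • N + fun i => d (N i)) - (s - s') • N = s' • N + fun i => d (N i) by
      rw [sub_smul]; abel] at h3
    rwa [key]
  obtain ⟨Q, Q0, hQ, h1, h2⟩ := scc_root' (d := d) (fun h => W0 (by
    simp [W3, fun i => H17.kill_cl (δ := d) (S := {t}) (fun _ e => e ▸ h) (hN i)]))
    (hN 0) (hN 1) (hN 2) W0 hI r1 (by rwa [eI]) F0 hom r2 M0 M1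
  obtain ⟨a, a1, a2, a3⟩ := ex_mat (K := K) Q0 hQ
  obtain ⟨l, hl⟩ := h2 K _ _ _ M0 M1
  exact ⟨a, l, a1, a2, (a3 N).trans h1, by rw [a3, ← hl]⟩

theorem pcc_root {e : Matrix (Fin 3) (Fin 3) C} (he : e.IsSymm)
    (rk : ∀ l : Fin 3 → C, e ≠ vecMulVec l l) {N : Fin 3 → K} (hN : ∀ i, N i ∈ cl C {t})
    (hW : LinearIndependent K ![N, fun i => d (N i), fun i => d (d (N i))]) (N0 : bf e N N ≠ 0)
    (F0 : F ≠ 0) (hom : F.IsHomogeneous n)
    (inv : ∀ (s : K) (M : Fin 3 → K), M = s • N + (fun i => d (N i)) → bf e M M ≠ 0 →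
      MvPolynomial.aeval M F = 0 → MvPolynomial.aeval (M - (2 * bf e N M / bf e N N) • N) F = 0)
    {M : Fin 3 → K} (_hM : M = s • N + fun i => d (N i)) (M0 : bf e M M ≠ 0)
    (M1 : MvPolynomial.aeval M F = 0) : ∃ (a : Matrix (Fin 3) (Fin 3) C) (l : C), a.IsSymm ∧
      a ≠ 0 ∧ bf a N N = 0 ∧ bf a M M = algebraMap C K l * bf e M M :=
  pcc_root' he rk hN hW N0 F0 hom (fun s M _ => inv s M) M0 M1

end Pool.Agent.MP_249f74_an.H22
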