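import Pool.Agent.MP_249f74_an.H22.Main
import Pool.Agent.MP_249f74_an.H53.Ex
import Pool.Agent.MP_249f74_an.H96.Norm

/-!
Homogeneous forms of the theorem.
-/

namespace Pool.Agent.MP_249f74_an.H22

open H17 (Der)
open H53
open H88 (cl subset_cl)
open MvPolynomial (X)

variable {C K : Type} [Field C] [Field K] [Algebra C K]

/-- A nonzero quadratic form vanishes at the vector. -/
def Con3 (C : Type) {K : Type} [Field C] [Field K] [Algebra C K] (u v w : K) : Prop :=
  ∃ Q : MvPolynomial (Fin 3) C, Q ≠ 0 ∧ Q.IsHomogeneous 2 ∧ ev Q u v w = 0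

lemma ev_two {A : Type} [CommRing A] [Algebra C A] {Q : MvPolynomial (Fin 3) C}
    (hQ : Q.IsHomogeneous 2) (u v w : A) : ev Q u v w =
      algebraMap C A (ev Q 1 0 0) * u ^ 2 + algebraMap C A (ev Q 0 1 0) * v ^ 2 +
      algebraMap C A (ev Q 0 0 1) * w ^ 2 +
      algebraMap C A (ev Q 1 1 0 - ev Q 1 0 0 - ev Q 0 1 0) * (u * v) +
      algebraMap C A (ev Q 1 0 1 - ev Q 1 0 0 - ev Q 0 0 1) * (u * w) +
      algebraMap C A (ev Q 0 1 1 - ev Q 0 1 0 - ev Q 0 0 1) * (v * w) := by
  simp only [ev_sum, map_sub, map_sum, ← Finset.sum_sub_distrib, Finset.sum_mul,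
    ← Finset.sum_add_distrib]
  refine Finset.sum_congr rfl fun m hm => ?_
  have := deg3 hQ hm
  generalize m 0 = i at *
  generalize m 1 = j at *
  rw [show m 2 = 2 - i - j by omega]
  have : i ≤ 2 := by omega
  have : j ≤ 2 := by omega
  interval_cases i <;> interval_cases j <;> first | omega | simp

variable {u v w : K}

lemma con3_iff [CharZero C] : Con3 C u v w ↔ ∃ a b c e f g : C,
    ¬ (a = 0 ∧ b = 0 ∧ c = 0 ∧ e = 0 ∧ f = 0 ∧ g = 0) ∧ algebraMap C K a * u ^ 2 +
      algebraMap C K b * v ^ 2 + algebraMap C K c * w ^ 2 + algebraMap C K e * (u * v) +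
      algebraMap C K f * (u * w) + algebraMap C K g * (v * w) = 0 := by
  constructor
  · rintro ⟨Q, Q0, hQ, h⟩
    refine ⟨_, _, _, _, _, _, fun ⟨h1, h2, h3, h4, h5, h6⟩ => Q0 (eq_zero_of_ev fun u v w => ?_),
      ev_two hQ u v w ▸ h⟩
    rw [ev_two hQ, h4, h5, h6, h1, h2, h3]
    simp
  · rintro ⟨a, b, c, e, f, g, h0, h⟩
    have hm := fun (r : C) (i j : Fin 3) => ((MvPolynomial.isHomogeneous_X C i).mul
      (MvPolynomial.isHomogeneous_X C j)).C_mul r
    refine ⟨_, fun e0 => h0 ?_, (((((hm a 0 0).add (hm b 1 1)).add (hm c 2 2)).add (hm e 0 1)).add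
      (hm f 0 2)).add (hm g 1 2), by simpa [pow_two] using h⟩
    have h1 := fun u v w : C => congrArg (fun p => ev p u v w) e0
    obtain rfl : a = 0 := by simpa using h1 1 0 0
    obtain rfl : b = 0 := by simpa using h1 0 1 0
    obtain rfl : c = 0 := by simpa using h1 0 0 1
    simpa using And.intro (h1 1 1 0) (And.intro (h1 1 0 1) (h1 0 1 1))

lemma Con3.smul (h : Con3 C u v w) (l : K) : Con3 C (l * u) (l * v) (l * w) :=
  h.imp fun _ h => ⟨h.1, h.2.1, by rw [ev_smul h.2.1, h.2.2, mul_zero]⟩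

lemma Con3.map {L : Type} [Field L] [Algebra C L] (h : Con3 C u v w) (φ : K →ₐ[C] L) :
    Con3 C (φ u) (φ v) (φ w) :=
  h.imp fun _ h => ⟨h.1, h.2.1, by rw [← map_ev, h.2.2, map_zero]⟩

variable [CharZero C]

lemma Con3.lin {a0 b0 c0 a1 b1 c1 a2 b2 c2 : C}
    (he : Matrix.det !![a0, b0, c0; a1, b1, c1; a2, b2, c2] ≠ 0)
    (h : Con3 C (ev (lin a0 b0 c0) u v w) (ev (lin a1 b1 c1) u v w) (ev (lin a2 b2 c2) u v w)) :
    Con3 C u v w := by
  obtain ⟨Q, Q0, hQ, h⟩ := h
  exact ⟨_, lin_ne Q0 he, hom_ev hQ (hom_lin ..) (hom_lin ..) (hom_lin ..), by rw [ev_ev, h]⟩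

lemma Con3.line {a b c : C} (h0 : ¬ (a = 0 ∧ b = 0 ∧ c = 0))
    (h : algebraMap C K a * u + algebraMap C K b * v + algebraMap C K c * w = 0) :
    Con3 C u v w :=
  con3_iff.2 ⟨a ^ 2, b ^ 2, c ^ 2, 2 * a * b, 2 * a * c, 2 * b * c, by simp; tauto, by
    simp only [map_mul, map_pow, map_ofNat]
    linear_combination (algebraMap C K a * u + algebraMap C K b * v + algebraMap C K c * w) * h⟩

lemma con3_of_con {x y : K} (h : Con C x y) : Con3 C 1 x y := by
  obtain ⟨a, b, c, e, f, g, h0, h⟩ := h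
  exact con3_iff.2 ⟨g, a, c, e, f, b, by tauto, by linear_combination h⟩

variable {d : Der C K}

/-- The dual of a conic is a conic. -/
lemma Con3.cross [CharZero K] (h : Con3 C u v w) :
    Con3 C (v * d w - w * d v) (w * d u - u * d w) (u * d v - v * d u) := by
  obtain ⟨a, b, c, e, f, g, h0, h⟩ := con3_iff.1 h
  have h1 := congrArg d h
  simp only [map_add, Derivation.leibniz, Derivation.leibniz_pow, Derivation.map_algebraMap,
    smul_eq_mul, nsmul_eq_mul, map_zero] at h1
  push_cast at h1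
  by_cases h2 : 4 * b * c - g ^ 2 = 0 ∧ 4 * a * c - f ^ 2 = 0 ∧ 4 * a * b - e ^ 2 = 0 ∧
    2 * f * g - 4 * c * e = 0 ∧ 2 * e * g - 4 * b * f = 0 ∧ 2 * e * f - 4 * a * g = 0
  swap
  · refine con3_iff.2 ⟨_, _, _, _, _, _, h2, ?_⟩
    simp only [map_mul, map_sub, map_pow, map_ofNat]
    linear_combination 4 * (algebraMap C K a * d u ^ 2 + algebraMap C K b * d v ^ 2 +
      algebraMap C K c * d w ^ 2 + algebraMap C K e * (d u * d v) + algebraMap C K f * (d u * d w) +
      algebraMap C K g * (d v * d w)) * h - (2 * algebraMap C K a * u * d u +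
      2 * algebraMap C K b * v * d v + 2 * algebraMap C K c * w * d w +
      algebraMap C K e * (u * d v + v * d u) + algebraMap C K f * (u * d w + w * d u) +
      algebraMap C K g * (v * d w + w * d v)) * h1
  have key : ∀ p q r : C, ¬ (p = 0 ∧ q = 0 ∧ r = 0) →
      (algebraMap C K p * u + algebraMap C K q * v + algebraMap C K r * w) ^ 2 = 0 →
      Con3 C (v * d w - w * d v) (w * d u - u * d w) (u * d v - v * d u) := fun p q r n0 l0 => by
    have l1 := pow_eq_zero_iff two_ne_zero |>.1 l0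
    have l2 := congrArg d l1
    simp only [map_add, Derivation.leibniz, Derivation.map_algebraMap, smul_eq_mul, map_zero] at l2
    by_cases p0 : p = 0
    · refine Con3.line (a := 0) (b := r) (c := -q) (by simpa [p0, and_comm] using n0) ?_
      simp only [p0, map_zero, map_neg] at l1 l2 ⊢
      linear_combination d u * l1 - u * l2
    · refine Con3.line (a := q) (b := -p) (c := 0) (by simp [p0]) ?_
      simp only [map_zero, map_neg]
      linear_combination d w * l1 - w * l2
  obtain ⟨k1, k2, k3, k4, k5, k6⟩ := h2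
  have m := fun {p : C} (e : p = 0) => congrArg (algebraMap C K) e
  have k1 := m k1
  have k2' := m k2
  have k3' := m k3
  have k4 := m k4
  have k5 := m k5
  have k6 := m k6
  simp only [map_mul, map_sub, map_pow, map_ofNat, map_zero] at k1 k2' k3' k4 k5 k6
  by_cases a0 : a = 0
  · obtain rfl : f = 0 := by simpa [a0] using k2
    obtain rfl : e = 0 := by simpa [a0] using k3
    by_cases b0 : b = 0
    · refine key 0 g (2 * c) (by simpa [a0, b0, and_comm] using h0) ?_
      simp only [a0, b0, map_mul, map_ofNat, map_zero] at h k1 ⊢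
      linear_combination 4 * algebraMap C K c * h - v ^ 2 * k1
    · refine key 0 (2 * b) g (by simp [b0]) ?_
      simp only [a0, map_mul, map_ofNat, map_zero] at h ⊢
      linear_combination 4 * algebraMap C K b * h - w ^ 2 * k1
  · refine key (2 * a) e f (by simp [a0]) ?_
    simp only [map_mul, map_ofNat]
    linear_combination 4 * algebraMap C K a * h - v ^ 2 * k3' - w ^ 2 * k2' + v * w * k6

/-- From the poles of the tangent lines to the points. -/
lemma Con3.dual [CharZero K] {L : IntermediateField C K}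
    (hc : ∀ g ∈ L, d g = 0 → ∃ c, g = algebraMap C K c) (hu : u ∈ L) (hv : v ∈ L) (hw : w ∈ L)
    (n0 : ¬ (u = 0 ∧ v = 0 ∧ w = 0)) {p q r : K} (h1 : p * u + q * v + r * w = 0)
    (h2 : p * d u + q * d v + r * d w = 0) (h : Con3 C u v w) : Con3 C p q r := by
  have h := h.cross (d := d)
  have e1 : q * (u * d v - v * d u) = r * (w * d u - u * d w) := by
    linear_combination u * h2 - d u * h1
  have e2 : r * (v * d w - w * d v) = p * (u * d v - v * d u) := by
    linear_combination v * h2 - d v * h1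
  have e3 : p * (w * d u - u * d w) = q * (v * d w - w * d v) := by
    linear_combination w * h2 - d w * h1
  have k : ∀ a ∈ L, ∀ b ∈ L, b ≠ 0 → b * d a - a * d b = 0 → ∃ c, a = algebraMap C K c * b :=
    fun a ha b hb b0 e => (hc (a / b) (div_mem ha hb) (by simp [d.leibniz_div, e])).imp
      fun c hc => by rw [← hc]; field_simp
  have key : ∀ c l, c ≠ 0 → c * p = l * (v * d w - w * d v) → c * q = l * (w * d u - u * d w) →
      c * r = l * (u * d v - v * d u) → Con3 C p q r := fun c l c0 e1 e2 e3 => by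
    simpa [← e1, ← e2, ← e3, c0] using (h.smul l).smul c⁻¹
  by_cases c0 : v * d w - w * d v = 0
  swap
  · exact key _ p c0 (by ring) (by linear_combination -e3) (by linear_combination e2)
  by_cases c1 : w * d u - u * d w = 0
  swap
  · exact key _ q c1 (by linear_combination e3) (by ring) (by linear_combination -e1)
  by_cases c2 : u * d v - v * d u = 0
  swap
  · exact key _ r c2 (by linear_combination -e2) (by linear_combination e1) (by ring)
  by_cases u0 : u = 0
  · by_cases v0 : v = 0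
    · exact Con3.line (a := 0) (b := 0) (c := 1) (by simp) (by simp_all)
    · obtain ⟨c, rfl⟩ := k w hw v hv v0 c0
      refine Con3.line (a := 0) (b := 1) (c := c) (by simp) (mul_left_cancel₀ v0 ?_)
      simp only [u0, map_zero, map_one] at h1 ⊢
      linear_combination h1
  · obtain ⟨b, rfl⟩ := k v hv u hu u0 c2
    obtain ⟨c, rfl⟩ := k w hw u hu u0 (by linear_combination -c1)
    refine Con3.line (a := 1) (b := b) (c := c) (by simp) (mul_left_cancel₀ u0 ?_)
    rw [map_one]
    linear_combination h1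

/-- The form `X ^ 2 + Y ^ 2 + κ Z ^ 2`. -/
noncomputable def Sq (κ : C) : MvPolynomial (Fin 3) C :=
  X 0 ^ 2 + X 1 ^ 2 + MvPolynomial.C κ * X 2 ^ 2

omit [CharZero C] in
lemma ev_Sq {A : Type} [CommRing A] [Algebra C A] (κ : C) (u v w : A) :
    ev (Sq κ) u v w = u ^ 2 + v ^ 2 + algebraMap C A κ * w ^ 2 := by simp [Sq]

variable {F : MvPolynomial (Fin 3) C} {h : ℕ} [CharZero K] [IsAlgClosed C] [IsAlgClosed K]

theorem pcc_hom (hF : Fld d) {ε : C} (hom : F.IsHomogeneous (2 * h))
    (hne : ∀ c, F ≠ MvPolynomial.C c * Abs ε ^ h)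
    (hI : Inv d F u v w (u * w - algebraMap C K ε * v ^ 2)) : Con3 C u v w := by
  by_cases u0 : u = 0
  · exact Con3.line (a := 1) (b := 0) (c := 0) (by simp) (by simp [u0])
  obtain ⟨x, rfl⟩ : ∃ x, v = u * x := ⟨v / u, by field_simp⟩
  obtain ⟨y, rfl⟩ : ∃ y, w = u * y := ⟨w / u, by field_simp⟩
  by_cases I0 : y - algebraMap C K ε * x ^ 2 = 0
  · simpa using (con3_of_con (x := x) (y := y) ⟨-ε, 0, 0, 0, 1, 0, by simp,
      by simpa [sub_eq_neg_add] using I0⟩).smul u
  simpa using (con3_of_con (pcc hF hom hne (Inv.scale (d := d) (l := 1) (fun g => by simp)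
    one_ne_zero u0 I0 (by convert hI using 1 <;> ring)))).smul u

theorem pcc_sq (hF : Fld d) {κ : C} (hom : F.IsHomogeneous (2 * h))
    (hne : ∀ c, F ≠ MvPolynomial.C c * Sq κ ^ h)
    (hI : Inv d F u v w (u ^ 2 + v ^ 2 + algebraMap C K κ * w ^ 2)) : Con3 C u v w := by
  obtain ⟨i, hi⟩ := IsAlgClosed.exists_pow_nat_eq (-1 : C) two_pos
  have i0 : i ≠ 0 := fun e => by simp [e] at hi
  have hk := congrArg (algebraMap C K) hi
  rw [map_pow, map_neg, map_one] at hk
  have he : Matrix.det !![1 / 2, 0, 1 / 2; -i / 2, 0, i / 2; 0, 1, 0] ≠ 0 := by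
    rw [show Matrix.det !![1 / 2, 0, 1 / 2; -i / 2, 0, i / 2; 0, 1, 0] = -i / 2 by
      simp [Matrix.det_fin_three]; ring]
    simp [i0]
  refine Con3.lin (a0 := 1) (b0 := i) (c0 := 0) (a1 := 0) (b1 := 0) (c1 := 1) (a2 := 1) (b2 := -i)
    (c2 := 0) (by simp [Matrix.det_fin_three, i0, ← two_mul]) (pcc_hom
      (F := ev F (lin (1 / 2) 0 (1 / 2)) (lin (-i / 2) 0 (i / 2)) (lin 0 1 0)) (ε := -κ) hF
      (hom_ev hom (hom_lin ..) (hom_lin ..) (hom_lin ..)) (fun c e => ?_) (Inv.lin ?_))
  · refine lin_ne (sub_ne_zero.2 (hne c)) he ?_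
    have h4 : ev (Sq κ) (lin (1 / 2) 0 (1 / 2)) (lin (-i / 2) 0 (i / 2)) (lin 0 1 0) = Abs (-κ) :=
      sub_eq_zero.1 (eq_zero_of_ev fun a b c => by
        rw [ev_sub, ev_ev]
        simp only [ev_Sq, ev_lin, ev_Abs, Algebra.algebraMap_self_apply]
        linear_combination (a - c) ^ 2 / 4 * hi)
    rw [ev_sub, ev_mul, ev_pow, ev_C, e, h4, MvPolynomial.algebraMap_eq, sub_self]
  · convert hI using 1 <;>
      simp only [ev_lin, map_div₀, map_neg, map_one, map_zero, map_ofNat]
    · ring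
    · linear_combination -v * hk
    · ring
    · linear_combination -v ^ 2 * hk

omit [CharZero C] [IsAlgClosed C] [CharZero K] [IsAlgClosed K] in
lemma alg_cl (t : K) (g : cl C ({t} : Set K)) :
    IsAlgebraic (IntermediateField.adjoin C {(⟨t, subset_cl _ rfl⟩ : cl C ({t} : Set K))}) g := by
  rw [← H17.mem_cl_iff, H17.cl_adjoin]
  by_contra hn
  have h1 := H88.rk_insert hn
  rw [← H17.rk_map (cl C {t}).val, ← H17.rk_map (cl C {t}).val {_}, Set.image_insert_eq,
    Set.image_singleton] at h1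
  have h2 := H88.rk_le (k := C) (S := {t}) (T := {(g : K), t})
    (Set.pair_subset g.2 (subset_cl _ rfl))
  exact absurd (h1.symm.le.trans h2)
    (not_le.2 ((ENat.lt_add_one_iff (H17.rk_finite (Set.finite_singleton _))).2 le_rfl))

omit [CharZero C] [IsAlgClosed C] [CharZero K] [IsAlgClosed K] in
lemma Inv.res {L : IntermediateField C K} (hp : H96.Pres L d) {u v w I0 : L}
    (h : Inv d F (u : K) v w I0) : Inv (H96.Norm.res d hp) F u v w I0 := fun a b => by
  have e : ∀ x y z : L, ((ev F x y z : L) : K) = ev F (x : K) y z := map_ev L.val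
  refine Subtype.ext ?_
  rw [e, e]
  push_cast [H96.Norm.res_apply]
  exact h a b

omit [IsAlgClosed K] in
lemma fld_cl {t : K} (ht : d t = 1) :
    ∃ hp : H96.Pres (cl C {t}) d, Fld (H96.Norm.res d hp) := by
  have hp : H96.Pres (cl C {t}) d := fun f hf =>
    H17.stab_cl (fun s hs => by rw [hs, ht]; exact one_mem _) hf
  have : CharZero (cl C ({t} : Set K)) := algebraRat.charZero _
  exact ⟨hp, ex C _ _ ⟨t, subset_cl _ rfl⟩
    (fun e => one_ne_zero (ht.symm.trans (congrArg Subtype.val e))) (alg_cl t)⟩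

/-- Billiards on the sphere (`κ ≠ 0`) and on the plane (`κ = 0`). The vector `(u, v, w)` is the
tangent geodesic of the mirror at the point `(p, q, r)`. -/
theorem scc {t p q r : K} {κ : C} (t0 : d t ≠ 0) (hu : u ∈ cl C {t}) (hv : v ∈ cl C {t})
    (hw : w ∈ cl C {t}) (n0 : u ^ 2 + v ^ 2 + algebraMap C K κ * w ^ 2 ≠ 0)
    (h1 : p * u + q * v + r * w = 0) (h2 : p * d u + q * d v + r * d w = 0)
    (hom : F.IsHomogeneous (2 * h)) (hne : ∀ c, F ≠ MvPolynomial.C c * Sq κ ^ h)
    (hI : Inv d F u v w (u ^ 2 + v ^ 2 + algebraMap C K κ * w ^ 2)) :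
    Con3 C u v w ∧ Con3 C p q r := by
  have hd : ∀ g, d g = d t * ((d t)⁻¹ • d) g := fun g => by simp [t0]
  have hI := Inv.scale (μ := 1) hd t0 one_ne_zero n0 (by simpa using hI)
  obtain ⟨hp, hF⟩ := fld_cl (d := (d t)⁻¹ • d) (t := t) (by simp [t0])
  have := H96.Norm.isAlgClosed_cl (C := C) ({t} : Set K)
  have : CharZero (cl C ({t} : Set K)) := algebraRat.charZero _
  have hc : ∀ g ∈ cl C {t}, d g = 0 → ∃ c, g = algebraMap C K c := fun g hg e => by
    obtain ⟨c, hc⟩ := hF.cst ⟨g, hg⟩ (Subtype.ext (by simp [e]))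
    exact ⟨c, congrArg Subtype.val hc⟩
  have h3 : Con3 C u v w := by
    lift u to cl C ({t} : Set K) using hu
    lift v to cl C ({t} : Set K) using hv
    lift w to cl C ({t} : Set K) using hw
    exact Con3.map (pcc_sq hF hom hne (Inv.res hp hI)) (cl C {t}).val
  exact ⟨h3, h3.dual hc hu hv hw (fun e => n0 (by simp [e])) h1 h2⟩

omit [CharZero C] [CharZero K] [IsAlgClosed C] [IsAlgClosed K] in
/-- Invariance in terms of the reflection. -/
lemma inv_of_refl {p q r : K} {κ : C} [CharZero K] (hom : F.IsHomogeneous (2 * h))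
    (h1 : p * u + q * v + r * w = 0) (h2 : p * d u + q * d v + r * d w = 0)
    (hR : ∀ a b c l : K, p * a + q * b + r * c = 0 →
      l = 2 * (a * u + b * v + algebraMap C K κ * (c * w)) /
        (u ^ 2 + v ^ 2 + algebraMap C K κ * w ^ 2) →
      ev F (a - l * u) (b - l * v) (c - l * w) = ev F a b c)
    (n0 : u ^ 2 + v ^ 2 + algebraMap C K κ * w ^ 2 ≠ 0) :
    Inv d F u v w (u ^ 2 + v ^ 2 + algebraMap C K κ * w ^ 2) := fun s t => by
  have h3 := ev_smul hom (-1 : K)
  simp only [neg_mul, one_mul, even_two, Even.mul_right, Even.neg_pow, one_pow] at h3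
  rw [← hR _ _ _ (2 * s + d (u ^ 2 + v ^ 2 + algebraMap C K κ * w ^ 2) /
    (u ^ 2 + v ^ 2 + algebraMap C K κ * w ^ 2) * t) (by linear_combination s * h1 + t * h2) (by
      simp [Derivation.leibniz_pow]
      field_simp
      ring), ← h3]
  congr 1 <;> ring

omit [CharZero C] [CharZero K] [IsAlgClosed C] [IsAlgClosed K] in
/-- Invariance at one generic element of the pencil suffices. -/
lemma inv_of_gen {L : IntermediateField C K} {n : ℕ} {I0 a b : K} (hom : F.IsHomogeneous n)
    (hp : H96.Pres L d) (hu : u ∈ L) (hv : v ∈ L) (hw : w ∈ L) (hI : I0 ∈ L) (b0 : b ≠ 0)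
    (hz : Transcendental L (a / b))
    (h : ev F (a * u + b * d u) (a * v + b * d v) (a * w + b * d w) =
      ev F ((a + d I0 / I0 * b) * u - b * d u) ((a + d I0 / I0 * b) * v - b * d v)
        ((a + d I0 / I0 * b) * w - b * d w)) : Inv d F u v w I0 := by
  let l : ∀ m ∈ L, Polynomial L := fun m hm =>
    Polynomial.X * Polynomial.C ⟨m, hm⟩ + Polynomial.C ⟨d m, hp m hm⟩
  let r : ∀ m ∈ L, Polynomial L := fun m hm =>
    (Polynomial.X + Polynomial.C ⟨d I0 / I0, div_mem (hp I0 hI) hI⟩) * Polynomial.C ⟨m, hm⟩ -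
      Polynomial.C ⟨d m, hp m hm⟩
  have e : ∀ s t : K, t ≠ 0 → (Polynomial.aeval (s / t)
      (ev F (l u hu) (l v hv) (l w hw) - ev F (r u hu) (r v hv) (r w hw)) = 0 ↔
      ev F (s * u + t * d u) (s * v + t * d v) (s * w + t * d w) =
      ev F ((s + d I0 / I0 * t) * u - t * d u) ((s + d I0 / I0 * t) * v - t * d v)
        ((s + d I0 / I0 * t) * w - t * d w)) := fun s t t0 => by
    have e1 := map_ev (F := F) ((Polynomial.aeval (s / t) : Polynomial L →ₐ[L] K).restrictScalars C)
    simp only [AlgHom.restrictScalars_apply] at e1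
    have el : ∀ m hm, t * Polynomial.aeval (s / t) (l m hm) = s * m + t * d m := fun m hm => by
      simp [l]
      field_simp
    have er : ∀ m hm, t * Polynomial.aeval (s / t) (r m hm) = (s + d I0 / I0 * t) * m - t * d m :=
      fun m hm => by
        simp only [r, map_sub, map_mul, map_add, Polynomial.aeval_X, Polynomial.aeval_C,
          IntermediateField.algebraMap_apply]
        generalize d I0 / I0 = z
        field_simp
    rw [map_sub, sub_eq_zero, e1, e1, ← mul_right_inj' (pow_ne_zero n t0), ← ev_smul hom,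
      ← ev_smul hom, el, el, el, er, er, er]
  have h0 := (injective_iff_map_eq_zero _).1 (transcendental_iff_injective.1 hz) _ ((e a b b0).2 h)
  intro s t
  by_cases t0 : t = 0
  · simp [t0]
  · exact (e s t t0).1 (by rw [h0, map_zero])

end Pool.Agent.MP_249f74_an.H22
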